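import Pool.Agent.E8helper44.AntiSum

/-!
From a balanced weight function to connectivity in the complementary basis graph.
-/

set_option autoImplicit false

namespace Pool.Agent.E8helper44.AntiReach

open Function Set

/-- One exchange step between complementary bases (the relation of the frozen statement). -/
def Step {α : Type*} (M : Matroid α) (X Y : Set α) : Prop :=
  M.IsBase X ∧ M.IsBase Xᶜ ∧ M.IsBase Y ∧ M.IsBase Yᶜ ∧
    ∃ x ∈ X, ∃ y, y ∉ X ∧ Y = insert y (X \ {x})

theorem range_update {α ι : Type*} [DecidableEq ι] (f : ι → α) (i : ι) (y : α) :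
    Set.range (update f i y) = insert y (f '' {i}ᶜ) := by
  ext z
  constructor
  · rintro ⟨j, rfl⟩
    by_cases hj : j = i
    · subst hj
      simp
    · rw [update_of_ne hj]
      exact Or.inr ⟨j, hj, rfl⟩
  · rintro (rfl | ⟨j, hj, rfl⟩)
    · exact ⟨i, by simp⟩
    · exact ⟨j, by rw [update_of_ne hj]⟩

theorem notMem_of_injective {α ι : Type*} [DecidableEq ι] (f : ι → α) (i : ι) (y : α)
    (h : Injective (update f i y)) : y ∉ f '' {i}ᶜ := by
  rintro ⟨j, hj, hjy⟩
  have hj' : j ≠ i := hj
  have : update f i y j = update f i y i := by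
    rw [update_of_ne hj', update_self, hjy]
  exact hj' (h this)

open Classical in
/-- The main abstract theorem: a balanced weight function `c` forces connectivity. -/
theorem reach {α ι F : Type*} [Fintype α] [Fintype ι] [DecidableEq ι]
    [Field F] (M : Matroid α) (e : ι → α) (he : Injective e)
    (hfac : ((Fintype.card ι).factorial : F) ≠ 0)
    (c : (ι → α) → F)
    (hc1 : ∀ f, c f ≠ 0 → Injective f ∧ M.IsBase (Set.range f) ∧ M.IsBase (Set.range f)ᶜ)
    (hce : c e ≠ 0) (hperm : ∀ σ : Equiv.Perm ι, c (e ∘ σ) = c e)
    (hbal : ∀ f i, ∑ y, c (update f i y) = 0) (Z : Set α) (hZ : Z ⊆ Set.range e) :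
    ∃ S, Relation.ReflTransGen (Step M) (Set.range e) S ∧ S ∩ Set.range e = Z := by
  let K : Set α → Prop := fun S => Relation.ReflTransGen (Step M) (Set.range e) S
  let g : (ι → α) → F := fun f => if K (Set.range f) then c f else 0
  have hgc : ∀ f, g f ≠ 0 → K (Set.range f) ∧ c f ≠ 0 := by
    intro f hf
    by_cases hK : K (Set.range f)
    · refine ⟨hK, ?_⟩
      simpa [g, hK] using hf
    · simp [g, hK] at hf
  have hg : ∀ f i, ∑ y, g (update f i y) = 0 := by
    intro f i
    by_cases hall : ∀ y, g (update f i y) = 0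
    · exact Finset.sum_eq_zero fun y _ => hall y
    · push Not at hall
      obtain ⟨y0, hy0⟩ := hall
      obtain ⟨hK0, hc0⟩ := hgc _ hy0
      rw [← hbal f i]
      refine Finset.sum_congr rfl fun y _ => ?_
      by_cases hcy : c (update f i y) = 0
      · simp only [g]
        split_ifs
        · rfl
        · exact hcy.symm
      · have hK : K (Set.range (update f i y)) := by
          obtain ⟨hi0, hb0, hb0'⟩ := hc1 _ hc0
          obtain ⟨hi1, hb1, hb1'⟩ := hc1 _ hcy
          have hn0 := notMem_of_injective f i y0 hi0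
          have hn1 := notMem_of_injective f i y hi1
          by_cases hyy : y = y0
          · rw [hyy]
            exact hK0
          · refine Relation.ReflTransGen.tail hK0 ?_
            refine ⟨hb0, hb0', hb1, hb1', y0, ?_, y, ?_, ?_⟩
            · rw [range_update]
              exact Set.mem_insert _ _
            · rw [range_update]
              rintro (h | h)
              · exact hyy h
              · exact hn1 h
            · rw [range_update, range_update]
              rw [Set.insert_diff_of_mem _ (Set.mem_singleton y0),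
                Set.diff_singleton_eq_self hn0]
        simp only [g, hK, if_true]
  have hgperm : ∀ σ : Equiv.Perm ι, g (e ∘ σ) = g e := by
    intro σ
    have hr : Set.range (e ∘ σ) = Set.range e := σ.surjective.range_comp e
    simp only [g, hr, hperm σ]
  have hKe : K (Set.range e) := Relation.ReflTransGen.refl
  have hge : g e ≠ 0 := by
    simpa [g, hKe] using hce
  obtain ⟨f, hgf, hf1, hf2⟩ := AntiSum.exists_switched g hg (fun f hf => (hc1 f (hgc f hf).2).1)
    e he hgperm hge hfac (e ⁻¹' Z)
  refine ⟨Set.range f, (hgc f hgf).1, ?_⟩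
  ext z
  constructor
  · rintro ⟨⟨i, rfl⟩, hz⟩
    by_cases hi : i ∈ e ⁻¹' Z
    · rw [hf1 i hi]
      exact hi
    · exact absurd hz (hf2 i hi)
  · intro hz
    obtain ⟨i, rfl⟩ := hZ hz
    refine ⟨⟨i, hf1 i hz⟩, ⟨i, rfl⟩⟩

end Pool.Agent.E8helper44.AntiReach
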