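import Pool.Agent.E8helper44.AntiReach

/-!
The balanced weight function of a represented matroid.
-/

set_option autoImplicit false

namespace Pool.Agent.E8helper44.AntiRep

open Function Set Matrix

variable {α ι F : Type*} [Fintype α] [Fintype ι] [DecidableEq ι] [Field F]

/-- linear independence on a set, in terms of functions on the whole type -/
theorem linInd_char (a : α → ι → F) (I : Set α) :
    LinearIndepOn F a I ↔ ∀ z : α → F, (∀ y, y ∉ I → z y = 0) → ∑ y, z y • a y = 0 → z = 0 := by
  classical
  rw [linearIndepOn_iff]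
  constructor
  · intro h z hz hsum
    have h1 := h (Finsupp.equivFunOnFinite.symm z) ?_ ?_
    · funext y
      exact DFunLike.congr_fun h1 y
    · rw [Finsupp.mem_supported]
      intro y hy
      by_contra hyI
      have : z y = 0 := hz y hyI
      simp [this] at hy
    · rw [Finsupp.linearCombination_apply, Finsupp.sum_fintype _ _ (by simp)]
      simpa using hsum
  · intro h l hl hsum
    have h1 := h l ?_ ?_
    · ext y
      exact congrFun h1 y
    · intro y hy
      rw [Finsupp.mem_supported] at hl
      by_contra hne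
      exact hy (hl (Finsupp.mem_support_iff.mpr hne))
    · rw [Finsupp.linearCombination_apply, Finsupp.sum_fintype _ _ (by simp)] at hsum
      exact hsum

/-- determinant of the rows picked by `f` -/
def D (a : α → ι → F) (f : ι → α) : F := (Matrix.of fun i k => a (f i) k).det

theorem D_perm (a : α → ι → F) (f : ι → α) (σ : Equiv.Perm ι) :
    D a (f ∘ σ) = (Equiv.Perm.sign σ : F) * D a f := by
  have h := Matrix.det_permute σ (Matrix.of fun i k => a (f i) k)
  rw [D, D, ← h]
  rfl

/-- The determinant as a linear functional of the row `i`. -/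
theorem D_update [DecidableEq α] (a : α → ι → F) (f : ι → α) (i : ι) :
    ∃ φ : (ι → F) →ₗ[F] F, ∀ y, D a (update f i y) = φ (a y) := by
  refine ⟨(LinearMap.proj i).comp ((Matrix.of fun i k => a (f i) k)ᵀ.cramer), fun y => ?_⟩
  rw [LinearMap.comp_apply, LinearMap.proj_apply, Matrix.cramer_transpose_apply, D]
  congr 1
  ext j k
  by_cases hj : j = i
  · subst hj
    simp [Matrix.updateRow_self]
  · simp [Matrix.updateRow_ne hj, update_of_ne hj]

theorem D_ne_zero (a : α → ι → F) (f : ι → α) (h : D a f ≠ 0) :
    LinearIndependent F (fun i => a (f i)) := by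
  have h1 : IsUnit (Matrix.of fun i k => a (f i) k) :=
    (Matrix.isUnit_iff_isUnit_det _).mpr (isUnit_iff_ne_zero.mpr h)
  exact Matrix.linearIndependent_rows_iff_isUnit.mpr h1

theorem D_of_linInd (a : α → ι → F) (f : ι → α) (h : LinearIndependent F (fun i => a (f i))) :
    D a f ≠ 0 := by
  have h1 : IsUnit (Matrix.of fun i k => a (f i) k) :=
    Matrix.linearIndependent_rows_iff_isUnit.mp h
  exact isUnit_iff_ne_zero.mp ((Matrix.isUnit_iff_isUnit_det _).mp h1)

/-- Core: given coordinates `a` in `ι → F` with `a ∘ e` and the complement independent, there is a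
dual family `κ`. -/
theorem exists_dual (a : α → ι → F) (e : ι → α) (he : LinearIndependent F (fun i => a (e i)))
    (hcard : Fintype.card α = Fintype.card ι + Fintype.card ι) :
    ∃ κ : α → ι → F, (∀ k j, ∑ y, a y k * κ y j = 0) ∧
      ∀ f : ι → α, D κ f ≠ 0 ↔ LinearIndepOn F a (Set.range f)ᶜ := by
  classical
  let Φ : (α → F) →ₗ[F] (ι → F) := Fintype.linearCombination F a
  have hΦ : ∀ z, Φ z = ∑ y, z y • a y := fun z => Fintype.linearCombination_apply F a z
  have hrange : LinearMap.range Φ = ⊤ := by
    rw [Fintype.range_linearCombination, eq_top_iff]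
    have h1 : Submodule.span F (Set.range fun i => a (e i)) = ⊤ :=
      he.span_eq_top_of_card_eq_finrank' (by simp)
    rw [← h1]
    apply Submodule.span_mono
    rintro _ ⟨i, rfl⟩
    exact ⟨e i, rfl⟩
  have hker : Module.finrank F (LinearMap.ker Φ) = Fintype.card ι := by
    have h1 := LinearMap.finrank_range_add_finrank_ker Φ
    rw [hrange, finrank_top, Module.finrank_fintype_fun_eq_card,
      Module.finrank_fintype_fun_eq_card, hcard] at h1
    omega
  have L : (ι → F) ≃ₗ[F] (LinearMap.ker Φ) :=
    LinearEquiv.ofFinrankEq _ _ (by rw [hker, Module.finrank_fintype_fun_eq_card])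
  let κ : α → ι → F := fun y j => (L (Pi.single j 1) : α → F) y
  have hκL : ∀ (w : ι → F) (y : α), ∑ j, κ y j * w j = (L w : α → F) y := by
    intro w y
    have h1 : w = ∑ j, w j • (Pi.single j (1 : F) : ι → F) := by
      funext k
      simp [Finset.sum_apply, Pi.single_apply]
    conv_rhs => rw [h1]
    rw [map_sum, Submodule.coe_sum, Finset.sum_apply]
    refine Finset.sum_congr rfl fun j _ => ?_
    rw [map_smul, Submodule.coe_smul, Pi.smul_apply, smul_eq_mul, mul_comm]
  refine ⟨κ, ?_, ?_⟩
  · intro k j
    have h1 : Φ (L (Pi.single j 1) : α → F) = 0 := (L (Pi.single j 1)).2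
    rw [hΦ] at h1
    have h2 := congrFun h1 k
    rw [Finset.sum_apply, Pi.zero_apply] at h2
    rw [← h2]
    refine Finset.sum_congr rfl fun y _ => ?_
    rw [Pi.smul_apply, smul_eq_mul, mul_comm]
  · intro f
    rw [linInd_char]
    constructor
    · intro hD z hz hsum
      have hzk : z ∈ LinearMap.ker Φ := by
        rw [LinearMap.mem_ker, hΦ]
        exact hsum
      by_contra hzne
      apply hD
      rw [D, ← Matrix.exists_mulVec_eq_zero_iff]
      refine ⟨L.symm ⟨z, hzk⟩, ?_, ?_⟩
      · intro h0
        apply hzne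
        have h1 : (⟨z, hzk⟩ : LinearMap.ker Φ) = 0 := by
          rw [← L.apply_symm_apply ⟨z, hzk⟩, h0, map_zero]
        exact congrArg Subtype.val h1
      · funext i
        show ∑ j, κ (f i) j * (L.symm ⟨z, hzk⟩) j = 0
        rw [hκL, L.apply_symm_apply]
        exact hz (f i) (fun h => h ⟨i, rfl⟩)
    · intro h hD
      rw [D, ← Matrix.exists_mulVec_eq_zero_iff] at hD
      obtain ⟨w, hw, hw0⟩ := hD
      apply hw
      have hz0 : ∀ i, (L w : α → F) (f i) = 0 := by
        intro i
        rw [← hκL]
        exact congrFun hw0 i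
      have h1 : (L w : α → F) = 0 := by
        apply h
        · intro y hy
          rw [Set.notMem_compl_iff] at hy
          obtain ⟨i, rfl⟩ := hy
          exact hz0 i
        · rw [← hΦ]
          exact (L w).2
      have h2 : L w = 0 := Subtype.ext h1
      exact (LinearEquiv.map_eq_zero_iff L).mp h2

/-- The balanced weight function. -/
theorem exists_weight [DecidableEq α] (M : Matroid α) (a : α → ι → F)
    (ha : ∀ I : Set α, M.Indep I ↔ LinearIndepOn F a I) (e : ι → α) (he : Injective e)
    (hB : M.IsBase (Set.range e)) (hB' : M.IsBase (Set.range e)ᶜ) :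
    ∃ c : (ι → α) → F,
      (∀ f, c f ≠ 0 → Injective f ∧ M.IsBase (Set.range f) ∧ M.IsBase (Set.range f)ᶜ) ∧
      c e ≠ 0 ∧ (∀ σ : Equiv.Perm ι, c (e ∘ σ) = c e) ∧
      ∀ f i, ∑ y, c (update f i y) = 0 := by
  classical
  have hrange_card : ∀ f : ι → α, Injective f → (Set.range f).ncard = Fintype.card ι := by
    intro f hf
    rw [← Set.image_univ, Set.ncard_image_of_injective _ hf, Set.ncard_univ,
      Nat.card_eq_fintype_card]
  have hcompl : ∀ S : Set α, S.ncard + Sᶜ.ncard = Fintype.card α := by
    intro S
    rw [Set.ncard_add_ncard_compl, Nat.card_eq_fintype_card]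
  have hcard : Fintype.card α = Fintype.card ι + Fintype.card ι := by
    rw [← hcompl (Set.range e), hB'.ncard_eq_ncard_of_isBase hB, hrange_card e he]
  have hbase : ∀ S : Set α, M.Indep S → Fintype.card ι ≤ S.ncard → M.IsBase S := by
    intro S hS hc
    obtain ⟨B', hB', hsub⟩ := hS.exists_isBase_superset
    have h1 : B'.ncard = Fintype.card ι := by
      rw [hB'.ncard_eq_ncard_of_isBase hB, hrange_card e he]
    have h2 : S = B' := Set.eq_of_subset_of_ncard_le hsub (by omega) (Set.toFinite _)
    rw [h2]
    exact hB'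
  have hli : ∀ f : ι → α, LinearIndependent F (fun i => a (f i)) →
      Injective f ∧ LinearIndepOn F a (Set.range f) := by
    intro f hf
    have hinj : Injective f := by
      intro x y hxy
      exact hf.injective (by show a (f x) = a (f y); rw [hxy])
    refine ⟨hinj, ?_⟩
    have h1 := hf.linearIndepOn_univ.image_of_comp (f := f) (g := a)
    rwa [Set.image_univ] at h1
  have heli : LinearIndependent F (fun i => a (e i)) := by
    have h1 : LinearIndepOn F a (Set.range e) := (ha _).mp hB.indep
    exact (linearIndepOn_range_iff he a).mp h1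
  obtain ⟨κ, hκ, hκD⟩ := exists_dual a e heli hcard
  refine ⟨fun f => D a f * D κ f, ?_, ?_, ?_, ?_⟩
  · intro f hf
    have h1 := hli f (D_ne_zero a f (left_ne_zero_of_mul hf))
    have h2 : LinearIndepOn F a (Set.range f)ᶜ := (hκD f).mp (right_ne_zero_of_mul hf)
    refine ⟨h1.1, hbase _ ((ha _).mpr h1.2) (by rw [hrange_card f h1.1]), ?_⟩
    refine hbase _ ((ha _).mpr h2) ?_
    have := hcompl (Set.range f)
    rw [hrange_card f h1.1] at this
    omega
  · refine mul_ne_zero (D_of_linInd a e heli) ?_
    exact (hκD e).mpr ((ha _).mp hB'.indep)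
  · intro σ
    show D a (e ∘ σ) * D κ (e ∘ σ) = D a e * D κ e
    rw [D_perm, D_perm]
    have hs : ((Equiv.Perm.sign σ : ℤ) : F) * ((Equiv.Perm.sign σ : ℤ) : F) = 1 := by
      rw [← Int.cast_mul, ← Units.val_mul, Int.units_mul_self]
      simp
    calc ((Equiv.Perm.sign σ : ℤ) : F) * D a e * (((Equiv.Perm.sign σ : ℤ) : F) * D κ e)
        = (((Equiv.Perm.sign σ : ℤ) : F) * ((Equiv.Perm.sign σ : ℤ) : F)) * (D a e * D κ e) := by
          ring
      _ = D a e * D κ e := by rw [hs, one_mul]
  · intro f i
    obtain ⟨φ, hφ⟩ := D_update a f i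
    obtain ⟨ψ, hψ⟩ := D_update κ f i
    have h1 : ∀ y, ψ (κ y) = ∑ j, κ y j * ψ (Pi.single j 1) := by
      intro y
      have h2 : κ y = ∑ j, κ y j • (Pi.single j (1 : F) : ι → F) := by
        funext k
        simp [Finset.sum_apply, Pi.single_apply]
      conv_lhs => rw [h2]
      rw [map_sum]
      refine Finset.sum_congr rfl fun j _ => ?_
      rw [map_smul, smul_eq_mul]
    have h3 : ∀ y, φ (a y) = ∑ k, a y k * φ (Pi.single k 1) := by
      intro y
      have h2 : a y = ∑ k, a y k • (Pi.single k (1 : F) : ι → F) := by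
        funext k
        simp [Finset.sum_apply, Pi.single_apply]
      conv_lhs => rw [h2]
      rw [map_sum]
      refine Finset.sum_congr rfl fun j _ => ?_
      rw [map_smul, smul_eq_mul]
    calc ∑ y, D a (update f i y) * D κ (update f i y)
        = ∑ y, ∑ k, ∑ j, (a y k * κ y j) * (φ (Pi.single k 1) * ψ (Pi.single j 1)) := by
          refine Finset.sum_congr rfl fun y _ => ?_
          rw [hφ, hψ, h1, h3, Finset.sum_mul_sum]
          refine Finset.sum_congr rfl fun k _ => Finset.sum_congr rfl fun j _ => ?_
          ring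
      _ = ∑ k, ∑ j, (∑ y, a y k * κ y j) * (φ (Pi.single k 1) * ψ (Pi.single j 1)) := by
          rw [Finset.sum_comm]
          refine Finset.sum_congr rfl fun k _ => ?_
          rw [Finset.sum_comm]
          refine Finset.sum_congr rfl fun j _ => ?_
          rw [Finset.sum_mul]
      _ = 0 := by
          refine Finset.sum_eq_zero fun k _ => Finset.sum_eq_zero fun j _ => ?_
          rw [hκ, zero_mul]

end Pool.Agent.E8helper44.AntiRep
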