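import Mathlib

/-!
Abstract step: a function `g` on `ι → α` all of whose one-coordinate sums vanish.
-/

set_option autoImplicit false

namespace Pool.Agent.E8helper44.AntiSum

open Function

variable {α ι F : Type*} [Fintype α] [DecidableEq α] [Fintype ι] [DecidableEq ι] [Field F]

/-- The weighted total. -/
def T (g : (ι → α) → F) (u : ι → α → F) : F := ∑ f : ι → α, (∏ j, u j (f j)) * g f

theorem T_update_one (g : (ι → α) → F) (hg : ∀ f i, ∑ y, g (update f i y) = 0)
    (u : ι → α → F) (i : ι) : T g (update u i (fun _ => 1)) = 0 := by
  unfold T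
  rw [← Equiv.sum_comp (Equiv.funSplitAt i α).symm, Fintype.sum_prod_type, Finset.sum_comm]
  refine Finset.sum_eq_zero fun h _ => ?_
  by_cases hne : Nonempty α
  · obtain ⟨y0⟩ := hne
    have key : ∀ y : α, (Equiv.funSplitAt i α).symm (y, h)
        = update ((Equiv.funSplitAt i α).symm (y0, h)) i y := by
      intro y
      funext j
      by_cases hj : j = i
      · subst hj
        simp [Equiv.funSplitAt, Equiv.piSplitAt]
      · rw [update_of_ne hj]
        simp [Equiv.funSplitAt, Equiv.piSplitAt, hj]
    set f0 := (Equiv.funSplitAt i α).symm (y0, h) with hf0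
    have hprod : ∀ y : α, ∏ j, update u i (fun _ => (1 : F)) j (update f0 i y j)
        = ∏ j, update u i (fun _ => (1 : F)) j (f0 j) := by
      intro y
      refine Finset.prod_congr rfl fun j _ => ?_
      by_cases hj : j = i
      · subst hj
        simp
      · rw [update_of_ne hj, update_of_ne hj]
    calc ∑ y : α, (∏ j, update u i (fun _ => (1 : F)) j ((Equiv.funSplitAt i α).symm (y, h) j))
            * g ((Equiv.funSplitAt i α).symm (y, h))
        = ∑ y : α, (∏ j, update u i (fun _ => (1 : F)) j (f0 j)) * g (update f0 i y) := by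
          refine Finset.sum_congr rfl fun y _ => ?_
          rw [key y, hprod y]
      _ = 0 := by rw [← Finset.mul_sum, hg, mul_zero]
  · have : IsEmpty α := not_nonempty_iff.mp hne
    simp

theorem T_update_sub (g : (ι → α) → F) (u : ι → α → F) (i : ι) (a b : α → F) :
    T g (update u i (fun y => a y - b y)) = T g (update u i a) - T g (update u i b) := by
  unfold T
  rw [← Finset.sum_sub_distrib]
  refine Finset.sum_congr rfl fun f _ => ?_
  have hsplit : ∀ w : α → F, ∏ j, update u i w j (f j)
      = w (f i) * ∏ j ∈ Finset.univ.erase i, u j (f j) := by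
    intro w
    rw [← Finset.mul_prod_erase Finset.univ _ (Finset.mem_univ i), update_self]
    congr 1
    refine Finset.prod_congr rfl fun j hj => ?_
    rw [update_of_ne (Finset.ne_of_mem_erase hj)]
  rw [hsplit, hsplit, hsplit]
  ring

theorem T_switch (g : (ι → α) → F) (hg : ∀ f i, ∑ y, g (update f i y) = 0)
    (w : ι → α → F) (P : Finset ι) :
    T g (fun i y => if i ∈ P then w i y - 1 else w i y) = T g w := by
  induction P using Finset.induction_on with
  | empty => simp
  | insert i P hi ih =>
    rw [← ih]
    have h1 : (fun (j : ι) (y : α) => if j ∈ insert i P then w j y - 1 else w j y)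
        = update (fun j y => if j ∈ P then w j y - 1 else w j y) i (fun y => w i y - 1) := by
      funext j
      by_cases hj : j = i
      · subst hj
        rw [update_self]
        funext y
        simp
      · rw [update_of_ne hj]
        funext y
        simp [Finset.mem_insert, hj]
    have h2 : (fun (j : ι) (y : α) => if j ∈ P then w j y - 1 else w j y)
        = update (fun j y => if j ∈ P then w j y - 1 else w j y) i (fun y => w i y) := by
      funext j
      by_cases hj : j = i
      · subst hj
        rw [update_self]
        funext y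
        simp [hi]
      · rw [update_of_ne hj]
    rw [h1]
    have h3 := T_update_sub g (fun j y => if j ∈ P then w j y - 1 else w j y) i
      (fun y => w i y) (fun _ => 1)
    rw [h3, T_update_one g hg, sub_zero, ← h2]

open Classical in
/-- If `g` is invariant under permutations of the coordinates at an injective `e`, and vanishes at
non-injective functions, then some `f` with `g f ≠ 0` agrees with `e` on `Z` and
avoids `range e` off `Z`. -/
theorem exists_switched (g : (ι → α) → F) (hg : ∀ f i, ∑ y, g (update f i y) = 0)
    (hinj : ∀ f, g f ≠ 0 → Injective f)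
    (e : ι → α) (he : Injective e) (hperm : ∀ σ : Equiv.Perm ι, g (e ∘ σ) = g e)
    (hge : g e ≠ 0) (hfac : ((Fintype.card ι).factorial : F) ≠ 0) (Z : Set ι) :
    ∃ f : ι → α, g f ≠ 0 ∧ (∀ i ∈ Z, f i = e i) ∧ ∀ i ∉ Z, f i ∉ Set.range e := by
  -- weights
  let w : ι → α → F := fun i y =>
    if i ∈ Z then (if y = e i then 1 else 0) else (if y ∈ Set.range e then 1 else 0)
  -- evaluate `T g w`
  have hval : T g w = ((Fintype.card {i // i ∉ Z}).factorial : F) * g e := by
    have hcard : Fintype.card {σ : Equiv.Perm ι // ∀ a, ¬ (a ∉ Z) → σ a = a}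
        = (Fintype.card {i // i ∉ Z}).factorial := by
      rw [← Fintype.card_congr (Equiv.Perm.subtypeEquivSubtypePerm (fun i => i ∉ Z)),
        Fintype.card_perm]
    unfold T
    rw [← hcard, ← Fintype.sum_of_injective
      (fun σ : {σ : Equiv.Perm ι // ∀ a, ¬ (a ∉ Z) → σ a = a} => e ∘ (σ : Equiv.Perm ι))
      ?_ (fun _ => g e)]
    · rw [Finset.sum_const, Finset.card_univ, nsmul_eq_mul]
    · intro f hf
      by_contra hne
      have hg0 : g f ≠ 0 := right_ne_zero_of_mul hne
      have hw0 : ∀ j, w j (f j) ≠ 0 := fun j =>
        Finset.prod_ne_zero_iff.mp (left_ne_zero_of_mul hne) j (Finset.mem_univ j)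
      have hfi := hinj f hg0
      have hZ : ∀ j ∈ Z, f j = e j := by
        intro j hj
        have := hw0 j
        simp only [w, hj, if_true] at this
        by_contra hcon
        simp [hcon] at this
      have hR : ∀ j, ∃ k, e k = f j := by
        intro j
        by_cases hj : j ∈ Z
        · exact ⟨j, (hZ j hj).symm⟩
        · have := hw0 j
          simp only [w, hj, if_false] at this
          by_contra hcon
          have hcon' : f j ∉ Set.range e := hcon
          simp [hcon'] at this
      choose τ hτ using hR
      have hτi : Injective τ := by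
        intro a b hab
        apply hfi
        rw [← hτ a, ← hτ b, hab]
      have hτb : Bijective τ := Finite.injective_iff_bijective.mp hτi
      apply hf
      refine ⟨⟨Equiv.ofBijective τ hτb, ?_⟩, ?_⟩
      · intro a ha
        have ha' : a ∈ Z := not_not.mp ha
        apply he
        show e (τ a) = e a
        rw [hτ a, hZ a ha']
      · funext j
        exact hτ j
    · intro σ
      have hprod : ∏ j, w j ((e ∘ (σ : Equiv.Perm ι)) j) = 1 := by
        refine Finset.prod_eq_one fun j _ => ?_
        by_cases hj : j ∈ Z
        · have : (σ : Equiv.Perm ι) j = j := σ.2 j (not_not.mpr hj)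
          simp [w, hj, this]
        · simp [w, hj]
      show g e = (∏ j, w j ((e ∘ (σ : Equiv.Perm ι)) j)) * g (e ∘ (σ : Equiv.Perm ι))
      rw [hprod, one_mul, hperm]
    · intro σ τ hστ
      apply Subtype.ext
      apply Equiv.ext
      intro j
      exact he (congrFun hστ j)
  have hTne : T g w ≠ 0 := by
    rw [hval]
    refine mul_ne_zero ?_ hge
    intro h0
    apply hfac
    have hle : Fintype.card {i // i ∉ Z} ≤ Fintype.card ι := Fintype.card_subtype_le _
    obtain ⟨q, hq⟩ := Nat.factorial_dvd_factorial hle
    rw [hq, Nat.cast_mul, h0, zero_mul]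
  rw [← T_switch g hg w (Finset.univ.filter (fun i => i ∉ Z))] at hTne
  unfold T at hTne
  obtain ⟨f, -, hf⟩ := Finset.exists_ne_zero_of_sum_ne_zero hTne
  refine ⟨f, right_ne_zero_of_mul hf, ?_, ?_⟩
  · intro i hi
    have := Finset.prod_ne_zero_iff.mp (left_ne_zero_of_mul hf) i (Finset.mem_univ i)
    by_contra hcon
    simp [w, hi, hcon] at this
  · intro i hi hcon
    have := Finset.prod_ne_zero_iff.mp (left_ne_zero_of_mul hf) i (Finset.mem_univ i)
    obtain ⟨k, hk⟩ := hcon
    simp [w, hi, ← hk] at this

end Pool.Agent.E8helper44.AntiSum
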