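import Pool.Agent.E8helper44.Dom

set_option autoImplicit false

namespace Pool.Agent.E8helper44

open MvPolynomial

noncomputable section

variable {M : ℕ}

/-- apply successively `r` divided differences starting at `k` -/
def CC : ℕ → ℕ → MvPolynomial ℕ ℤ → MvPolynomial ℕ ℤ
  | 0, _, f => f
  | r + 1, k, f => CC r (k + 1) (ddo k f)

theorem CC_add (r k : ℕ) (f g : MvPolynomial ℕ ℤ) : CC r k (f + g) = CC r k f + CC r k g := by
  induction r generalizing k f g with
  | zero => rfl
  | succ r ih =>
    show CC r (k + 1) (ddo k (f + g)) = CC r (k + 1) (ddo k f) + CC r (k + 1) (ddo k g)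
    rw [ddo_add, ih]

theorem CC_zero (r k : ℕ) : CC r k 0 = 0 := by
  have := CC_add r k 0 0
  rw [add_zero] at this
  exact left_eq_add.mp this

theorem CC_sum {ι : Type*} (s : Finset ι) (r k : ℕ) (f : ι → MvPolynomial ℕ ℤ) :
    CC r k (∑ i ∈ s, f i) = ∑ i ∈ s, CC r k (f i) := by
  classical
  induction s using Finset.induction_on with
  | empty => rw [Finset.sum_empty, Finset.sum_empty, CC_zero]
  | insert i s hi ih => rw [Finset.sum_insert hi, Finset.sum_insert hi, CC_add, ih]

theorem CC_sym (r k : ℕ) (s f : MvPolynomial ℕ ℤ) (hs : ∀ i, k ≤ i → sw i s = s) :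
    CC r k (s * f) = s * CC r k f := by
  induction r generalizing k f with
  | zero => rfl
  | succ r ih =>
    show CC r (k + 1) (ddo k (s * f)) = s * CC r (k + 1) (ddo k f)
    rw [ddo_sym k s f (hs k le_rfl), ih (k + 1) _ (fun i hi => hs i (by omega))]

theorem CC_NN (r k : ℕ) (h : k + r < M) (f : MvPolynomial ℕ ℤ) (hf : f ∈ NN M) : CC r k f ∈ NN M := by
  induction r generalizing k f with
  | zero => exact hf
  | succ r ih => exact ih (k + 1) (by omega) _ (ddo_NN k (by omega) f hf)

/-- the ideal generated by symmetric polynomials without constant term -/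
def SI (M : ℕ) : Ideal (MvPolynomial ℕ ℤ) :=
  Ideal.span {s | (∀ i, i + 1 < M → sw i s = s) ∧ constantCoeff s = 0}

theorem SI_const {f : MvPolynomial ℕ ℤ} (hf : f ∈ SI M) : constantCoeff f = 0 := by
  have : SI M ≤ RingHom.ker (constantCoeff : MvPolynomial ℕ ℤ →+* ℤ) := by
    unfold SI
    rw [Ideal.span_le]
    rintro s ⟨_, hs⟩
    exact hs
  exact this hf

theorem SI_ddo (i : ℕ) (hi : i + 1 < M) {f : MvPolynomial ℕ ℤ} (hf : f ∈ SI M) : ddo i f ∈ SI M := by
  unfold SI at hf
  induction hf using Submodule.span_induction with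
  | mem s hs =>
    have h1 : ddo i s = s * ddo i 1 := by
      rw [← ddo_sym i s 1 (hs.1 i hi), mul_one]
    rw [h1]
    exact Ideal.mul_mem_right _ _ (Ideal.subset_span hs)
  | zero => rw [ddo_zero]; exact zero_mem _
  | add x y _ _ hx hy => rw [ddo_add]; exact add_mem hx hy
  | smul a x hx h =>
    rw [smul_eq_mul]
    -- write via an auxiliary induction on generators
    have gen : ∀ (a : MvPolynomial ℕ ℤ), ddo i (a * x) ∈ SI M := by
      intro a
      have e : ddo i (a * x) = ddo i a * x + sw i a * ddo i x := by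
        apply ddo_unique
        rw [mul_add, ← mul_assoc, ddo_spec, mul_left_comm, ddo_spec, map_mul]
        ring
      rw [e]
      refine add_mem (Ideal.mul_mem_left _ _ hx) (Ideal.mul_mem_left _ _ h)
    exact gen a

theorem SI_CC (r k : ℕ) (h : k + r < M) (f : MvPolynomial ℕ ℤ) (hf : f ∈ SI M) : CC r k f ∈ SI M := by
  induction r generalizing k f with
  | zero => exact hf
  | succ r ih => exact ih (k + 1) (by omega) _ (SI_ddo k (by omega) hf)

/-- auxiliary univariate polynomial -/
def Pk (k : ℕ) : Polynomial (MvPolynomial ℕ ℤ) :=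
  ∏ i ∈ Finset.range k, (Polynomial.X - Polynomial.C (X i))

/-- coefficient polynomials -/
def ck (M k e : ℕ) : MvPolynomial ℕ ℤ := (Polynomial.X ^ e * Pk k).coeff (M - 1)

theorem ck_succ (k e : ℕ) : ck M (k + 1) e = ck M k (e + 1) - X k * ck M k e := by
  unfold ck Pk
  rw [Finset.prod_range_succ]
  have h : (Polynomial.X ^ e * ((∏ i ∈ Finset.range k, (Polynomial.X - Polynomial.C (X i))) *
      (Polynomial.X - Polynomial.C (X k))) : Polynomial (MvPolynomial ℕ ℤ)) =
      Polynomial.X ^ (e + 1) * (∏ i ∈ Finset.range k, (Polynomial.X - Polynomial.C (X i))) -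
      Polynomial.C (X k) * (Polynomial.X ^ e *
        ∏ i ∈ Finset.range k, (Polynomial.X - Polynomial.C (X i))) := by ring
  rw [h, Polynomial.coeff_sub, Polynomial.coeff_C_mul]

theorem Pk_monic (k : ℕ) : (Pk k).Monic :=
  Polynomial.monic_prod_of_monic _ _ fun _ _ => Polynomial.monic_X_sub_C _

theorem Pk_natDegree (k : ℕ) : (Pk k).natDegree = k := by
  unfold Pk
  rw [Polynomial.natDegree_prod_of_monic _ _ fun _ _ => Polynomial.monic_X_sub_C _]
  simp

theorem ck_zero_lt (k : ℕ) (hk : k < M - 1) : ck M k 0 = 0 := by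
  unfold ck
  rw [pow_zero, one_mul]
  apply Polynomial.coeff_eq_zero_of_natDegree_lt
  rw [Pk_natDegree]; exact hk

theorem ck_zero_eq : ck M (M - 1) 0 = 1 := by
  unfold ck
  rw [pow_zero, one_mul]
  have h := (Pk_monic (M - 1)).coeff_natDegree
  rwa [Pk_natDegree] at h

theorem Pk_coeff_sym (k j i : ℕ) (hi : i + 1 < k) : sw i ((Pk k).coeff j) = (Pk k).coeff j := by
  have h : (Pk k).map (sw i : MvPolynomial ℕ ℤ →+* MvPolynomial ℕ ℤ) = Pk k := by
    unfold Pk
    rw [Polynomial.map_prod]
    refine Finset.prod_bij (fun j _ => Equiv.swap i (i + 1) j) ?_ ?_ ?_ ?_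
    · intro j hj
      rw [Finset.mem_range] at hj ⊢
      rw [Equiv.swap_apply_def]
      split_ifs <;> omega
    · intro a _ b _ hab
      exact (Equiv.swap i (i + 1)).injective hab
    · intro j hj
      rw [Finset.mem_range] at hj
      refine ⟨Equiv.swap i (i + 1) j, ?_, by simp⟩
      rw [Finset.mem_range, Equiv.swap_apply_def]
      split_ifs <;> omega
    · intro j _
      rw [Polynomial.map_sub, Polynomial.map_X, Polynomial.map_C]
      congr 2
      exact rename_X _ _
  have h2 := congrArg (fun p => p.coeff j) h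
  simp only [Polynomial.coeff_map] at h2
  exact h2

theorem Pk_coeff_const (k j : ℕ) (hj : j < k) : constantCoeff ((Pk k).coeff j) = 0 := by
  have h : (Pk k).map (constantCoeff : MvPolynomial ℕ ℤ →+* ℤ) = Polynomial.X ^ k := by
    unfold Pk
    rw [Polynomial.map_prod]
    have : ∀ i ∈ Finset.range k, (Polynomial.X - Polynomial.C (X i : MvPolynomial ℕ ℤ)).map
      (constantCoeff : MvPolynomial ℕ ℤ →+* ℤ) = Polynomial.X := by
      intro i _
      rw [Polynomial.map_sub, Polynomial.map_X, Polynomial.map_C, constantCoeff_X, Polynomial.C_0,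
        sub_zero]
    rw [Finset.prod_congr rfl this, Finset.prod_const, Finset.card_range]
  have h2 := congrArg (fun p => p.coeff j) h
  simp only [Polynomial.coeff_map] at h2
  rw [h2, Polynomial.coeff_X_pow, if_neg hj.ne]

theorem ck_top (hM : 0 < M) (e : ℕ) : ck M M e ∈ SI M := by
  unfold ck
  rw [Polynomial.coeff_X_pow_mul']
  split_ifs with h
  · apply Ideal.subset_span
    exact ⟨fun i hi => Pk_coeff_sym M _ i hi, Pk_coeff_const M _ (by omega)⟩
  · exact zero_mem _

theorem ck_last (hM : 0 < M) (e : ℕ) : X (M - 1) ^ e - ck M (M - 1) e ∈ SI M := by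
  induction e with
  | zero => rw [pow_zero, ck_zero_eq, sub_self]; exact zero_mem _
  | succ e ih =>
    have h1 := ck_succ (M := M) (M - 1) e
    rw [show M - 1 + 1 = M by omega] at h1
    have h2 : X (M - 1) ^ (e + 1) - ck M (M - 1) (e + 1) =
        X (M - 1) * (X (M - 1) ^ e - ck M (M - 1) e) - ck M M e := by
      rw [h1]; ring
    rw [h2]
    exact sub_mem (Ideal.mul_mem_left _ _ ih) (ck_top hM e)

theorem ck_rec (k : ℕ) (hk : k < M - 1) (e : ℕ) :
    ck M k e = ∑ j ∈ Finset.range e, X k ^ j * ck M (k + 1) (e - 1 - j) := by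
  induction e with
  | zero => rw [Finset.sum_range_zero, ck_zero_lt k hk]
  | succ e ih =>
    rw [Finset.sum_range_succ', pow_zero, one_mul]
    have h1 := ck_succ (M := M) k e
    have h2 : ∑ j ∈ Finset.range e, X k ^ (j + 1) * ck M (k + 1) (e + 1 - 1 - (j + 1)) =
        X k * ck M k e := by
      rw [ih, Finset.mul_sum]
      refine Finset.sum_congr rfl fun j _ => ?_
      rw [pow_succ, show e + 1 - 1 - (j + 1) = e - 1 - j by omega]
      ring
    rw [h2, show e + 1 - 1 - 0 = e by omega, h1]
    ring

theorem ddo_pow (k e : ℕ) :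
    ddo k (X k ^ e) = ∑ j ∈ Finset.range e, X k ^ j * X (k + 1) ^ (e - 1 - j) := by
  apply ddo_unique
  rw [map_pow, sw_X_left, mul_comm]
  exact geom_sum₂_mul _ _ _

theorem CC_pow (r k : ℕ) (hk : k + r = M - 1) (hM : 0 < M) (e : ℕ) :
    CC r k (X k ^ e) - ck M k e ∈ SI M := by
  induction r generalizing k e with
  | zero =>
    show X k ^ e - ck M k e ∈ SI M
    rw [add_zero] at hk
    rw [hk]
    exact ck_last hM e
  | succ r ih =>
    show CC r (k + 1) (ddo k (X k ^ e)) - ck M k e ∈ SI M
    rw [ddo_pow, CC_sum, ck_rec k (by omega), ← Finset.sum_sub_distrib]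
    refine sum_mem fun j _ => ?_
    rw [CC_sym]
    · rw [← mul_sub]
      exact Ideal.mul_mem_left _ _ (ih (k + 1) (by omega) _)
    · intro i hi
      rw [map_pow, sw_X_ne i k (by omega) (by omega)]

/-- the full chain -/
def ch (M : ℕ) : ℕ → MvPolynomial ℕ ℤ → MvPolynomial ℕ ℤ
  | 0, f => f
  | n + 1, f => ch M n (CC (M - 1 - n) n f)

theorem ch_add (n : ℕ) (f g : MvPolynomial ℕ ℤ) : ch M n (f + g) = ch M n f + ch M n g := by
  induction n generalizing f g with
  | zero => rfl
  | succ n ih =>
    show ch M n (CC (M - 1 - n) n (f + g)) = ch M n (CC (M - 1 - n) n f) + ch M n (CC (M - 1 - n) n g)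
    rw [CC_add, ih]

theorem ch_NN (n : ℕ) (h : n ≤ M) (f : MvPolynomial ℕ ℤ) (hf : f ∈ NN M) : ch M n f ∈ NN M := by
  induction n generalizing f with
  | zero => exact hf
  | succ n ih => exact ih (by omega) _ (CC_NN _ _ (by omega) _ hf)

theorem ch_SI (n : ℕ) (h : n ≤ M) (f : MvPolynomial ℕ ℤ) (hf : f ∈ SI M) : ch M n f ∈ SI M := by
  induction n generalizing f with
  | zero => exact hf
  | succ n ih => exact ih (by omega) _ (SI_CC _ _ (by omega) _ hf)

/-- polynomials in the first `n` variables -/
def Sn (n : ℕ) : Subalgebra ℤ (MvPolynomial ℕ ℤ) := Algebra.adjoin ℤ {p | ∃ i, i < n ∧ p = X i}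

theorem X_mem_Sn (n i : ℕ) (h : i < n) : (X i : MvPolynomial ℕ ℤ) ∈ Sn n :=
  Algebra.subset_adjoin ⟨i, h, rfl⟩

theorem Sn_sw (n i : ℕ) (hi : n ≤ i) (f : MvPolynomial ℕ ℤ) (hf : f ∈ Sn n) : sw i f = f := by
  unfold Sn at hf
  induction hf using Algebra.adjoin_induction with
  | mem x hx =>
    obtain ⟨j, hj, rfl⟩ := hx
    exact sw_X_ne i j (by omega) (by omega)
  | algebraMap r => exact AlgHom.commutes _ r
  | add x y _ _ hx hy => rw [map_add, hx, hy]
  | mul x y _ _ hx hy => rw [map_mul, hx, hy]

theorem Sn_coeff (n : ℕ) (f : MvPolynomial ℕ ℤ) (hf : f ∈ Sn n) (m : ℕ →₀ ℕ) (hm : m n ≠ 0) :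
    coeff m f = 0 := by
  unfold Sn at hf
  induction hf using Algebra.adjoin_induction generalizing m with
  | mem x hx =>
    obtain ⟨j, hj, rfl⟩ := hx
    rw [coeff_X, if_neg]
    rintro rfl
    rw [Finsupp.single_apply, if_neg (by omega)] at hm
    exact hm rfl
  | algebraMap r =>
    rw [algebraMap_eq, coeff_C, if_neg]
    rintro rfl
    exact hm rfl
  | add x y _ _ hx hy => rw [coeff_add, hx m hm, hy m hm, add_zero]
  | mul x y _ _ hx hy =>
    rw [coeff_mul]
    refine Finset.sum_eq_zero fun p hp => ?_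
    rw [Finset.HasAntidiagonal.mem_antidiagonal] at hp
    by_cases h : p.1 n = 0
    · have : p.2 n ≠ 0 := by
        intro h2
        apply hm
        rw [← hp, Finsupp.add_apply, h, h2]
      rw [hy _ this, mul_zero]
    · rw [hx _ h, zero_mul]

theorem Sn_poly (n : ℕ) (f : MvPolynomial ℕ ℤ) (hf : f ∈ Sn (n + 1)) :
    ∃ p : Polynomial (MvPolynomial ℕ ℤ), (∀ j, p.coeff j ∈ Sn n) ∧ f = p.eval (X n) := by
  unfold Sn at hf
  induction hf using Algebra.adjoin_induction with
  | mem x hx =>
    obtain ⟨i, hi, rfl⟩ := hx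
    by_cases h : i = n
    · subst h
      refine ⟨Polynomial.X, fun j => ?_, by simp⟩
      rw [Polynomial.coeff_X]
      split_ifs
      · exact one_mem _
      · exact zero_mem _
    · refine ⟨Polynomial.C (X i), fun j => ?_, by simp⟩
      rw [Polynomial.coeff_C]
      split_ifs
      · exact X_mem_Sn n i (by omega)
      · exact zero_mem _
  | algebraMap r =>
    refine ⟨Polynomial.C (algebraMap _ _ r), fun j => ?_, by simp⟩
    rw [Polynomial.coeff_C]
    split_ifs
    · exact Subalgebra.algebraMap_mem _ _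
    · exact zero_mem _
  | add x y _ _ hx hy =>
    obtain ⟨p, hp, rfl⟩ := hx
    obtain ⟨q, hq, rfl⟩ := hy
    exact ⟨p + q, fun j => by rw [Polynomial.coeff_add]; exact add_mem (hp j) (hq j), by simp⟩
  | mul x y _ _ hx hy =>
    obtain ⟨p, hp, rfl⟩ := hx
    obtain ⟨q, hq, rfl⟩ := hy
    exact ⟨p * q, fun j => by
      rw [Polynomial.coeff_mul]
      exact sum_mem fun x _ => mul_mem (hp _) (hq _), by simp⟩

theorem coeff_mul_Xpow (n : ℕ) (A : MvPolynomial ℕ ℤ) (hA : A ∈ Sn n) (μ : ℕ →₀ ℕ) (hμ : μ n = 0)
    (j m : ℕ) : coeff (μ + Finsupp.single n m) (A * X n ^ j) = if j = m then coeff μ A else 0 := by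
  rw [X_pow_eq_monomial, coeff_mul_monomial', mul_one]
  split_ifs with h1 h2 h2
  · subst h2
    congr 1
    ext x
    simp
  · rw [Finsupp.single_le_iff] at h1
    rw [Finsupp.add_apply, Finsupp.single_eq_same, hμ, zero_add] at h1
    apply Sn_coeff n A hA
    rw [Finsupp.tsub_apply, Finsupp.add_apply, Finsupp.single_eq_same, Finsupp.single_eq_same, hμ]
    omega
  · exfalso
    apply h1
    rw [Finsupp.single_le_iff, Finsupp.add_apply, Finsupp.single_eq_same, hμ]
    omega
  · rfl

/-- Vandermonde-type product -/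
def Dl (n : ℕ) : MvPolynomial ℕ ℤ := ∏ j ∈ Finset.range n, ∏ i ∈ Finset.range j, (X j - X i)

theorem Dl_mem (n : ℕ) : Dl n ∈ Sn n := by
  unfold Dl
  refine prod_mem fun j hj => prod_mem fun i hi => ?_
  rw [Finset.mem_range] at hj hi
  exact sub_mem (X_mem_Sn n j hj) (X_mem_Sn n i (by omega))

/-- constant exponent -/
def mu (n : ℕ) (b : ℕ → ℕ) : ℕ →₀ ℕ := ∑ i ∈ Finset.range n, Finsupp.single i (b i)

theorem mu_succ (n : ℕ) (b : ℕ → ℕ) : mu (n + 1) b = mu n b + Finsupp.single n (b n) :=
  Finset.sum_range_succ _ _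

theorem mu_apply (n : ℕ) (b : ℕ → ℕ) (i : ℕ) : mu n b i = if i < n then b i else 0 := by
  unfold mu
  rw [Finsupp.finsetSum_apply]
  split_ifs with h
  · rw [Finset.sum_eq_single i]
    · rw [Finsupp.single_eq_same]
    · intro j _ hj
      rw [Finsupp.single_apply, if_neg hj]
    · intro h'
      exact absurd (Finset.mem_range.mpr h) h'
  · refine Finset.sum_eq_zero fun j hj => ?_
    rw [Finset.mem_range] at hj
    rw [Finsupp.single_apply, if_neg (by omega)]

theorem ch_formula (n : ℕ) (hn : n ≤ M) (hM : 0 < M) (P : MvPolynomial ℕ ℤ) (hP : P ∈ Sn n) :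
    constantCoeff (ch M n P) = coeff (mu n fun _ => M - 1) (P * Dl n) := by
  induction n generalizing P with
  | zero =>
    unfold Dl mu
    simp only [Finset.prod_range_zero, Finset.sum_range_zero, mul_one]
    rfl
  | succ n ih =>
    obtain ⟨p, hp, rfl⟩ := Sn_poly n P hP
    rw [Polynomial.eval_eq_sum_range]
    have gen : ∀ (s : Finset ℕ), constantCoeff (ch M (n + 1) (∑ i ∈ s, p.coeff i * X n ^ i)) =
        coeff (mu (n + 1) fun _ => M - 1) ((∑ i ∈ s, p.coeff i * X n ^ i) * Dl (n + 1)) := by
      intro s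
      induction s using Finset.induction_on with
      | empty =>
        rw [Finset.sum_empty, zero_mul, coeff_zero]
        have : ch M (n + 1) 0 = 0 := by
          have := ch_add (M := M) (n + 1) 0 0
          rw [add_zero] at this
          exact left_eq_add.mp this
        rw [this, map_zero]
      | insert e s hs ihs =>
        rw [Finset.sum_insert hs, ch_add, map_add, add_mul, coeff_add, ihs]
        congr 1
        set Q := p.coeff e with hQ
        have hQ' : Q ∈ Sn n := hp e
        have h1 : ch M (n + 1) (Q * X n ^ e) = ch M n (Q * ck M n e) +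
            ch M n (Q * (CC (M - 1 - n) n (X n ^ e) - ck M n e)) := by
          rw [← ch_add, ← mul_add]
          show ch M n (CC (M - 1 - n) n (Q * X n ^ e)) = _
          rw [CC_sym _ _ _ _ (fun i hi => Sn_sw n i hi Q hQ')]
          congr 2
          ring
        have h2 : constantCoeff (ch M n (Q * (CC (M - 1 - n) n (X n ^ e) - ck M n e))) = 0 := by
          apply SI_const (M := M)
          apply ch_SI n (by omega)
          exact Ideal.mul_mem_left _ _ (CC_pow _ _ (by omega) hM e)
        have hPk : ∀ j, (Pk n).coeff j ∈ Sn n := by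
          have : ∀ m, m ≤ n → ∀ j, (Pk m).coeff j ∈ Sn n := by
            intro m hm
            induction m with
            | zero =>
              intro j
              unfold Pk
              rw [Finset.prod_range_zero, Polynomial.coeff_one]
              split_ifs
              · exact one_mem _
              · exact zero_mem _
            | succ m ihm =>
              intro j
              unfold Pk
              rw [Finset.prod_range_succ, mul_sub, Polynomial.coeff_sub, Polynomial.coeff_mul_C]
              refine sub_mem ?_ (mul_mem (ihm (by omega) j) (X_mem_Sn n m (by omega)))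
              rcases j with _ | j
              · rw [Polynomial.coeff_mul_X_zero]; exact zero_mem _
              · rw [Polynomial.coeff_mul_X]; exact ihm (by omega) j
          exact this n le_rfl
        have hr : ∀ j, (Polynomial.X ^ e * Pk n).coeff j ∈ Sn n := by
          intro j
          rw [Polynomial.coeff_X_pow_mul']
          split_ifs
          · exact hPk _
          · exact zero_mem _
        have h8 := ih (by omega) (Q * ck M n e) (mul_mem hQ' (hr (M - 1)))
        rw [h1, map_add, h2, add_zero, h8]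
        have h3 : Q * X n ^ e * Dl (n + 1) = ∑ j ∈ Finset.range ((Polynomial.X ^ e * Pk n).natDegree + 1),
            (Q * Dl n * (Polynomial.X ^ e * Pk n).coeff j) * X n ^ j := by
          have h4 : X n ^ e * ∏ i ∈ Finset.range n, (X n - X i) =
              (Polynomial.X ^ e * Pk n).eval (X n : MvPolynomial ℕ ℤ) := by
            unfold Pk
            rw [Polynomial.eval_mul, Polynomial.eval_pow, Polynomial.eval_X, Polynomial.eval_prod]
            simp
          have h5 : Dl (n + 1) = Dl n * ∏ i ∈ Finset.range n, (X n - X i) :=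
            Finset.prod_range_succ _ _
          rw [h5]
          calc Q * X n ^ e * (Dl n * ∏ i ∈ Finset.range n, (X n - X i))
              = (Q * Dl n) * (X n ^ e * ∏ i ∈ Finset.range n, (X n - X i)) := by ring
            _ = _ := by
                rw [h4, Polynomial.eval_eq_sum_range, Finset.mul_sum]
                exact Finset.sum_congr rfl fun j _ => by ring
        rw [h3, coeff_sum, mu_succ]
        have h6 : ∀ j, coeff ((mu n fun _ => M - 1) + Finsupp.single n (M - 1))
            ((Q * Dl n * (Polynomial.X ^ e * Pk n).coeff j) * X n ^ j) =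
            if j = M - 1 then coeff (mu n fun _ => M - 1)
              (Q * Dl n * (Polynomial.X ^ e * Pk n).coeff j) else 0 := by
          intro j
          apply coeff_mul_Xpow
          · exact mul_mem (mul_mem hQ' (Dl_mem n)) (hr j)
          · rw [mu_apply, if_neg (by omega)]
        rw [Finset.sum_congr rfl fun j _ => h6 j, Finset.sum_ite_eq']
        split_ifs with h7
        · unfold ck
          congr 1
          ring
        · unfold ck
          rw [Polynomial.coeff_eq_zero_of_natDegree_lt (by rw [Finset.mem_range] at h7; omega)]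
          simp
    exact gen _

theorem prod_X_eq (n : ℕ) (b : ℕ → ℕ) :
    ∏ i ∈ Finset.range n, (X i : MvPolynomial ℕ ℤ) ^ b i = monomial (mu n b) 1 := by
  induction n with
  | zero => rfl
  | succ n ih => rw [Finset.prod_range_succ, ih, mu_succ, X_pow_eq_monomial, monomial_mul, mul_one]

/-- positivity of the twisted coefficients -/
theorem coeff_nonneg (n : ℕ) (hn : n < M) (F : MvPolynomial ℕ ℤ) (hF : F ∈ NN M) (hF' : F ∈ Sn n)
    (b : ℕ → ℕ) (hb : ∀ i j, i ≤ j → j < n → b i ≤ b j) (hbM : ∀ i, i < n → b i < M) :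
    0 ≤ coeff (mu n b) (F * Dl n) := by
  set H : MvPolynomial ℕ ℤ := ∏ i ∈ Finset.range n, (X i : MvPolynomial ℕ ℤ) ^ (M - 1 - b i) with hH
  have hHN : H ∈ NN M := dom_NN n hn _ (fun i j hij hj => by
    have := hb i j hij hj
    omega)
  have hHS : H ∈ Sn n := by
    refine prod_mem fun i hi => pow_mem (X_mem_Sn n i (Finset.mem_range.mp hi)) _
  have h1 := NN_const (ch_NN n hn.le _ (NN_mul hF hHN))
  rw [ch_formula n hn.le (by omega) _ (mul_mem hF' hHS)] at h1
  have h2 : F * H * Dl n = F * Dl n * H := by ring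
  have h3 : mu n (fun _ => M - 1) = mu n b + mu n (fun i => M - 1 - b i) := by
    ext i
    rw [Finsupp.add_apply, mu_apply, mu_apply, mu_apply]
    split_ifs with h
    · have := hbM i h
      omega
    · rfl
  rw [h2, h3, hH, prod_X_eq, coeff_mul_monomial, mul_one] at h1
  exact h1

end

end Pool.Agent.E8helper44
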