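import Mathlib

set_option autoImplicit false

open Matrix
open scoped ComplexOrder MatrixOrder

namespace Pool.Agent.E8helper44

theorem decomp {V : Type*} [AddCommGroup V] [Module ℝ V] [Module.Finite ℝ V]
    (B : LinearMap.BilinForm ℝ V)
    (hs : ∀ x y, B x y = B y x) (hp : ∀ x, B x x = 0 → x = 0)
    (E F : V →ₗ[ℝ] V) (adj : ∀ x y, B (E x) y = B x (F y)) (W : Submodule ℝ V)
    (hE : ∀ x ∈ W, E x ∈ W) (hF : ∀ x ∈ W, F x ∈ W) (x : V) (hx : x ∈ W) :
    ∃ y ∈ W, E y = 0 ∧ F y = 0 ∧ ∃ a ∈ W, ∃ b ∈ W, x = y + E a + F b := by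
  set R : Submodule ℝ V := W.map E ⊔ W.map F with hR
  have hRW : R ≤ W := by
    rw [hR, sup_le_iff]
    constructor
    · rintro _ ⟨a, ha, rfl⟩; exact hE a ha
    · rintro _ ⟨a, ha, rfl⟩; exact hF a ha
  have hc : IsCompl R (B.orthogonal R) := by
    apply LinearMap.BilinForm.isCompl_orthogonal_of_restrict_nondegenerate
    · intro u v huv
      rw [← hs]; exact huv
    · constructor
      · intro u hu
        have := hu u
        apply Subtype.ext
        exact hp _ this
      · intro u hu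
        have := hu u
        apply Subtype.ext
        exact hp _ this
  have hx' : x ∈ R ⊔ B.orthogonal R := by
    rw [hc.sup_eq_top]; trivial
  obtain ⟨r, hr, y, hy, hry⟩ := Submodule.mem_sup.mp hx'
  have hyW : y ∈ W := by
    have : y = x - r := by rw [← hry]; abel
    rw [this]
    exact W.sub_mem hx (hRW hr)
  obtain ⟨_, ⟨a, ha, rfl⟩, _, ⟨b, hb, rfl⟩, hab⟩ := Submodule.mem_sup.mp hr
  refine ⟨y, hyW, ?_, ?_, a, ha, b, hb, ?_⟩
  · apply hp
    rw [adj, hs]
    refine hy _ ?_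
    exact Submodule.mem_sup_right ⟨_, hE y hyW, rfl⟩
  · apply hp
    rw [← adj]
    refine hy _ ?_
    exact Submodule.mem_sup_left ⟨_, hF y hyW, rfl⟩
  · rw [← hry, ← hab]; abel

theorem trivial_inter {V : Type*} [AddCommGroup V] [Module ℝ V]
    (B : LinearMap.BilinForm ℝ V)
    (hs : ∀ x y, B x y = B y x) (hp : ∀ x, B x x = 0 → x = 0)
    (E F : V →ₗ[ℝ] V) (adj : ∀ x y, B (E x) y = B x (F y)) (x a b : V) (hx : x = E a + F b)
    (hE : E x = 0) (hF : F x = 0) : x = 0 := by
  apply hp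
  have h : B x x = B (E a + F b) x := by rw [← hx]
  rw [h, map_add, LinearMap.add_apply, adj, hF, hs (F b), ← adj, hE]
  simp

theorem trace_mul_nonneg' {n : Type*} [Fintype n] [DecidableEq n] (N T : Matrix n n ℝ)
    (hN : N.PosSemidef) (hT : T.PosSemidef) : 0 ≤ (N * T).trace := by
  obtain ⟨m, v, hv⟩ := (Matrix.posSemidef_iff_eq_sum_vecMulVec (𝕜 := ℝ)).mp hT
  rw [hv, Matrix.mul_sum, Matrix.trace_sum]
  refine Finset.sum_nonneg fun i _ => ?_
  rw [Matrix.mul_vecMulVec, Matrix.trace_vecMulVec, dotProduct_comm]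
  exact (Matrix.posSemidef_iff_dotProduct_mulVec.mp hN).2 (v i)

theorem ce_matrix {n : Type*} [Fintype n] [DecidableEq n] (E T : Matrix n n ℝ)
    (hT : T.PosSemidef) :
    ∃ T' A B : Matrix n n ℝ, T'.PosSemidef ∧ E * T' = T' * E ∧ Eᵀ * T' = T' * Eᵀ ∧
      T = T' + (E * A - A * E) + (Eᵀ * B - B * Eᵀ) := by
  let bf : LinearMap.BilinForm ℝ (Matrix n n ℝ) :=
    LinearMap.mk₂ ℝ (fun X Y => (Xᵀ * Y).trace)
      (by intro x y z; simp [Matrix.add_mul])
      (by intro c x y; simp)
      (by intro x y z; simp [Matrix.mul_add])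
      (by intro c x y; simp)
  have bfa : ∀ X Y, bf X Y = (Xᵀ * Y).trace := fun X Y => rfl
  let ad : Matrix n n ℝ → (Matrix n n ℝ →ₗ[ℝ] Matrix n n ℝ) := fun G =>
    LinearMap.mulLeft ℝ G - LinearMap.mulRight ℝ G
  have ada : ∀ G X, ad G X = G * X - X * G := fun G X => rfl
  obtain ⟨Y, -, hY1, hY2, A, -, B, -, hAB⟩ := decomp bf
    (by intro X Y
        rw [bfa, bfa, ← Matrix.trace_transpose, Matrix.transpose_mul, Matrix.transpose_transpose])
    (by intro X hX
        rw [bfa] at hX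
        have h1 : (Xᴴ * X).trace = 0 := by
          rw [Matrix.conjTranspose_eq_transpose_of_trivial]; exact hX
        exact (Matrix.trace_conjTranspose_mul_self_eq_zero_iff).mp h1)
    (ad E) (ad Eᵀ)
    (by intro X Y
        rw [bfa, bfa, ada, ada, Matrix.transpose_sub, Matrix.transpose_mul, Matrix.transpose_mul,
          Matrix.sub_mul, Matrix.mul_sub, Matrix.trace_sub, Matrix.trace_sub,
          Matrix.mul_assoc, Matrix.mul_assoc Eᵀ Xᵀ Y, Matrix.trace_mul_comm Eᵀ, Matrix.mul_assoc])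
    ⊤ (fun _ _ => trivial) (fun _ _ => trivial) T trivial
  rw [ada] at hY1 hY2
  rw [ada, ada] at hAB
  have hTt : Tᵀ = T := by
    have := hT.1
    rwa [Matrix.IsHermitian, Matrix.conjTranspose_eq_transpose_of_trivial] at this
  set T' : Matrix n n ℝ := (1/2 : ℝ) • (Y + Yᵀ) with hT'
  have hY1' : E * Yᵀ - Yᵀ * E = 0 := by
    have := congrArg Matrix.transpose hY2
    rw [Matrix.transpose_sub, Matrix.transpose_mul, Matrix.transpose_mul,
      Matrix.transpose_transpose, Matrix.transpose_zero] at this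
    rw [← neg_sub, this, neg_zero]
  have hY2' : Eᵀ * Yᵀ - Yᵀ * Eᵀ = 0 := by
    have := congrArg Matrix.transpose hY1
    rw [Matrix.transpose_sub, Matrix.transpose_mul, Matrix.transpose_mul,
      Matrix.transpose_zero] at this
    rw [← neg_sub, this, neg_zero]
  have c1 : E * T' = T' * E := by
    rw [hT', Matrix.mul_smul, Matrix.smul_mul, Matrix.mul_add, Matrix.add_mul, sub_eq_zero.mp hY1,
      sub_eq_zero.mp hY1']
  have c2 : Eᵀ * T' = T' * Eᵀ := by
    rw [hT', Matrix.mul_smul, Matrix.smul_mul, Matrix.mul_add, Matrix.add_mul, sub_eq_zero.mp hY2,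
      sub_eq_zero.mp hY2']
  have hT't : T'ᵀ = T' := by
    rw [hT', Matrix.transpose_smul, Matrix.transpose_add, Matrix.transpose_transpose, add_comm]
  have hdec : T = T' + (E * ((1/2 : ℝ) • (A - Bᵀ)) - ((1/2 : ℝ) • (A - Bᵀ)) * E) +
      (Eᵀ * ((1/2 : ℝ) • (B - Aᵀ)) - ((1/2 : ℝ) • (B - Aᵀ)) * Eᵀ) := by
    have h1 : T = (1/2 : ℝ) • (T + Tᵀ) := by
      rw [hTt, ← two_smul ℝ T, smul_smul]; norm_num
    conv_lhs => rw [h1, hAB]
    simp only [Matrix.transpose_add, Matrix.transpose_sub, Matrix.transpose_mul,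
      Matrix.transpose_transpose, hT', Matrix.mul_smul, Matrix.smul_mul, Matrix.mul_sub,
      Matrix.sub_mul]
    module
  refine ⟨T', _, _, ?_, c1, c2, hdec⟩
  have hsa : IsSelfAdjoint T' := by
    rw [isSelfAdjoint_iff, Matrix.star_eq_conjTranspose,
      Matrix.conjTranspose_eq_transpose_of_trivial, hT't]
  set N : Matrix n n ℝ := cfc (fun x : ℝ => max (-x) 0) T' with hN
  set P : Matrix n n ℝ := cfc (fun x : ℝ => max x 0) T' with hP
  have hPN : T' = P - N := by
    rw [hN, hP, ← cfc_sub (fun x : ℝ => max x 0) (fun x : ℝ => max (-x) 0) T' (by fun_prop) (by fun_prop)]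
    conv_lhs => rw [← cfc_id' ℝ T']
    congr 1
    ext x
    rcases le_total 0 x with h | h
    · rw [max_eq_left h, max_eq_right (by linarith)]; ring
    · rw [max_eq_right h, max_eq_left (by linarith)]; ring
  have hNP : N * P = 0 := by
    rw [hN, hP, ← cfc_mul (fun x : ℝ => max (-x) 0) (fun x : ℝ => max x 0) T' (by fun_prop) (by fun_prop)]
    have : (fun x : ℝ => max (-x) 0 * max x 0) = fun _ => (0 : ℝ) := by
      ext x
      rcases le_total 0 x with h | h
      · rw [max_eq_right (show -x ≤ 0 by linarith), zero_mul]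
      · rw [max_eq_right h, mul_zero]
    rw [this]
    simp
  have hNpsd : N.PosSemidef := by
    rw [← Matrix.nonneg_iff_posSemidef, hN]
    exact cfc_nonneg (R := ℝ) (fun x _ => le_max_right _ _)
  have hPpsd : P.PosSemidef := by
    rw [← Matrix.nonneg_iff_posSemidef, hP]
    exact cfc_nonneg (R := ℝ) (fun x _ => le_max_right _ _)
  have d1 : N * E = E * N := (Commute.cfc_real (show Commute T' E from c1.symm) _).eq
  have d2 : N * Eᵀ = Eᵀ * N := (Commute.cfc_real (show Commute T' Eᵀ from c2.symm) _).eq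
  have tz : ∀ G X : Matrix n n ℝ, N * G = G * N → (N * (G * X - X * G)).trace = 0 := by
    intro G X h
    rw [Matrix.mul_sub, Matrix.trace_sub, ← Matrix.mul_assoc, ← Matrix.mul_assoc, h,
      Matrix.trace_mul_comm (N * X) G, Matrix.mul_assoc, sub_self]
  have t1 : (N * T).trace = (N * T').trace := by
    rw [hdec, Matrix.mul_add, Matrix.mul_add, Matrix.trace_add, Matrix.trace_add, tz _ _ d1,
      tz _ _ d2, add_zero, add_zero]
  have t2 : (N * T').trace = - (Nᴴ * N).trace := by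
    rw [hPN, Matrix.mul_sub, hNP, zero_sub, Matrix.trace_neg, hNpsd.1]
  have t3 : 0 ≤ (N * T).trace := trace_mul_nonneg' N T hNpsd hT
  have t4 : 0 ≤ (Nᴴ * N).trace := (Matrix.posSemidef_conjTranspose_mul_self N).trace_nonneg
  have t5 : (Nᴴ * N).trace = 0 := by linarith
  have hN0 : N = 0 := (Matrix.trace_conjTranspose_mul_self_eq_zero_iff).mp t5
  rw [hPN, hN0, sub_zero]
  exact hPpsd

end Pool.Agent.E8helper44
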