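import Pool.Agent.E8helper44.Der
import Pool.Agent.E8helper44.LinAlg

set_option autoImplicit false

open Matrix

namespace Pool.Agent.E8helper44

noncomputable section

variable {M : ℕ}

theorem exists_onb (U : Submodule ℝ (Lam M)) : ∃ (n : ℕ) (e : Fin n → Lam M), (∀ k, e k ∈ U) ∧
    (∀ k l, ip (e k) (e l) = if k = l then 1 else 0) ∧
    ∀ x ∈ U, x = ∑ k, ip (e k) x • e k := by
  have : Invertible (2 : ℝ) := invertibleOfNonzero two_ne_zero
  obtain ⟨v, hv⟩ := LinearMap.BilinForm.exists_orthogonal_basis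
    (B := LinearMap.BilinForm.restrict (ipB : LinearMap.BilinForm ℝ (Lam M)) U)
    (by
      constructor
      intro x y
      exact ip_symm _ _)
  have hv' : ∀ k l, k ≠ l → ip (v k : Lam M) (v l) = 0 := fun k l h => hv h
  have hpos : ∀ k, 0 < ip (v k : Lam M) (v k) := by
    intro k
    rcases (ip_self_nonneg (v k : Lam M)).lt_or_eq with h | h
    · exact h
    · exfalso
      have := eq_zero_of_ip_self _ h.symm
      exact v.ne_zero k (Subtype.ext this)
  set s : Fin (Module.finrank ℝ U) → ℝ := fun k => (Real.sqrt (ip (v k : Lam M) (v k)))⁻¹ with hs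
  have hss : ∀ k, s k * s k * ip (v k : Lam M) (v k) = 1 := by
    intro k
    rw [hs]
    simp only
    rw [← mul_inv, Real.mul_self_sqrt (hpos k).le]
    exact inv_mul_cancel₀ (hpos k).ne'
  refine ⟨_, fun k => s k • (v k : Lam M), fun k => U.smul_mem _ (v k).2, ?_, ?_⟩
  · intro k l
    rw [ip_smul_left, ip_smul_right]
    split_ifs with h
    · subst h
      rw [← mul_assoc, hss]
    · rw [hv' k l h, mul_zero, mul_zero]
  · intro x hx
    have h1 : x = ∑ k, (v.repr ⟨x, hx⟩ k) • (v k : Lam M) := by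
      calc x = ((∑ i, v.repr ⟨x, hx⟩ i • v i : U) : Lam M) := by rw [v.sum_repr]
        _ = _ := by push_cast; rfl
    have h2 : ∀ k, ip (v k : Lam M) x = v.repr ⟨x, hx⟩ k * ip (v k : Lam M) (v k) := by
      intro k
      conv_lhs => rw [h1]
      rw [ip_sum_right, Finset.sum_eq_single k]
      · rw [ip_smul_right]
      · intro l _ hl
        rw [ip_smul_right, hv' k l hl.symm, mul_zero]
      · intro h; exact absurd (Finset.mem_univ _) h
    conv_lhs => rw [h1]
    refine Finset.sum_congr rfl fun k _ => ?_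
    rw [ip_smul_left, h2, smul_smul]
    congr 1
    have := hss k
    calc v.repr ⟨x, hx⟩ k = v.repr ⟨x, hx⟩ k * (s k * s k * ip (v k : Lam M) (v k)) := by
          rw [this, mul_one]
      _ = _ := by ring

/-- The cone of sums of `x * tau x` with `x` in a subspace. -/
def coneOf (U : Submodule ℝ (Lam M)) : AddSubmonoid (Lam M) :=
  AddSubmonoid.closure {z | ∃ x ∈ U, z = x * tau x}

/-- quadratic expression from a matrix -/
def Psi {n : ℕ} (e : Fin n → Lam M) (T : Matrix (Fin n) (Fin n) ℝ) : Lam M :=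
  ∑ k, ∑ l, T k l • (e k * tau (e l))

theorem Psi_add {n : ℕ} (e : Fin n → Lam M) (S T : Matrix (Fin n) (Fin n) ℝ) :
    Psi e (S + T) = Psi e S + Psi e T := by
  unfold Psi
  rw [← Finset.sum_add_distrib]
  refine Finset.sum_congr rfl fun k _ => ?_
  rw [← Finset.sum_add_distrib]
  refine Finset.sum_congr rfl fun l _ => ?_
  rw [Matrix.add_apply, add_smul]

theorem Psi_zero {n : ℕ} (e : Fin n → Lam M) : Psi e 0 = 0 := by
  unfold Psi
  refine Finset.sum_eq_zero fun k _ => Finset.sum_eq_zero fun l _ => ?_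
  rw [Matrix.zero_apply, zero_smul]

theorem Psi_vec {n : ℕ} (e : Fin n → Lam M) (v : Fin n → ℝ) :
    Psi e (vecMulVec v v) = (∑ k, v k • e k) * tau (∑ k, v k • e k) := by
  unfold Psi
  rw [map_sum, Finset.sum_mul]
  refine Finset.sum_congr rfl fun k _ => ?_
  rw [Finset.mul_sum]
  refine Finset.sum_congr rfl fun l _ => ?_
  rw [vecMulVec_apply, map_smul, smul_mul_smul_comm]

theorem Psi_mem {n : ℕ} (U : Submodule ℝ (Lam M)) (e : Fin n → Lam M) (he : ∀ k, e k ∈ U)
    (T : Matrix (Fin n) (Fin n) ℝ) (hT : T.PosSemidef) : Psi e T ∈ coneOf U := by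
  obtain ⟨m, v, hv⟩ := (Matrix.posSemidef_iff_eq_sum_vecMulVec (𝕜 := ℝ)).mp hT
  have gen : ∀ s : Finset (Fin m), Psi e (∑ i ∈ s, vecMulVec (v i) (star (v i))) ∈ coneOf U := by
    intro s
    induction s using Finset.induction_on with
    | empty =>
      rw [Finset.sum_empty, Psi_zero]
      exact zero_mem _
    | insert i s hi ih =>
      rw [Finset.sum_insert hi, Psi_add]
      refine add_mem ?_ ih
      rw [show star (v i) = v i from rfl, Psi_vec]
      exact AddSubmonoid.subset_closure ⟨_, U.sum_mem fun k _ => U.smul_mem _ (he k), rfl⟩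
  rw [hv]
  exact gen _

theorem exists_Psi {n : ℕ} (U : Submodule ℝ (Lam M)) (e : Fin n → Lam M)
    (he : ∀ x ∈ U, x = ∑ k, ip (e k) x • e k) (z : Lam M) (hz : z ∈ coneOf U) :
    ∃ T : Matrix (Fin n) (Fin n) ℝ, T.PosSemidef ∧ z = Psi e T := by
  unfold coneOf at hz
  induction hz using AddSubmonoid.closure_induction with
  | mem z hz =>
    obtain ⟨x, hx, rfl⟩ := hz
    refine ⟨vecMulVec (fun k => ip (e k) x) (fun k => ip (e k) x), ?_, ?_⟩
    · exact (Matrix.posSemidef_iff_eq_sum_vecMulVec (𝕜 := ℝ)).mpr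
        ⟨1, fun _ k => ip (e k) x, by rw [Fin.sum_univ_one]; rfl⟩
    · rw [Psi_vec, ← he x hx]
  | zero => exact ⟨0, Matrix.PosSemidef.zero, (Psi_zero e).symm⟩
  | add x y _ _ hx hy =>
    obtain ⟨S, hS, rfl⟩ := hx
    obtain ⟨T, hT, rfl⟩ := hy
    exact ⟨S + T, hS.add hT, (Psi_add e S T).symm⟩

theorem lie_Psi {n : ℕ} (e : Fin n → Lam M) (p q : Fin M) (G : Matrix (Fin n) (Fin n) ℝ)
    (h1 : ∀ k, lie p q (e k) = ∑ m, G m k • e m) (h2 : ∀ l, lie q p (e l) = ∑ m, G l m • e m)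
    (T : Matrix (Fin n) (Fin n) ℝ) : lie p q (Psi e T) = Psi e (G * T - T * G) := by
  have e1 : lie p q (Psi e T) = (∑ k, ∑ l, ∑ m, (G m k * T k l) • (e m * tau (e l))) -
      ∑ k, ∑ l, ∑ m, (T k l * G l m) • (e k * tau (e m)) := by
    unfold Psi
    rw [map_sum, ← Finset.sum_sub_distrib]
    refine Finset.sum_congr rfl fun k _ => ?_
    rw [map_sum, ← Finset.sum_sub_distrib]
    refine Finset.sum_congr rfl fun l _ => ?_
    rw [map_smul, isDer_lie, lie_tau, h1, h2, smul_add, mul_neg, smul_neg, ← sub_eq_add_neg]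
    congr 1
    · rw [Finset.sum_mul, Finset.smul_sum]
      refine Finset.sum_congr rfl fun m _ => ?_
      rw [smul_mul_assoc, smul_smul, mul_comm]
    · rw [map_sum, Finset.mul_sum, Finset.smul_sum]
      refine Finset.sum_congr rfl fun m _ => ?_
      rw [map_smul, mul_smul_comm, smul_smul]
  have e2 : Psi e (G * T - T * G) = (∑ m, ∑ l, ∑ k, (G m k * T k l) • (e m * tau (e l))) -
      ∑ k, ∑ m, ∑ l, (T k l * G l m) • (e k * tau (e m)) := by
    unfold Psi
    rw [← Finset.sum_sub_distrib]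
    refine Finset.sum_congr rfl fun k _ => ?_
    rw [← Finset.sum_sub_distrib]
    refine Finset.sum_congr rfl fun l _ => ?_
    rw [Matrix.sub_apply, sub_smul, Matrix.mul_apply, Matrix.mul_apply, Finset.sum_smul,
      Finset.sum_smul]
  rw [e1, e2]
  congr 1
  · calc ∑ k, ∑ l, ∑ m, (G m k * T k l) • (e m * tau (e l))
        = ∑ l, ∑ k, ∑ m, (G m k * T k l) • (e m * tau (e l)) := Finset.sum_comm
      _ = ∑ l, ∑ m, ∑ k, (G m k * T k l) • (e m * tau (e l)) :=
          Finset.sum_congr rfl fun l _ => Finset.sum_comm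
      _ = ∑ m, ∑ l, ∑ k, (G m k * T k l) • (e m * tau (e l)) := Finset.sum_comm
  · refine Finset.sum_congr rfl fun k _ => ?_
    rw [Finset.sum_comm]

theorem ce_apply (U : Submodule ℝ (Lam M)) (a b : Fin M) (hE : ∀ x ∈ U, lie a b x ∈ U)
    (hF : ∀ x ∈ U, lie b a x ∈ U) (z : Lam M) (hz : z ∈ coneOf U) :
    ∃ z' ∈ coneOf U, lie a b z' = 0 ∧ lie b a z' = 0 ∧ ∃ u v, z = z' + lie a b u + lie b a v := by
  obtain ⟨n, e, heU, hon, hex⟩ := exists_onb U
  obtain ⟨T, hT, rfl⟩ := exists_Psi U e hex z hz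
  set G : Matrix (Fin n) (Fin n) ℝ := Matrix.of fun k l => ip (e k) (lie a b (e l)) with hG
  have g1 : ∀ k, lie a b (e k) = ∑ m, G m k • e m := fun k => hex _ (hE _ (heU k))
  have g2 : ∀ k, lie b a (e k) = ∑ m, G k m • e m := by
    intro k
    refine (hex _ (hF _ (heU k))).trans (Finset.sum_congr rfl fun m _ => ?_)
    rw [hG, Matrix.of_apply, ← ip_lie, ip_symm]
  obtain ⟨T', A, B, hT', c1, c2, hdec⟩ := ce_matrix G T hT
  have L1 := lie_Psi e a b G g1 g2
  have L2 := lie_Psi e b a Gᵀ g2 g1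
  refine ⟨Psi e T', Psi_mem U e heU T' hT', ?_, ?_, Psi e A, Psi e B, ?_⟩
  · rw [L1, c1, sub_self, Psi_zero]
  · rw [L2, c2, sub_self, Psi_zero]
  · rw [L1, L2, ← Psi_add, ← Psi_add, ← hdec]

end

end Pool.Agent.E8helper44
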