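import Pool.Agent.E8helper44.Ext

set_option autoImplicit false

namespace Pool.Agent.E8helper44

noncomputable section

variable {M : ℕ}

/-- derivations -/
def IsDer (D : Lam M →ₗ[ℝ] Lam M) : Prop := ∀ x y, D (x * y) = D x * y + x * D y

/-- odd antiderivations -/
structure IsADer (D : Lam M →ₗ[ℝ] Lam M) : Prop where
  mul : ∀ x y, D (x * y) = D x * y + sg x * D y
  odd : ∀ x, sg (D x) = - D (sg x)

theorem IsDer.one {D : Lam M →ₗ[ℝ] Lam M} (h : IsDer D) : D 1 = 0 := by
  have := h 1 1
  rw [mul_one, mul_one, one_mul] at this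
  exact left_eq_add.mp this

theorem IsADer.one {D : Lam M →ₗ[ℝ] Lam M} (h : IsADer D) : D 1 = 0 := by
  have := h.mul 1 1
  rw [mul_one, mul_one, map_one sg, one_mul] at this
  exact left_eq_add.mp this

theorem IsDer.ext {D D' : Lam M →ₗ[ℝ] Lam M} (h : IsDer D) (h' : IsDer D')
    (e : ∀ a b, D (th a b) = D' (th a b)) (x : Lam M) : D x = D' x := by
  induction x using lam_induction with
  | h1 => rw [h.one, h'.one]
  | hs r x hx => rw [map_smul, hx, map_smul]
  | ha x y hx hy => rw [map_add, hx, hy, map_add]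
  | hm a b x hx => rw [h, h', e, hx]

theorem IsADer.ext {D D' : Lam M →ₗ[ℝ] Lam M} (h : IsADer D) (h' : IsADer D')
    (e : ∀ a b, D (th a b) = D' (th a b)) (x : Lam M) : D x = D' x := by
  induction x using lam_induction with
  | h1 => rw [h.one, h'.one]
  | hs r x hx => rw [map_smul, hx, map_smul]
  | ha x y hx hy => rw [map_add, hx, hy, map_add]
  | hm a b x hx => rw [h.mul, h'.mul, e, hx]

theorem even_comm {c : Lam M} (hc : sg c = c) (x : Lam M) : c * x = x * c := by
  induction x using lam_induction with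
  | h1 => rw [mul_one, one_mul]
  | hs r x hx => rw [mul_smul_comm, hx, smul_mul_assoc]
  | ha x y hx hy => rw [mul_add, hx, hy, add_mul]
  | hm a b x hx => rw [← mul_assoc, ← hc, ← th_mul_comm_sg, hc, mul_assoc, hx, mul_assoc]

theorem odd_comm {c : Lam M} (hc : sg c = - c) (x : Lam M) : c * x = sg x * c := by
  induction x using lam_induction with
  | h1 => rw [mul_one, map_one, one_mul]
  | hs r x hx => rw [mul_smul_comm, hx, map_smul, smul_mul_assoc]
  | ha x y hx hy => rw [mul_add, hx, hy, map_add, add_mul]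
  | hm a b x hx =>
    have h1 : c * th a b = - (th a b * c) := by
      rw [th_mul_comm_sg, hc]; noncomm_ring
    rw [← mul_assoc, h1, map_mul, sg_th, neg_mul, mul_assoc, hx]
    noncomm_ring

/-- the differential of generators -/
def dth (a b : Fin M) : Lam M := - ∑ c, th a c * th c b

theorem sg_dth (a b : Fin M) : sg (dth a b) = dth a b := by
  unfold dth
  rw [map_neg, map_sum]
  congr 1
  refine Finset.sum_congr rfl fun c _ => ?_
  rw [map_mul, sg_th, sg_th, neg_mul_neg]

/-- the differential -/
def dd : Lam M →ₗ[ℝ] Lam M :=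
  ∑ a, ∑ b, (LinearMap.mulLeft ℝ (dth a b)) ∘ₗ ct a b

theorem dd_apply (x : Lam M) : dd x = ∑ a, ∑ b, dth a b * ct a b x := by
  unfold dd
  rw [LinearMap.sum_apply]
  refine Finset.sum_congr rfl fun a _ => ?_
  rw [LinearMap.sum_apply]
  rfl

theorem isADer_ct (a b : Fin M) : IsADer (ct a b) := ⟨ct_mul a b, sg_ct a b⟩

theorem isADer_dd : IsADer (dd : Lam M →ₗ[ℝ] Lam M) := by
  constructor
  · intro x y
    rw [dd_apply, dd_apply, dd_apply, Finset.sum_mul, Finset.mul_sum, ← Finset.sum_add_distrib]
    refine Finset.sum_congr rfl fun a _ => ?_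
    rw [Finset.sum_mul, Finset.mul_sum, ← Finset.sum_add_distrib]
    refine Finset.sum_congr rfl fun b _ => ?_
    rw [ct_mul, mul_add, ← mul_assoc, ← mul_assoc, ← mul_assoc, even_comm (sg_dth a b) (sg x)]
  · intro x
    rw [dd_apply, dd_apply, map_sum, ← Finset.sum_neg_distrib]
    refine Finset.sum_congr rfl fun a _ => ?_
    rw [map_sum, ← Finset.sum_neg_distrib]
    refine Finset.sum_congr rfl fun b _ => ?_
    rw [map_mul, sg_dth, sg_ct, mul_neg]

theorem dd_th (a b : Fin M) : dd (th a b) = dth a b := by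
  rw [dd_apply, Finset.sum_eq_single a, Finset.sum_eq_single b]
  · rw [ct_th, if_pos ⟨rfl, rfl⟩, mul_one]
  · intro c _ hc
    rw [ct_th, if_neg (fun h => hc h.2), mul_zero]
  · intro h; exact absurd (Finset.mem_univ _) h
  · intro c _ hc
    refine Finset.sum_eq_zero fun e _ => ?_
    rw [ct_th, if_neg (fun h => hc h.1), mul_zero]
  · intro h; exact absurd (Finset.mem_univ _) h

theorem isDer_anti {D E : Lam M →ₗ[ℝ] Lam M} (hD : IsADer D) (hE : IsADer E) :
    IsDer (D ∘ₗ E + E ∘ₗ D) := by
  intro x y
  simp only [LinearMap.add_apply, LinearMap.comp_apply]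
  rw [hE.mul, hD.mul, map_add, map_add, hD.mul, hD.mul, hE.mul, hE.mul, hE.odd, hD.odd, sg_sg]
  noncomm_ring

theorem isDer_sq {D : Lam M →ₗ[ℝ] Lam M} (hD : IsADer D) : IsDer (D ∘ₗ D) := by
  intro x y
  simp only [LinearMap.comp_apply]
  rw [hD.mul, map_add, hD.mul, hD.mul, hD.odd, sg_sg]
  noncomm_ring

theorem isDer_zero : IsDer (0 : Lam M →ₗ[ℝ] Lam M) := by
  intro x y
  simp

theorem dd_dth (a b : Fin M) : dd (dth a b) = 0 := by
  have h : dd (dth a b) = (∑ c, ∑ e, th a e * th e c * th c b) - ∑ c, ∑ e, th a c * (th c e * th e b) := by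
    rw [← Finset.sum_sub_distrib]
    conv_lhs => rw [dth, map_neg, map_sum, ← Finset.sum_neg_distrib]
    refine Finset.sum_congr rfl fun c _ => ?_
    rw [isADer_dd.mul, dd_th, dd_th, sg_th, dth, dth, neg_mul, Finset.sum_mul]
    rw [neg_mul_neg, Finset.mul_sum]
    noncomm_ring
  rw [h, Finset.sum_comm, sub_eq_zero]
  refine Finset.sum_congr rfl fun c _ => Finset.sum_congr rfl fun e _ => ?_
  rw [mul_assoc]

theorem dd_dd (x : Lam M) : dd (dd x) = 0 := by
  have := IsDer.ext (isDer_sq isADer_dd) isDer_zero (fun a b => by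
    rw [LinearMap.comp_apply, dd_th, dd_dth, LinearMap.zero_apply]) x
  simpa using this

/-- Lie derivative -/
def lie (p q : Fin M) : Lam M →ₗ[ℝ] Lam M := dd ∘ₗ ct p q + ct p q ∘ₗ dd

theorem lie_apply (p q : Fin M) (x : Lam M) : lie p q x = dd (ct p q x) + ct p q (dd x) := rfl

theorem isDer_lie (p q : Fin M) : IsDer (lie p q) := isDer_anti isADer_dd (isADer_ct p q)

theorem sg_lie (p q : Fin M) (x : Lam M) : sg (lie p q x) = lie p q (sg x) := by
  rw [lie_apply, lie_apply, map_add, isADer_dd.odd, sg_ct, sg_ct, isADer_dd.odd, map_neg, map_neg,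
    neg_neg, neg_neg]

theorem lie_dd (p q : Fin M) (x : Lam M) : lie p q (dd x) = dd (lie p q x) := by
  rw [lie_apply, lie_apply, dd_dd, map_zero, add_zero, map_add, dd_dd, zero_add]

theorem lie_th (p q a b : Fin M) :
    lie p q (th a b) = (if q = b then th a p else 0) - (if p = a then th q b else 0) := by
  have h : ct p q (dth a b) = ∑ c, ((if p = c ∧ q = b then th a c else 0) -
      (if p = a ∧ q = c then th c b else 0)) := by
    unfold dth
    rw [map_neg, map_sum, ← Finset.sum_neg_distrib]
    refine Finset.sum_congr rfl fun c _ => ?_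
    rw [ct_mul, ct_th, ct_th, sg_th]
    split_ifs <;> noncomm_ring
  rw [lie_apply, dd_th, h, ct_th]
  have h0 : dd (if p = a ∧ q = b then (1 : Lam M) else 0) = 0 := by
    split_ifs
    · exact isADer_dd.one
    · exact map_zero _
  rw [h0, zero_add, Finset.sum_sub_distrib]
  congr 1
  · rw [Finset.sum_eq_single p]
    · simp
    · intro c _ hc
      rw [if_neg (fun h => hc h.1.symm)]
    · intro h; exact absurd (Finset.mem_univ _) h
  · rw [Finset.sum_eq_single q]
    · simp
    · intro c _ hc
      rw [if_neg (fun h => hc h.2.symm)]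
    · intro h; exact absurd (Finset.mem_univ _) h

theorem IsADer.add {D E : Lam M →ₗ[ℝ] Lam M} (hD : IsADer D) (hE : IsADer E) : IsADer (D + E) := by
  constructor
  · intro x y
    simp only [LinearMap.add_apply]
    rw [hD.mul, hE.mul]; noncomm_ring
  · intro x
    simp only [LinearMap.add_apply]
    rw [map_add, hD.odd, hE.odd]; abel

theorem IsADer.sub {D E : Lam M →ₗ[ℝ] Lam M} (hD : IsADer D) (hE : IsADer E) : IsADer (D - E) := by
  constructor
  · intro x y
    simp only [LinearMap.sub_apply]
    rw [hD.mul, hE.mul]; noncomm_ring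
  · intro x
    simp only [LinearMap.sub_apply]
    rw [map_sub, hD.odd, hE.odd]; noncomm_ring

theorem isADer_zero : IsADer (0 : Lam M →ₗ[ℝ] Lam M) := by
  constructor
  · intro x y; simp
  · intro x; simp

theorem isADer_comm {D E : Lam M →ₗ[ℝ] Lam M} (hD : IsDer D) (hs : ∀ x, sg (D x) = D (sg x))
    (hE : IsADer E) : IsADer (D ∘ₗ E - E ∘ₗ D) := by
  constructor
  · intro x y
    simp only [LinearMap.sub_apply, LinearMap.comp_apply]
    rw [hE.mul, map_add, hD, hD, hD, map_add, hE.mul, hE.mul, hs]
    noncomm_ring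
  · intro x
    simp only [LinearMap.sub_apply, LinearMap.comp_apply]
    rw [map_sub, hs, hE.odd, hE.odd, hs, map_neg]
    noncomm_ring

theorem lie_ct (p q r s : Fin M) (x : Lam M) :
    lie p q (ct r s x) = ct r s (lie p q x) + (if r = q then ct p s x else 0)
      - (if s = p then ct r q x else 0) := by
  have h1 : IsADer (lie p q ∘ₗ ct r s - ct r s ∘ₗ lie p q) :=
    isADer_comm (isDer_lie p q) (sg_lie p q) (isADer_ct r s)
  have h2 : IsADer ((if r = q then ct p s else 0) - (if s = p then ct r q else 0) :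
      Lam M →ₗ[ℝ] Lam M) := by
    apply IsADer.sub
    · split_ifs
      · exact isADer_ct _ _
      · exact isADer_zero
    · split_ifs
      · exact isADer_ct _ _
      · exact isADer_zero
  have e := IsADer.ext h1 h2 (fun a b => by
    simp only [LinearMap.sub_apply, LinearMap.comp_apply]
    rw [ct_th, lie_th, map_sub]
    have h0 : lie p q (if r = a ∧ s = b then (1 : Lam M) else 0) = 0 := by
      split_ifs
      · exact (isDer_lie p q).one
      · exact map_zero _
    rw [h0]
    have e1 : ct r s (if q = b then th a p else 0) = if s = p then (if r = a ∧ q = b then 1 else 0) else 0 := by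
      by_cases h : q = b
      · rw [if_pos h, ct_th]
        by_cases h' : s = p
        · rw [if_pos h']
          by_cases h'' : r = a
          · rw [if_pos ⟨h'', h'⟩, if_pos ⟨h'', h⟩]
          · rw [if_neg (fun t => h'' t.1), if_neg (fun t => h'' t.1)]
        · rw [if_neg h', if_neg (fun t => h' t.2)]
      · rw [if_neg h, map_zero]
        split_ifs with h1 h2
        · exact absurd h2.2 h
        · rfl
        · rfl
    have e2 : ct r s (if p = a then th q b else 0) = if r = q then (if p = a ∧ s = b then 1 else 0) else 0 := by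
      by_cases h : p = a
      · rw [if_pos h, ct_th]
        by_cases h' : r = q
        · rw [if_pos h']
          by_cases h'' : s = b
          · rw [if_pos ⟨h', h''⟩, if_pos ⟨h, h''⟩]
          · rw [if_neg (fun t => h'' t.2), if_neg (fun t => h'' t.2)]
        · rw [if_neg h', if_neg (fun t => h' t.1)]
      · rw [if_neg h, map_zero]
        split_ifs with h1 h2
        · exact absurd h2.1 h
        · rfl
        · rfl
    have e3 : (if r = q then ct p s else 0 : Lam M →ₗ[ℝ] Lam M) (th a b) =
        if r = q then (if p = a ∧ s = b then 1 else 0) else 0 := by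
      split_ifs with h1 h2
      · rw [ct_th, if_pos h2]
      · rw [ct_th, if_neg h2]
      · rfl
    have e4 : (if s = p then ct r q else 0 : Lam M →ₗ[ℝ] Lam M) (th a b) =
        if s = p then (if r = a ∧ q = b then 1 else 0) else 0 := by
      split_ifs with h1 h2
      · rw [ct_th, if_pos h2]
      · rw [ct_th, if_neg h2]
      · rfl
    rw [e1, e2, e3, e4]
    abel) x
  simp only [LinearMap.sub_apply, LinearMap.comp_apply] at e
  have e3 : (if r = q then ct p s else 0 : Lam M →ₗ[ℝ] Lam M) x = if r = q then ct p s x else 0 := by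
    split_ifs <;> rfl
  have e4 : (if s = p then ct r q else 0 : Lam M →ₗ[ℝ] Lam M) x = if s = p then ct r q x else 0 := by
    split_ifs <;> rfl
  rw [e3, e4] at e
  rw [eq_add_of_sub_eq e]
  abel

theorem lie_lie (p q r s : Fin M) (x : Lam M) :
    lie p q (lie r s x) = lie r s (lie p q x) + (if r = q then lie p s x else 0)
      - (if s = p then lie r q x else 0) := by
  rw [lie_apply r s x, map_add, lie_dd, lie_ct, lie_ct, map_sub, map_add, lie_dd,
    lie_apply r s (lie p q x)]
  split_ifs <;> simp only [lie_apply, map_zero] <;> abel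

/-- explicit form of the Lie derivative -/
theorem lie_explicit (p q : Fin M) (x : Lam M) :
    lie p q x = ∑ a, th a p * ct a q x - ∑ b, th q b * ct p b x := by
  have hder : ∀ a b c e : Fin M, IsDer (LinearMap.mulLeft ℝ (th a b) ∘ₗ ct c e) := by
    intro a b c e x y
    simp only [LinearMap.comp_apply, LinearMap.mulLeft_apply]
    rw [ct_mul, mul_add, ← mul_assoc, ← mul_assoc, th_mul_comm_sg a b (sg x), sg_sg, mul_assoc x]
  have hsum : ∀ f : Fin M → (Lam M →ₗ[ℝ] Lam M), (∀ a, IsDer (f a)) → IsDer (∑ a, f a) := by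
    intro f hf x y
    rw [LinearMap.sum_apply, LinearMap.sum_apply, LinearMap.sum_apply, Finset.sum_mul,
      Finset.mul_sum, ← Finset.sum_add_distrib]
    exact Finset.sum_congr rfl fun a _ => hf a x y
  have h2 : IsDer (∑ a, LinearMap.mulLeft ℝ (th a p) ∘ₗ ct a q -
      ∑ b, LinearMap.mulLeft ℝ (th q b) ∘ₗ ct p b) := by
    intro x y
    have u1 := hsum _ (fun a => hder a p a q) x y
    have u2 := hsum _ (fun b => hder q b p b) x y
    simp only [LinearMap.sub_apply]
    rw [u1, u2]
    noncomm_ring
  have e := IsDer.ext (isDer_lie p q) h2 (fun a b => by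
    rw [lie_th, LinearMap.sub_apply, LinearMap.sum_apply, LinearMap.sum_apply]
    simp only [LinearMap.comp_apply, LinearMap.mulLeft_apply, ct_th]
    congr 1
    · rw [Finset.sum_eq_single a]
      · by_cases h : q = b
        · rw [if_pos h, if_pos ⟨rfl, h⟩, mul_one]
        · rw [if_neg h, if_neg (fun t => h t.2), mul_zero]
      · intro c _ hc
        rw [if_neg (fun t => hc t.1), mul_zero]
      · intro h; exact absurd (Finset.mem_univ _) h
    · rw [Finset.sum_eq_single b]
      · by_cases h : p = a
        · rw [if_pos h, if_pos ⟨h, rfl⟩, mul_one]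
        · rw [if_neg h, if_neg (fun t => h t.1), mul_zero]
      · intro c _ hc
        rw [if_neg (fun t => hc t.2), mul_zero]
      · intro h; exact absurd (Finset.mem_univ _) h) x
  rw [e, LinearMap.sub_apply, LinearMap.sum_apply, LinearMap.sum_apply]
  rfl

theorem ip_sum_left {ι : Type*} (s : Finset ι) (f : ι → Lam M) (y : Lam M) :
    ip (∑ i ∈ s, f i) y = ∑ i ∈ s, ip (f i) y := by
  have : ip (∑ i ∈ s, f i) y = ipB.flip y (∑ i ∈ s, f i) := rfl
  rw [this, map_sum]
  rfl

theorem ip_sum_right {ι : Type*} (s : Finset ι) (f : ι → Lam M) (y : Lam M) :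
    ip y (∑ i ∈ s, f i) = ∑ i ∈ s, ip y (f i) := by
  have : ip y (∑ i ∈ s, f i) = ipB y (∑ i ∈ s, f i) := rfl
  rw [this, map_sum]
  rfl

theorem ip_lie (p q : Fin M) (x y : Lam M) : ip (lie p q x) y = ip x (lie q p y) := by
  rw [lie_explicit, lie_explicit, ip_sub_left, ip_sub_right, ip_sum_left, ip_sum_left, ip_sum_right,
    ip_sum_right]
  congr 1
  · refine Finset.sum_congr rfl fun a _ => ?_
    rw [ip_th_mul, ip_mul_th]
  · refine Finset.sum_congr rfl fun a _ => ?_
    rw [ip_th_mul, ip_mul_th]

theorem lie_tau (p q : Fin M) (x : Lam M) : lie p q (tau x) = - tau (lie q p x) := by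
  induction x using lam_induction with
  | h1 => rw [tau_one, (isDer_lie p q).one, (isDer_lie q p).one, map_zero, neg_zero]
  | hs r x hx => simp only [map_smul, hx, smul_neg]
  | ha x y hx hy => simp only [map_add, hx, hy, neg_add]
  | hm c d x hx =>
    have hg : lie p q (tau (th c d)) = - tau (lie q p (th c d)) := by
      rw [tau_th, map_neg, lie_th, lie_th, map_sub]
      have e1 : tau (if p = d then th c q else 0) = if p = d then - th q c else 0 := by
        split_ifs
        · exact tau_th _ _
        · exact map_zero _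
      have e2 : tau (if q = c then th p d else 0) = if q = c then - th d p else 0 := by
        split_ifs
        · exact tau_th _ _
        · exact map_zero _
      rw [e1, e2]
      split_ifs <;> noncomm_ring
    rw [tau_mul, isDer_lie, isDer_lie, hx, hg, map_add, tau_mul, tau_mul]
    noncomm_ring

end

end Pool.Agent.E8helper44
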