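import Pool.Agent.E8helper44.NN2

set_option autoImplicit false

namespace Pool.Agent.E8helper44

open MvPolynomial

noncomputable section

variable {M : ℕ}

/-- the swap of two adjacent variables -/
def sw (i : ℕ) : MvPolynomial ℕ ℤ →ₐ[ℤ] MvPolynomial ℕ ℤ := rename (Equiv.swap i (i + 1))

theorem sw_X_left (i : ℕ) : sw i (X i) = X (i + 1) := by
  unfold sw; rw [rename_X, Equiv.swap_apply_left]

theorem sw_X_right (i : ℕ) : sw i (X (i + 1)) = X i := by
  unfold sw; rw [rename_X, Equiv.swap_apply_right]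

theorem sw_X_ne (i j : ℕ) (h1 : j ≠ i) (h2 : j ≠ i + 1) : sw i (X j) = X j := by
  unfold sw; rw [rename_X, Equiv.swap_apply_of_ne_of_ne h1 h2]

theorem sw_sw (i : ℕ) (f : MvPolynomial ℕ ℤ) : sw i (sw i f) = f := by
  unfold sw
  rw [rename_rename]
  have : (⇑(Equiv.swap i (i + 1)) ∘ ⇑(Equiv.swap i (i + 1))) = id := by
    ext x
    simp
  rw [this, rename_id_apply]

theorem X_sub_ne (i : ℕ) : (X i - X (i + 1) : MvPolynomial ℕ ℤ) ≠ 0 := by
  intro h
  have := sub_eq_zero.mp h
  have := MvPolynomial.X_injective this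
  omega

theorem dvd_sub_sw (i : ℕ) (f : MvPolynomial ℕ ℤ) : (X i - X (i + 1)) ∣ f - sw i f := by
  induction f using MvPolynomial.induction_on with
  | C a =>
    have : sw i (C a) = C a := AlgHom.commutes _ a
    rw [this, sub_self]
    exact dvd_zero _
  | add p q hp hq =>
    rw [map_add]
    have : p + q - (sw i p + sw i q) = (p - sw i p) + (q - sw i q) := by ring
    rw [this]
    exact dvd_add hp hq
  | mul_X p n hp =>
    rw [map_mul]
    have : p * X n - sw i p * sw i (X n) = (p - sw i p) * X n + sw i p * (X n - sw i (X n)) := by ring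
    rw [this]
    refine dvd_add (dvd_mul_of_dvd_left hp _) (dvd_mul_of_dvd_right ?_ _)
    by_cases h1 : n = i
    · subst h1; rw [sw_X_left]
    · by_cases h2 : n = i + 1
      · subst h2; rw [sw_X_right]
        exact ⟨-1, by ring⟩
      · rw [sw_X_ne i n h1 h2, sub_self]; exact dvd_zero _

/-- divided difference -/
def ddo (i : ℕ) (f : MvPolynomial ℕ ℤ) : MvPolynomial ℕ ℤ := (dvd_sub_sw i f).choose

theorem ddo_spec (i : ℕ) (f : MvPolynomial ℕ ℤ) : (X i - X (i + 1)) * ddo i f = f - sw i f :=
  (dvd_sub_sw i f).choose_spec.symm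

theorem ddo_unique (i : ℕ) (f g : MvPolynomial ℕ ℤ) (h : (X i - X (i + 1)) * g = f - sw i f) :
    ddo i f = g := by
  apply mul_left_cancel₀ (X_sub_ne i)
  rw [ddo_spec, h]

theorem ddo_add (i : ℕ) (f g : MvPolynomial ℕ ℤ) : ddo i (f + g) = ddo i f + ddo i g := by
  apply ddo_unique
  rw [mul_add, ddo_spec, ddo_spec, map_add]; ring

theorem ddo_zero (i : ℕ) : ddo i 0 = 0 := by
  apply ddo_unique
  rw [map_zero]; ring

theorem ddo_sym (i : ℕ) (s f : MvPolynomial ℕ ℤ) (hs : sw i s = s) :
    ddo i (s * f) = s * ddo i f := by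
  apply ddo_unique
  rw [mul_left_comm, ddo_spec, map_mul, hs]; ring

theorem ddo_NN (i : ℕ) (hi : i + 1 < M) (f : MvPolynomial ℕ ℤ) (hf : f ∈ NN M) : ddo i f ∈ NN M :=
  NN_dd i hi f _ hf (ddo_spec i f)

/-- product of the first variables -/
def ek (k : ℕ) : MvPolynomial ℕ ℤ := ∏ j ∈ Finset.range k, X j

theorem ek_succ (k : ℕ) : ek (k + 1) = ek k * X k := Finset.prod_range_succ _ _

theorem sw_ek (i k : ℕ) (h : i + 1 ≠ k) : sw i (ek k) = ek k := by
  unfold ek
  rw [map_prod]
  rcases lt_or_ge i k with hik | hik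
  · refine Finset.prod_bij (fun j _ => Equiv.swap i (i + 1) j) ?_ ?_ ?_ ?_
    · intro j hj
      rw [Finset.mem_range] at hj ⊢
      rw [Equiv.swap_apply_def]
      split_ifs <;> omega
    · intro a _ b _ hab
      exact (Equiv.swap i (i + 1)).injective hab
    · intro j hj
      rw [Finset.mem_range] at hj
      refine ⟨Equiv.swap i (i + 1) j, ?_, by simp⟩
      rw [Finset.mem_range, Equiv.swap_apply_def]
      split_ifs <;> omega
    · intro j _
      unfold sw
      rw [rename_X]
  · refine Finset.prod_congr rfl fun j hj => ?_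
    rw [Finset.mem_range] at hj
    exact sw_X_ne i j (by omega) (by omega)

theorem lower (k : ℕ) (hk : k + 1 < M) (Q : MvPolynomial ℕ ℤ) (hQ : sw k Q = Q)
    (h : ek (k + 1) * Q ∈ NN M) : ek k * Q ∈ NN M := by
  refine NN_dd k hk _ _ h ?_
  have : rename (Equiv.swap k (k + 1)) (ek (k + 1) * Q) = ek k * X (k + 1) * Q := by
    change sw k _ = _
    rw [map_mul, hQ, ek_succ, map_mul, sw_ek k k (by omega), sw_X_left]
  rw [this, ek_succ]
  ring

theorem remove (k : ℕ) (hk : k < M) (Q : MvPolynomial ℕ ℤ) (hQ : ∀ i, i < k → sw i Q = Q)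
    (h : ek k * Q ∈ NN M) : Q ∈ NN M := by
  induction k with
  | zero =>
    unfold ek at h
    rwa [Finset.prod_range_zero, one_mul] at h
  | succ k ih =>
    exact ih (by omega) (fun i hi => hQ i (by omega)) (lower k hk Q (hQ k (by omega)) h)

theorem delta_eq (m : ℕ) : ∏ k ∈ Finset.range (m + 1), (X k : MvPolynomial ℕ ℤ) ^ (m - k) =
    ∏ k ∈ Finset.range m, ek (k + 1) := by
  induction m with
  | zero => simp
  | succ m ih =>
    rw [Finset.prod_range_succ (fun k => (X k : MvPolynomial ℕ ℤ) ^ (m + 1 - k)) (m + 1),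
      Finset.prod_range_succ (fun k => ek (k + 1)) m, ← ih]
    have h1 : ∀ k ∈ Finset.range (m + 1), (X k : MvPolynomial ℕ ℤ) ^ (m + 1 - k) =
        X k ^ (m - k) * X k := by
      intro k hk
      rw [Finset.mem_range] at hk
      rw [← pow_succ]
      congr 1
      omega
    rw [Finset.prod_congr rfl h1, Finset.prod_mul_distrib]
    rw [Nat.sub_self, pow_zero, mul_one]
    rfl

theorem sw_prod_ek (i : ℕ) (s : Finset ℕ) (h : ∀ k ∈ s, i ≠ k) :
    sw i (∏ k ∈ s, ek (k + 1)) = ∏ k ∈ s, ek (k + 1) := by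
  rw [map_prod]
  refine Finset.prod_congr rfl fun k hk => ?_
  exact sw_ek i (k + 1) (by have := h k hk; omega)

theorem lowerA (m : ℕ) (hm : m + 1 < M) (h : ∏ k ∈ Finset.range (m + 1), ek (k + 1) ∈ NN M) :
    ∏ k ∈ Finset.range m, ek (k + 1) ∈ NN M := by
  have key : ∀ j, j ≤ m → (∏ k ∈ Finset.range j, ek (k + 1)) *
      ∏ k ∈ Finset.Ico (j + 1) (m + 1), ek (k + 1) ∈ NN M := by
    intro j hj
    induction j with
    | zero =>
      rw [Finset.prod_range_zero, one_mul]
      apply remove 1 (by omega)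
      · intro i hi
        apply sw_prod_ek
        intro k hk
        rw [Finset.mem_Ico] at hk
        omega
      · rw [Finset.range_eq_Ico, Finset.prod_eq_prod_Ico_succ_bot (by omega)] at h
        exact h
    | succ j ih =>
      have h1 := ih (by omega)
      rw [Finset.prod_eq_prod_Ico_succ_bot (show j + 1 < m + 1 by omega)] at h1
      have h2 := lower (M := M) (j + 1) (by omega)
        ((∏ k ∈ Finset.range j, ek (k + 1)) * ∏ k ∈ Finset.Ico (j + 1 + 1) (m + 1), ek (k + 1))
        (by
          rw [map_mul, sw_prod_ek, sw_prod_ek]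
          · intro k hk
            rw [Finset.mem_Ico] at hk
            omega
          · intro k hk
            rw [Finset.mem_range] at hk
            omega)
        (by
          have e : ek (j + 1 + 1) * ((∏ k ∈ Finset.range j, ek (k + 1)) *
            ∏ k ∈ Finset.Ico (j + 1 + 1) (m + 1), ek (k + 1)) =
            (∏ k ∈ Finset.range j, ek (k + 1)) * (ek (j + 1 + 1) *
              ∏ k ∈ Finset.Ico (j + 1 + 1) (m + 1), ek (k + 1)) := by ring
          rw [e]; exact h1)
      rw [Finset.prod_range_succ]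
      have e : (∏ k ∈ Finset.range j, ek (k + 1)) * ek (j + 1) *
          ∏ k ∈ Finset.Ico (j + 1 + 1) (m + 1), ek (k + 1) = ek (j + 1) *
          ((∏ k ∈ Finset.range j, ek (k + 1)) *
            ∏ k ∈ Finset.Ico (j + 1 + 1) (m + 1), ek (k + 1)) := by ring
      rw [e]; exact h2
  have := key m le_rfl
  rwa [Finset.Ico_self, Finset.prod_empty, mul_one] at this

theorem A_NN (m : ℕ) (hm : m < M) : ∏ k ∈ Finset.range m, ek (k + 1) ∈ NN M := by
  obtain ⟨r, hr⟩ : ∃ r, M = m + 1 + r := ⟨M - (m + 1), by omega⟩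
  have gen : ∀ r m, m + 1 + r = M → ∏ k ∈ Finset.range m, ek (k + 1) ∈ NN M := by
    intro r
    induction r with
    | zero =>
      intro m hm
      have h1 := NN_top M
      rw [← hm, add_zero] at h1 ⊢
      rw [← delta_eq m]
      exact h1
    | succ r ih =>
      intro m hm
      exact lowerA m (by omega) (ih (m + 1) (by omega))
  exact gen r m hr.symm

theorem ek_NN (m : ℕ) (hm : m < M) : ek m ∈ NN M := by
  rcases m with _ | m
  · unfold ek; rw [Finset.prod_range_zero]; exact NN_one
  · have key : ∀ j, j ≤ m → ∏ k ∈ Finset.Ico j (m + 1), ek (k + 1) ∈ NN M := by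
      intro j hj
      induction j with
      | zero =>
        rw [← Finset.range_eq_Ico]
        exact A_NN (m + 1) hm
      | succ j ih =>
        have h1 := ih (by omega)
        rw [Finset.prod_eq_prod_Ico_succ_bot (by omega)] at h1
        refine remove (j + 1) (by omega) _ ?_ h1
        intro i hi
        apply sw_prod_ek
        intro k hk
        rw [Finset.mem_Ico] at hk
        omega
    have := key m le_rfl
    rwa [Nat.Ico_succ_singleton, Finset.prod_singleton] at this

theorem NN_pow {f : MvPolynomial ℕ ℤ} (hf : f ∈ NN M) (n : ℕ) : f ^ n ∈ NN M := by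
  induction n with
  | zero => rw [pow_zero]; exact NN_one
  | succ n ih => rw [pow_succ]; exact NN_mul ih hf

theorem dom_NN (n : ℕ) (hn : n < M) (l : ℕ → ℕ) (hl : ∀ i j, i ≤ j → j < n → l j ≤ l i) :
    ∏ i ∈ Finset.range n, (X i : MvPolynomial ℕ ℤ) ^ l i ∈ NN M := by
  induction n generalizing l with
  | zero => rw [Finset.prod_range_zero]; exact NN_one
  | succ n ih =>
    have h1 := ih (by omega) (fun i => l i - l n) (fun i j hij hj => by
      have := hl i j hij (by omega)
      omega)
    have h2 : ∏ i ∈ Finset.range (n + 1), (X i : MvPolynomial ℕ ℤ) ^ l i =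
        (∏ i ∈ Finset.range n, (X i : MvPolynomial ℕ ℤ) ^ (l i - l n)) * ek (n + 1) ^ l n := by
      rw [Finset.prod_range_succ, ek_succ, mul_pow]
      unfold ek
      rw [← Finset.prod_pow, ← mul_assoc, ← Finset.prod_mul_distrib]
      congr 1
      refine Finset.prod_congr rfl fun i hi => ?_
      rw [Finset.mem_range] at hi
      rw [← pow_add]
      congr 1
      have := hl i n hi.le (by omega)
      omega
    rw [h2]
    exact NN_mul h1 (NN_pow (ek_NN (n + 1) hn) _)

end

end Pool.Agent.E8helper44
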