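import Mathlib

set_option autoImplicit false

open CliffordAlgebra

namespace Pool.Agent.E8helper44

noncomputable section

/-- The exterior algebra on the generators indexed by pairs. -/
def Lam (M : ℕ) : Type := ExteriorAlgebra ℝ (Fin M × Fin M → ℝ)

instance (M : ℕ) : Ring (Lam M) :=
  inferInstanceAs (Ring (ExteriorAlgebra ℝ (Fin M × Fin M → ℝ)))

instance (M : ℕ) : Algebra ℝ (Lam M) :=
  inferInstanceAs (Algebra ℝ (ExteriorAlgebra ℝ (Fin M × Fin M → ℝ)))

variable {M : ℕ}

/-- generator from a vector -/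
def iot : (Fin M × Fin M → ℝ) →ₗ[ℝ] Lam M :=
  (ExteriorAlgebra.ι ℝ : (Fin M × Fin M → ℝ) →ₗ[ℝ] ExteriorAlgebra ℝ (Fin M × Fin M → ℝ))

/-- generators -/
def th (a b : Fin M) : Lam M := iot (Pi.single (a, b) 1)

/-- contraction operators -/
def ct (a b : Fin M) : Lam M →ₗ[ℝ] Lam M :=
  (contractLeft (Q := (0 : QuadraticForm ℝ (Fin M × Fin M → ℝ)))
    (LinearMap.proj (a, b)) :
    ExteriorAlgebra ℝ (Fin M × Fin M → ℝ) →ₗ[ℝ] ExteriorAlgebra ℝ (Fin M × Fin M → ℝ))

/-- grade involution -/
def sg : Lam M →ₐ[ℝ] Lam M :=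
  (involute : ExteriorAlgebra ℝ (Fin M × Fin M → ℝ) →ₐ[ℝ] ExteriorAlgebra ℝ (Fin M × Fin M → ℝ))

/-- augmentation -/
def eps : Lam M →ₐ[ℝ] ℝ :=
  (ExteriorAlgebra.algebraMapInv : ExteriorAlgebra ℝ (Fin M × Fin M → ℝ) →ₐ[ℝ] ℝ)

/-- the linear map underlying `tau` on vectors -/
def tauV : (Fin M × Fin M → ℝ) →ₗ[ℝ] (Fin M × Fin M → ℝ) where
  toFun v := fun p => - v (p.2, p.1)
  map_add' v w := by ext p; simp; ring
  map_smul' c v := by ext p; simp

/-- the anti-automorphism tau -/
def tau : Lam M →ₗ[ℝ] Lam M :=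
  ((reverse : ExteriorAlgebra ℝ (Fin M × Fin M → ℝ) →ₗ[ℝ] ExteriorAlgebra ℝ (Fin M × Fin M → ℝ)) ∘ₗ
    (ExteriorAlgebra.map tauV).toLinearMap :
    ExteriorAlgebra ℝ (Fin M × Fin M → ℝ) →ₗ[ℝ] ExteriorAlgebra ℝ (Fin M × Fin M → ℝ))

theorem iot_expand (v : Fin M × Fin M → ℝ) : iot v = ∑ p : Fin M × Fin M, v p • th p.1 p.2 := by
  have h : v = ∑ p : Fin M × Fin M, v p • (Pi.single p 1 : Fin M × Fin M → ℝ) := by
    ext q
    simp [Finset.sum_apply, Pi.single_apply]
  conv_lhs => rw [h]
  rw [map_sum]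
  refine Finset.sum_congr rfl fun p _ => ?_
  rw [map_smul]
  rfl

/-- Induction principle. -/
theorem lam_induction {C : Lam M → Prop} (h1 : C 1) (hs : ∀ (r : ℝ) x, C x → C (r • x))
    (ha : ∀ x y, C x → C y → C (x + y)) (hm : ∀ a b x, C x → C (th a b * x)) (x : Lam M) : C x := by
  have h0 : C 0 := by
    have := hs 0 1 h1
    rwa [zero_smul] at this
  have hi : ∀ (m : Fin M × Fin M → ℝ) (x : Lam M), C x → C (iot m * x) := by
    intro m x hx
    rw [iot_expand, Finset.sum_mul]
    have gen : ∀ s : Finset (Fin M × Fin M), C (∑ p ∈ s, (m p • th p.1 p.2) * x) := by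
      intro s
      induction s using Finset.induction_on with
      | empty => simpa using h0
      | insert p s hp ih =>
        rw [Finset.sum_insert hp, smul_mul_assoc]
        exact ha _ _ (hs _ _ (hm _ _ _ hx)) ih
    exact gen Finset.univ
  have key : ∀ x : CliffordAlgebra (0 : QuadraticForm ℝ (Fin M × Fin M → ℝ)), C x := by
    intro x
    induction x using CliffordAlgebra.left_induction with
    | algebraMap r =>
      have := hs r 1 h1
      rw [Algebra.algebraMap_eq_smul_one]
      exact this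
    | add x y hx hy => exact ha x y hx hy
    | ι_mul x m hx => exact hi m x hx
  exact key x

theorem iot_mul_self (v : Fin M × Fin M → ℝ) : iot v * iot v = 0 :=
  ExteriorAlgebra.ι_sq_zero (R := ℝ) v

theorem iot_mul_swap (v w : Fin M × Fin M → ℝ) : iot v * iot w = - (iot w * iot v) :=
  eq_neg_of_add_eq_zero_left (ExteriorAlgebra.ι_add_mul_swap (R := ℝ) v w)

theorem th_mul_self (a b : Fin M) : th a b * th a b = 0 := iot_mul_self _

theorem th_mul_th (a b c d : Fin M) : th a b * th c d = - (th c d * th a b) := iot_mul_swap _ _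

theorem sg_th (a b : Fin M) : sg (th a b) = - th a b :=
  involute_ι (Q := (0 : QuadraticForm ℝ (Fin M × Fin M → ℝ))) _

theorem sg_sg (x : Lam M) : sg (sg x) = x :=
  involute_involute (Q := (0 : QuadraticForm ℝ (Fin M × Fin M → ℝ))) x

theorem eps_th (a b : Fin M) : eps (th a b) = 0 := by
  have h : (ExteriorAlgebra.algebraMapInv : ExteriorAlgebra ℝ (Fin M × Fin M → ℝ) →ₐ[ℝ] ℝ)
    (ExteriorAlgebra.ι ℝ (Pi.single (a, b) 1)) = 0 := by
    simp [ExteriorAlgebra.algebraMapInv]
  exact h

theorem tauV_single (a b : Fin M) :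
    tauV (Pi.single (a, b) 1 : Fin M × Fin M → ℝ) = - Pi.single (b, a) 1 := by
  ext ⟨p, q⟩
  simp only [tauV, LinearMap.coe_mk, AddHom.coe_mk, Pi.neg_apply, Pi.single_apply, Prod.mk.injEq]
  congr 1
  by_cases h : q = a ∧ p = b
  · rw [if_pos h, if_pos ⟨h.2, h.1⟩]
  · rw [if_neg h, if_neg (fun h' => h ⟨h'.2, h'.1⟩)]

theorem tau_iot (v : Fin M × Fin M → ℝ) : tau (iot v) = iot (tauV v) := by
  have h : ((reverse : ExteriorAlgebra ℝ (Fin M × Fin M → ℝ) →ₗ[ℝ] ExteriorAlgebra ℝ (Fin M × Fin M → ℝ)) ∘ₗ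
    (ExteriorAlgebra.map tauV).toLinearMap) (ExteriorAlgebra.ι ℝ v) = ExteriorAlgebra.ι ℝ (tauV v) := by
    rw [LinearMap.comp_apply, AlgHom.toLinearMap_apply, ExteriorAlgebra.map_apply_ι]
    exact reverse_ι _
  exact h

theorem tau_th (a b : Fin M) : tau (th a b) = - th b a := by
  unfold th
  rw [tau_iot, tauV_single, map_neg]

theorem tau_mul (x y : Lam M) : tau (x * y) = tau y * tau x := by
  have h : ∀ x y : ExteriorAlgebra ℝ (Fin M × Fin M → ℝ),
    ((reverse : ExteriorAlgebra ℝ (Fin M × Fin M → ℝ) →ₗ[ℝ] ExteriorAlgebra ℝ (Fin M × Fin M → ℝ)) ∘ₗ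
    (ExteriorAlgebra.map tauV).toLinearMap) (x * y) =
    ((reverse : ExteriorAlgebra ℝ (Fin M × Fin M → ℝ) →ₗ[ℝ] ExteriorAlgebra ℝ (Fin M × Fin M → ℝ)) ∘ₗ
    (ExteriorAlgebra.map tauV).toLinearMap) y *
    ((reverse : ExteriorAlgebra ℝ (Fin M × Fin M → ℝ) →ₗ[ℝ] ExteriorAlgebra ℝ (Fin M × Fin M → ℝ)) ∘ₗ
    (ExteriorAlgebra.map tauV).toLinearMap) x := by
    intro x y
    rw [LinearMap.comp_apply, AlgHom.toLinearMap_apply, map_mul, reverse.map_mul]
    rfl
  exact h x y

theorem tau_one : tau (1 : Lam M) = 1 := by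
  have h : ((reverse : ExteriorAlgebra ℝ (Fin M × Fin M → ℝ) →ₗ[ℝ] ExteriorAlgebra ℝ (Fin M × Fin M → ℝ)) ∘ₗ
    (ExteriorAlgebra.map tauV).toLinearMap) 1 = 1 := by
    rw [LinearMap.comp_apply, AlgHom.toLinearMap_apply, map_one, reverse.map_one]
  exact h

theorem ct_one (a b : Fin M) : ct a b 1 = 0 :=
  contractLeft_one (Q := (0 : QuadraticForm ℝ (Fin M × Fin M → ℝ))) _

theorem ct_th_mul (a b c d : Fin M) (x : Lam M) :
    ct a b (th c d * x) = (if a = c ∧ b = d then x else 0) - th c d * ct a b x := by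
  have h := contractLeft_ι_mul (Q := (0 : QuadraticForm ℝ (Fin M × Fin M → ℝ)))
    (LinearMap.proj (a, b)) (Pi.single (c, d) 1) x
  have e : (LinearMap.proj (a, b) : (Fin M × Fin M → ℝ) →ₗ[ℝ] ℝ) (Pi.single (c, d) 1) • x
     = (if a = c ∧ b = d then x else 0) := by
    rw [LinearMap.proj_apply, Pi.single_apply]
    by_cases h : a = c ∧ b = d
    · rw [if_pos h, if_pos (by rw [h.1, h.2]), one_smul]
    · rw [if_neg h, if_neg (by simpa [Prod.ext_iff] using h), zero_smul]
  refine Eq.trans h ?_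
  exact congrArg (fun z => z - th c d * ct a b x) e

theorem ct_ct_self (a b : Fin M) (x : Lam M) : ct a b (ct a b x) = 0 :=
  contractLeft_contractLeft (Q := (0 : QuadraticForm ℝ (Fin M × Fin M → ℝ))) _ x

theorem ct_ct (a b c d : Fin M) (x : Lam M) : ct a b (ct c d x) = - ct c d (ct a b x) :=
  contractLeft_comm (Q := (0 : QuadraticForm ℝ (Fin M × Fin M → ℝ))) _ _ x

theorem ct_th (a b c d : Fin M) : ct a b (th c d) = (if a = c ∧ b = d then 1 else 0) := by
  have h := ct_th_mul a b c d 1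
  rwa [mul_one, ct_one, mul_zero, sub_zero] at h

theorem th_mul_comm_sg (a b : Fin M) (x : Lam M) : th a b * x = sg x * th a b := by
  induction x using lam_induction with
  | h1 => rw [mul_one, map_one, one_mul]
  | hs r x hx => rw [mul_smul_comm, hx, map_smul, smul_mul_assoc]
  | ha x y hx hy => rw [mul_add, hx, hy, map_add, add_mul]
  | hm c d x hx =>
    rw [map_mul, sg_th, mul_assoc, ← hx, ← mul_assoc, th_mul_th a b c d, ← mul_assoc]
    noncomm_ring

theorem sg_ct (a b : Fin M) (x : Lam M) : sg (ct a b x) = - ct a b (sg x) := by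
  induction x using lam_induction with
  | h1 => rw [ct_one, map_zero, map_one, ct_one, neg_zero]
  | hs r x hx => rw [map_smul, map_smul, hx, map_smul, map_smul, smul_neg]
  | ha x y hx hy => rw [map_add, map_add, hx, hy, map_add, map_add, neg_add]
  | hm c d x hx =>
    rw [ct_th_mul, map_sub, map_mul, sg_th, hx, map_mul, sg_th]
    simp only [neg_mul, mul_neg, neg_neg, map_neg]
    rw [ct_th_mul]
    split_ifs
    · noncomm_ring
    · rw [map_zero]

theorem ct_mul (a b : Fin M) (x y : Lam M) : ct a b (x * y) = ct a b x * y + sg x * ct a b y := by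
  induction x using lam_induction with
  | h1 => rw [one_mul, ct_one, zero_mul, map_one, one_mul, zero_add]
  | hs r x hx => rw [smul_mul_assoc, map_smul, hx, map_smul, map_smul, smul_add, smul_mul_assoc,
      smul_mul_assoc]
  | ha x z hx hz => rw [add_mul, map_add, hx, hz, map_add, map_add, add_mul, add_mul]; abel
  | hm c d x hx =>
    rw [mul_assoc, ct_th_mul, hx, ct_th_mul, map_mul, sg_th]
    split_ifs
    · noncomm_ring
    · noncomm_ring

theorem tau_tau (x : Lam M) : tau (tau x) = x := by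
  induction x using lam_induction with
  | h1 => rw [tau_one, tau_one]
  | hs r x hx => rw [map_smul, map_smul, hx]
  | ha x y hx hy => rw [map_add, map_add, hx, hy]
  | hm c d x hx => rw [tau_mul, tau_mul, hx, tau_th, map_neg, tau_th, neg_neg]

theorem tau_sg (x : Lam M) : tau (sg x) = sg (tau x) := by
  induction x using lam_induction with
  | h1 => rw [map_one, tau_one, map_one]
  | hs r x hx => simp only [map_smul, hx]
  | ha x y hx hy => simp only [map_add, hx, hy]
  | hm c d x hx => rw [map_mul, tau_mul, hx, sg_th, map_neg, tau_th, tau_mul, map_mul, tau_th,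
      map_neg, sg_th]

theorem eps_tau (x : Lam M) : eps (tau x) = eps x := by
  induction x using lam_induction with
  | h1 => rw [tau_one]
  | hs r x hx => simp only [map_smul, hx]
  | ha x y hx hy => simp only [map_add, hx, hy]
  | hm c d x hx => rw [tau_mul, map_mul, tau_th, map_neg, eps_th, map_mul, eps_th]; ring

theorem eps_sg (x : Lam M) : eps (sg x) = eps x := by
  induction x using lam_induction with
  | h1 => rw [map_one]
  | hs r x hx => simp only [map_smul, hx]
  | ha x y hx hy => simp only [map_add, hx, hy]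
  | hm c d x hx => rw [map_mul, sg_th, map_mul, map_neg, eps_th, map_mul, eps_th]; ring

theorem ct_tau (a b : Fin M) (x : Lam M) : ct a b (tau x) = - tau (sg (ct b a x)) := by
  induction x using lam_induction with
  | h1 => rw [tau_one, ct_one, ct_one, map_zero, map_zero, neg_zero]
  | hs r x hx => simp only [map_smul, hx, smul_neg]
  | ha x y hx hy => simp only [map_add, hx, hy, neg_add]
  | hm c d x hx =>
    rw [tau_mul, ct_mul, hx, tau_th, map_neg, ct_th, ct_th_mul, map_sub, map_mul, sg_th, map_sub,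
      ← tau_sg]
    simp only [neg_mul, map_neg, tau_mul, tau_th]
    by_cases h : a = d ∧ b = c
    · rw [if_pos h, if_pos ⟨h.2, h.1⟩]; noncomm_ring
    · rw [if_neg h, if_neg (fun h' => h ⟨h'.2, h'.1⟩), map_zero, map_zero]; noncomm_ring

/-- the operator of left multiplication by the adjoint -/
def dagV : (Fin M × Fin M → ℝ) →ₗ[ℝ] (Module.End ℝ (Lam M))ᵐᵒᵖ where
  toFun v := MulOpposite.op (∑ p : Fin M × Fin M, v p • ct p.1 p.2)
  map_add' v w := by
    rw [← MulOpposite.op_add, ← Finset.sum_add_distrib]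
    simp only [Pi.add_apply, add_smul]
  map_smul' c v := by
    rw [RingHom.id_apply, ← MulOpposite.op_smul, Finset.smul_sum]
    simp only [Pi.smul_apply, smul_eq_mul, mul_smul]

theorem dagV_sq (v : Fin M × Fin M → ℝ) : dagV v * dagV v = (0 : (Module.End ℝ (Lam M))ᵐᵒᵖ) := by
  have h : (∑ p : Fin M × Fin M, v p • (ct p.1 p.2 : Module.End ℝ (Lam M))) *
      (∑ p : Fin M × Fin M, v p • (ct p.1 p.2 : Module.End ℝ (Lam M))) = 0 := by
    ext x
    rw [Module.End.mul_apply, LinearMap.zero_apply]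
    set T : Module.End ℝ (Lam M) := ∑ p : Fin M × Fin M, v p • (ct p.1 p.2 : Module.End ℝ (Lam M))
      with hT
    have e1 : T (T x) = ∑ p : Fin M × Fin M, ∑ q : Fin M × Fin M,
        (v p * v q) • (ct p.1 p.2 (ct q.1 q.2 x)) := by
      have hx : ∀ y, T y = ∑ p : Fin M × Fin M, v p • (ct p.1 p.2 y) := by
        intro y
        rw [hT, LinearMap.sum_apply]
        rfl
      rw [hx, ]
      refine Finset.sum_congr rfl fun p _ => ?_
      rw [hx, map_sum, Finset.smul_sum]
      refine Finset.sum_congr rfl fun q _ => ?_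
      rw [map_smul, smul_smul]
    have e2 : T (T x) = - T (T x) := by
      conv_lhs => rw [e1, Finset.sum_comm]
      rw [e1, ← Finset.sum_neg_distrib]
      refine Finset.sum_congr rfl fun p _ => ?_
      rw [← Finset.sum_neg_distrib]
      refine Finset.sum_congr rfl fun q _ => ?_
      rw [ct_ct q.1 q.2 p.1 p.2, smul_neg, mul_comm]
    have e3 : (2 : ℝ) • T (T x) = 0 := by
      rw [two_smul]
      nth_rewrite 1 [e2]
      exact neg_add_cancel _
    exact (smul_eq_zero.mp e3).resolve_left two_ne_zero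
  show MulOpposite.op _ * MulOpposite.op _ = _
  rw [← MulOpposite.op_mul, h, MulOpposite.op_zero]

/-- adjoint of left multiplication -/
def dag : Lam M →ₐ[ℝ] (Module.End ℝ (Lam M))ᵐᵒᵖ :=
  (ExteriorAlgebra.lift ℝ ⟨dagV, dagV_sq⟩ :
    ExteriorAlgebra ℝ (Fin M × Fin M → ℝ) →ₐ[ℝ] (Module.End ℝ (Lam M))ᵐᵒᵖ)

theorem dag_th (a b : Fin M) : dag (th a b) = MulOpposite.op (ct a b : Module.End ℝ (Lam M)) := by
  have h : (ExteriorAlgebra.lift ℝ ⟨dagV, dagV_sq⟩ :
    ExteriorAlgebra ℝ (Fin M × Fin M → ℝ) →ₐ[ℝ] (Module.End ℝ (Lam M))ᵐᵒᵖ)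
    (ExteriorAlgebra.ι ℝ (Pi.single (a, b) 1)) = dagV (Pi.single (a, b) 1) :=
    ExteriorAlgebra.lift_ι_apply _ _ _ _
  refine Eq.trans h ?_
  show MulOpposite.op _ = _
  congr 1
  rw [Finset.sum_eq_single (a, b)]
  · rw [Pi.single_eq_same, one_smul]
  · intro q _ hq
    rw [Pi.single_eq_of_ne hq, zero_smul]
  · intro h
    exact absurd (Finset.mem_univ _) h

/-- the inner product -/
def ip (x y : Lam M) : ℝ := eps ((dag x).unop y)

theorem ip_add_left (x y z : Lam M) : ip (x + y) z = ip x z + ip y z := by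
  unfold ip
  rw [map_add, MulOpposite.unop_add, LinearMap.add_apply, map_add]

theorem ip_smul_left (r : ℝ) (x z : Lam M) : ip (r • x) z = r * ip x z := by
  unfold ip
  rw [map_smul, MulOpposite.unop_smul, LinearMap.smul_apply, map_smul, smul_eq_mul]

theorem ip_add_right (x y z : Lam M) : ip x (y + z) = ip x y + ip x z := by
  unfold ip
  rw [map_add, map_add]

theorem ip_smul_right (r : ℝ) (x z : Lam M) : ip x (r • z) = r * ip x z := by
  unfold ip
  rw [map_smul, map_smul, smul_eq_mul]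

theorem ip_one (y : Lam M) : ip 1 y = eps y := by
  unfold ip
  rw [map_one]
  rfl

theorem ip_zero_left (y : Lam M) : ip 0 y = 0 := by
  have := ip_smul_left 0 0 y
  rwa [zero_smul, zero_mul] at this

theorem ip_zero_right (y : Lam M) : ip y 0 = 0 := by
  have := ip_smul_right 0 y 0
  rwa [zero_smul, zero_mul] at this

theorem ip_th_mul (a b : Fin M) (x y : Lam M) : ip (th a b * x) y = ip x (ct a b y) := by
  unfold ip
  rw [map_mul, dag_th, MulOpposite.unop_mul, MulOpposite.unop_op, Module.End.mul_apply]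

theorem ip_neg_right (x z : Lam M) : ip x (-z) = - ip x z := by
  have := ip_smul_right (-1) x z
  rwa [neg_one_smul, neg_one_mul] at this

theorem ip_neg_left (x z : Lam M) : ip (-x) z = - ip x z := by
  have := ip_smul_left (-1) x z
  rwa [neg_one_smul, neg_one_mul] at this

theorem ip_sub_right (x y z : Lam M) : ip x (y - z) = ip x y - ip x z := by
  rw [sub_eq_add_neg, ip_add_right, ip_neg_right, sub_eq_add_neg]

theorem ip_sub_left (x y z : Lam M) : ip (x - y) z = ip x z - ip y z := by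
  rw [sub_eq_add_neg, ip_add_left, ip_neg_left, sub_eq_add_neg]

theorem ip_mul_th (a b : Fin M) (x y : Lam M) : ip x (th a b * y) = ip (ct a b x) y := by
  induction x using lam_induction generalizing y with
  | h1 => rw [ip_one, map_mul, eps_th, zero_mul, ct_one, ip_zero_left]
  | hs r x hx => rw [ip_smul_left, hx, map_smul, ip_smul_left]
  | ha x z hx hz => rw [ip_add_left, hx, hz, map_add, ip_add_left]
  | hm c d x hx =>
    rw [ip_th_mul, ct_th_mul, ct_th_mul, ip_sub_right, ip_sub_left, hx, ip_th_mul]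
    by_cases h : a = c ∧ b = d
    · rw [if_pos h, if_pos ⟨h.1.symm, h.2.symm⟩]
    · rw [if_neg h, if_neg (fun h' => h ⟨h'.1.symm, h'.2.symm⟩), ip_zero_left, ip_zero_right]

theorem ip_one_right (y : Lam M) : ip y 1 = eps y := by
  induction y using lam_induction with
  | h1 => rw [ip_one]
  | hs r x hx => rw [ip_smul_left, hx, map_smul, smul_eq_mul]
  | ha x z hx hz => rw [ip_add_left, hx, hz, map_add]
  | hm c d x hx => rw [ip_th_mul, ct_one, ip_zero_right, map_mul, eps_th, zero_mul]

theorem ip_symm (x y : Lam M) : ip x y = ip y x := by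
  induction x using lam_induction generalizing y with
  | h1 => rw [ip_one, ip_one_right]
  | hs r x hx => rw [ip_smul_left, hx, ip_smul_right]
  | ha x z hx hz => rw [ip_add_left, hx, hz, ip_add_right]
  | hm c d x hx => rw [ip_th_mul, hx, ip_mul_th]

/-- the elementary projection killing a generator -/
def prj (p : Fin M × Fin M) : Module.End ℝ (Lam M) :=
  1 - LinearMap.mulLeft ℝ (th p.1 p.2) * ct p.1 p.2

theorem prj_apply (p : Fin M × Fin M) (x : Lam M) :
    prj p x = x - th p.1 p.2 * ct p.1 p.2 x := rfl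

theorem prj_th_self (p : Fin M × Fin M) (x : Lam M) : prj p (th p.1 p.2 * x) = 0 := by
  rw [prj_apply, ct_th_mul, if_pos ⟨rfl, rfl⟩, mul_sub, ← mul_assoc, th_mul_self, zero_mul,
    sub_zero, sub_self]

theorem prj_th_ne (p q : Fin M × Fin M) (h : p ≠ q) (x : Lam M) :
    prj p (th q.1 q.2 * x) = th q.1 q.2 * prj p x := by
  have h' : ¬ (p.1 = q.1 ∧ p.2 = q.2) := fun h' => h (Prod.ext h'.1 h'.2)
  rw [prj_apply, ct_th_mul, if_neg h', prj_apply, zero_sub, mul_neg, ← mul_assoc, th_mul_th,
    mul_sub, neg_mul, mul_assoc]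
  simp

theorem prj_one (p : Fin M × Fin M) : prj p (1 : Lam M) = 1 := by
  rw [prj_apply, ct_one, mul_zero, sub_zero]

theorem prjL_one (l : List (Fin M × Fin M)) : (l.map prj).prod (1 : Lam M) = 1 := by
  induction l with
  | nil => rfl
  | cons p l ih => rw [List.map_cons, List.prod_cons, Module.End.mul_apply, ih, prj_one]

theorem prjL_th_notMem (l : List (Fin M × Fin M)) (q : Fin M × Fin M) (hq : q ∉ l) (x : Lam M) :
    (l.map prj).prod (th q.1 q.2 * x) = th q.1 q.2 * (l.map prj).prod x := by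
  induction l with
  | nil => rfl
  | cons p l ih =>
    rw [List.mem_cons, not_or] at hq
    rw [List.map_cons, List.prod_cons, Module.End.mul_apply, ih hq.2, prj_th_ne _ _ (Ne.symm hq.1),
      Module.End.mul_apply]

theorem prjL_th_mem (l : List (Fin M × Fin M)) (q : Fin M × Fin M) (hq : q ∈ l) (x : Lam M) :
    (l.map prj).prod (th q.1 q.2 * x) = 0 := by
  induction l with
  | nil => exact absurd hq List.not_mem_nil
  | cons p l ih =>
    rw [List.map_cons, List.prod_cons, Module.End.mul_apply]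
    by_cases h : q ∈ l
    · rw [ih h, map_zero]
    · rw [prjL_th_notMem l q h]
      have hqp : q = p := by
        rcases List.mem_cons.mp hq with h1 | h1
        · exact h1
        · exact absurd h1 h
      rw [hqp, prj_th_self]

theorem prjL_univ (x : Lam M) :
    ((Finset.univ : Finset (Fin M × Fin M)).toList.map prj).prod x = eps x • (1 : Lam M) := by
  induction x using lam_induction with
  | h1 => rw [prjL_one, map_one, one_smul]
  | hs r x hx => rw [map_smul, hx, map_smul, smul_assoc]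
  | ha x y hx hy => rw [map_add, hx, hy, map_add, add_smul]
  | hm a b x hx =>
    rw [prjL_th_mem _ (a, b) (by simp), map_mul, eps_th, zero_mul, zero_smul]

theorem eq_eps_of_ct (x : Lam M) (h : ∀ a b, ct a b x = 0) : x = eps x • (1 : Lam M) := by
  rw [← prjL_univ]
  have gen : ∀ l : List (Fin M × Fin M), (l.map prj).prod x = x := by
    intro l
    induction l with
    | nil => rfl
    | cons p l ih =>
      rw [List.map_cons, List.prod_cons, Module.End.mul_apply, ih, prj_apply, h, mul_zero, sub_zero]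
  exact (gen _).symm

theorem ip_self_aux (s : Finset (Fin M × Fin M)) : ∀ x : Lam M, (∀ p, p ∉ s → ct p.1 p.2 x = 0) →
    0 ≤ ip x x ∧ (ip x x = 0 → x = 0) := by
  induction s using Finset.induction_on with
  | empty =>
    intro x hx
    have e := eq_eps_of_ct x (fun a b => hx (a, b) (Finset.notMem_empty _))
    have e2 : ip x x = eps x ^ 2 := by
      nth_rewrite 1 [e]
      rw [ip_smul_left, ip_one]
      ring
    rw [e2]
    refine ⟨sq_nonneg _, fun h => ?_⟩
    have h0 : eps x = 0 := by simpa using h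
    rw [e, h0, zero_smul]
  | insert p s hp ih =>
    intro x hx
    set x1 := ct p.1 p.2 x with hx1
    set x0 := x - th p.1 p.2 * x1 with hx0
    have c1 : ct p.1 p.2 x1 = 0 := ct_ct_self _ _ _
    have c0 : ct p.1 p.2 x0 = 0 := by
      rw [hx0, map_sub, ct_th_mul, if_pos ⟨rfl, rfl⟩, c1, mul_zero, sub_zero, ← hx1, sub_self]
    have k1 : ∀ q, q ∉ s → ct q.1 q.2 x1 = 0 := by
      intro q hq
      by_cases h : q = p
      · rw [h]; exact c1
      · rw [hx1, ct_ct, hx q (by rw [Finset.mem_insert, not_or]; exact ⟨h, hq⟩), map_zero, neg_zero]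
    have k0 : ∀ q, q ∉ s → ct q.1 q.2 x0 = 0 := by
      intro q hq
      by_cases h : q = p
      · rw [h]; exact c0
      · have h' : ¬ (q.1 = p.1 ∧ q.2 = p.2) := fun h' => h (Prod.ext h'.1 h'.2)
        rw [hx0, map_sub, hx q (by rw [Finset.mem_insert, not_or]; exact ⟨h, hq⟩), ct_th_mul,
          if_neg h', k1 q hq, mul_zero, sub_zero, sub_zero]
    have ex : x = x0 + th p.1 p.2 * x1 := by rw [hx0]; abel
    have e : ip x x = ip x0 x0 + ip x1 x1 := by
      rw [ex, ip_add_left, ip_add_right, ip_add_right, ip_mul_th, c0, ip_zero_left, ip_th_mul, c0,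
        ip_zero_right, ip_th_mul, ct_th_mul, if_pos ⟨rfl, rfl⟩, c1, mul_zero, sub_zero]
      ring
    obtain ⟨n0, z0⟩ := ih x0 k0
    obtain ⟨n1, z1⟩ := ih x1 k1
    rw [e]
    refine ⟨add_nonneg n0 n1, fun h => ?_⟩
    have h0 : ip x0 x0 = 0 := by linarith
    have h1 : ip x1 x1 = 0 := by linarith
    rw [ex, z0 h0, z1 h1, mul_zero, add_zero]

theorem ip_self_nonneg (x : Lam M) : 0 ≤ ip x x :=
  (ip_self_aux Finset.univ x (fun p hp => absurd (Finset.mem_univ p) hp)).1

theorem eq_zero_of_ip_self (x : Lam M) (h : ip x x = 0) : x = 0 :=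
  (ip_self_aux Finset.univ x (fun p hp => absurd (Finset.mem_univ p) hp)).2 h

/-- the inner product as a bilinear map -/
def ipB : Lam M →ₗ[ℝ] Lam M →ₗ[ℝ] ℝ :=
  LinearMap.mk₂ ℝ ip ip_add_left ip_smul_left ip_add_right ip_smul_right

theorem ipB_apply (x y : Lam M) : ipB x y = ip x y := rfl

instance : Module.Finite ℝ (Lam M) := by
  have h : Module.Finite ℝ (ExteriorAlgebra ℝ (Fin M × Fin M → ℝ)) := by
    let _ : LinearOrder (Fin M × Fin M) := LinearOrder.lift' (toLex : Fin M × Fin M → Fin M ×ₗ Fin M) toLex.injective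
    exact Module.Finite.of_basis (Pi.basisFun ℝ (Fin M × Fin M)).ExteriorAlgebra
  exact h

end

end Pool.Agent.E8helper44
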