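import Pool.Agent.E8helper44.Wt
import Pool.Agent.E8helper44.Chain

set_option autoImplicit false

namespace Pool.Agent.E8helper44

open MvPolynomial Equiv

noncomputable section

variable {n : ℕ}

/-- embedding of polynomial rings -/
def io : MvPolynomial (Fin n) ℤ →ₐ[ℤ] MvPolynomial ℕ ℤ := rename Fin.val

theorem io_mem (f : MvPolynomial (Fin n) ℤ) : io f ∈ Sn n := by
  induction f using MvPolynomial.induction_on with
  | C a =>
    have : io (C a : MvPolynomial (Fin n) ℤ) = algebraMap ℤ _ a := by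
      unfold io
      rw [rename_C]; rfl
    rw [this]
    exact Subalgebra.algebraMap_mem _ _
  | add p q hp hq => rw [map_add]; exact add_mem hp hq
  | mul_X p i hp =>
    rw [map_mul]
    refine mul_mem hp ?_
    unfold io
    rw [rename_X]
    exact X_mem_Sn n i.val i.2

theorem io_xk (κ : Fin n → ℕ) (l : ℕ → ℕ) (h : ∀ i : Fin n, κ i = l i.val) :
    io (xk κ) = ∏ i ∈ Finset.range n, (X i : MvPolynomial ℕ ℤ) ^ l i := by
  rw [Finset.prod_range]
  unfold io xk
  rw [map_prod]
  refine Finset.prod_congr rfl fun i _ => ?_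
  rw [map_pow, rename_X, h]

theorem io_Dw : io (Dw (Fin.revPerm : Perm (Fin n))) = Dl n := by
  unfold io Dw Dl
  rw [map_prod, Finset.prod_sigma']
  refine Finset.prod_bij (fun p _ => (⟨(Fin.rev p.1).val, (Fin.rev p.2).val⟩ : (_ : ℕ) × ℕ)) ?_ ?_ ?_ ?_
  · intro p hp
    rw [Is_rev] at hp
    unfold Pairs at hp
    rw [Finset.mem_filter] at hp
    rw [Finset.mem_sigma, Finset.mem_range, Finset.mem_range]
    refine ⟨(Fin.rev p.1).2, ?_⟩
    exact Fin.rev_lt_rev.mpr hp.2
  · intro p _ q _ h
    rw [Sigma.mk.injEq] at h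
    obtain ⟨e1, e2⟩ := h
    have e2' := eq_of_heq e2
    exact Prod.ext (Fin.rev_injective (Fin.ext e1)) (Fin.rev_injective (Fin.ext e2'))
  · rintro ⟨j, i⟩ h
    rw [Finset.mem_sigma, Finset.mem_range, Finset.mem_range] at h
    simp only at h
    refine ⟨(Fin.rev ⟨j, h.1⟩, Fin.rev ⟨i, h.2.trans h.1⟩), ?_, ?_⟩
    · rw [Is_rev]
      unfold Pairs
      rw [Finset.mem_filter]
      refine ⟨Finset.mem_univ _, Fin.rev_lt_rev.mpr ?_⟩
      exact h.2
    · simp only [Fin.rev_rev]
  · intro p _
    rw [map_sub, rename_X, rename_X]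
    rfl

theorem io_swap (i j : Fin n) (hij : j.val = i.val + 1) (f : MvPolynomial (Fin n) ℤ) :
    io (rename (Equiv.swap i j) f) = rename (Equiv.swap i.val (i.val + 1)) (io f) := by
  unfold io
  rw [rename_rename, rename_rename]
  congr 1
  have : (Fin.val ∘ ⇑(Equiv.swap i j)) = (⇑(Equiv.swap i.val (i.val + 1)) ∘ Fin.val) := by
    ext x
    simp only [Function.comp_apply]
    rw [← hij]
    exact Fin.val_injective.map_swap i j x
  rw [this]

theorem rearr (z : Perm (Fin n)) (hz : z ≠ Fin.revPerm) (N : ℕ) :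
    ∑ j : Fin n, (z j).val * (N * (n - 1 - j.val)) + N ≤ N * ∑ j : Fin n, j.val * j.val := by
  have h1 : ∑ j : Fin n, (z j).val * (N * (n - 1 - j.val)) =
      N * ∑ j : Fin n, (z j).val * (Fin.rev j).val := by
    rw [Finset.mul_sum]
    refine Finset.sum_congr rfl fun j _ => ?_
    rw [Fin.val_rev, show n - (j.val + 1) = n - 1 - j.val by omega]
    ring
  rw [h1]
  have h2 : ∑ j : Fin n, (z j).val * (Fin.rev j).val + 1 ≤ ∑ j : Fin n, j.val * j.val := by
    have a1 : ∑ j : Fin n, (z j).val * (z j).val = ∑ j : Fin n, j.val * j.val :=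
      Equiv.sum_comp z (fun j => j.val * j.val)
    have a2 : ∑ j : Fin n, (Fin.rev j).val * (Fin.rev j).val = ∑ j : Fin n, j.val * j.val :=
      Equiv.sum_comp Fin.revPerm (fun j => j.val * j.val)
    obtain ⟨k, hk⟩ : ∃ k, z k ≠ Fin.rev k := by
      by_contra hcon
      push Not at hcon
      exact hz (Equiv.ext hcon)
    have a3 : (0 : ℤ) < ∑ j : Fin n, (((z j).val : ℤ) - ((Fin.rev j).val : ℤ)) ^ 2 := by
      apply Finset.sum_pos' (fun j _ => sq_nonneg _)
      refine ⟨k, Finset.mem_univ _, ?_⟩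
      have hne : ((z k).val : ℤ) - ((Fin.rev k).val : ℤ) ≠ 0 := by
        intro h
        apply hk
        apply Fin.ext
        have := sub_eq_zero.mp h
        exact_mod_cast this
      positivity
    have a4 : ∑ j : Fin n, (((z j).val : ℤ) - ((Fin.rev j).val : ℤ)) ^ 2 =
        ((∑ j : Fin n, (z j).val * (z j).val : ℕ) : ℤ) +
        ((∑ j : Fin n, (Fin.rev j).val * (Fin.rev j).val : ℕ) : ℤ) -
        2 * ((∑ j : Fin n, (z j).val * (Fin.rev j).val : ℕ) : ℤ) := by
      push_cast
      rw [← Finset.sum_add_distrib, Finset.mul_sum, ← Finset.sum_sub_distrib]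
      refine Finset.sum_congr rfl fun j _ => ?_
      ring
    rw [a1, a2] at a4
    have a5 : (0 : ℤ) < ((∑ j : Fin n, j.val * j.val : ℕ) : ℤ) + ((∑ j : Fin n, j.val * j.val : ℕ) : ℤ) -
      2 * ((∑ j : Fin n, (z j).val * (Fin.rev j).val : ℕ) : ℤ) := by rw [← a4]; exact a3
    omega
  calc N * ∑ j : Fin n, (z j).val * (Fin.rev j).val + N
      = N * (∑ j : Fin n, (z j).val * (Fin.rev j).val + 1) := by ring
    _ ≤ _ := Nat.mul_le_mul_left _ h2

section D

variable (D : Perm (Fin n) → MvPolynomial (Fin n) ℤ → MvPolynomial (Fin n) ℤ)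
  (h1 : ∀ f, D 1 f = f)
  (h2 : ∀ (w : Perm (Fin n)) (i j : Fin n), j.val = i.val + 1 → iv (Equiv.swap i j * w) < iv w →
    ∀ f, (X i - X j) * D w f = D (Equiv.swap i j * w) f
            - rename (⇑(Equiv.swap i j)) (D (Equiv.swap i j * w) f))

include h1 h2 in
theorem D_NN {M : ℕ} (hM : n ≤ M) (w : Perm (Fin n)) (f : MvPolynomial (Fin n) ℤ)
    (hf : io f ∈ NN M) : io (D w f) ∈ NN M := by
  induction h : iv w using Nat.strong_induction_on generalizing w with
  | _ k ih =>
    by_cases hw : w = 1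
    · subst hw
      rw [h1]; exact hf
    · obtain ⟨i, j, hij, hd, _⟩ := exists_descent w hw
      have h3 := ih (iv (Equiv.swap i j * w)) (by omega) (Equiv.swap i j * w) rfl
      have e := h2 w i j hij (by omega) f
      refine NN_dd i.val (by have := j.2; omega) _ _ h3 ?_
      have e2 := congrArg io e
      rw [map_mul, map_sub, map_sub, io_swap i j hij] at e2
      unfold io at e2 ⊢
      rw [rename_X, rename_X, hij] at e2
      exact e2

include h1 h2 in
theorem final (E : Perm (Fin n) → Perm (Fin n) → MvPolynomial (Fin n) ℤ → MvPolynomial (Fin n) ℤ)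
    (h3 : ∀ (w : Perm (Fin n)) (f g : MvPolynomial (Fin n) ℤ),
      D w (f * g) = ∑ v : Perm (Fin n), E w v f * D v g)
    (u v w : Perm (Fin n)) (m : Fin n →₀ ℕ) :
    0 ≤ coeff m (E w v (D (u⁻¹ * Fin.revPerm) (∏ i : Fin n, X i ^ (n - 1 - (i : ℕ))))) := by
  obtain ⟨Cr, hCr⟩ := lead D h1 h2 (Fin.revPerm : Perm (Fin n))
  set S := D (u⁻¹ * Fin.revPerm) (∏ i : Fin n, X i ^ (n - 1 - (i : ℕ))) with hS
  set ψ : Fin n → ℕ := fun j => j.val with hψ
  set T : ℕ := ∑ j, ψ j with hT
  set Δ := Dw (Fin.revPerm : Perm (Fin n)) with hΔ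
  set N : ℕ := 1 + (∑ v1, wd ψ (E w v1 S * Δ)) + (wd ψ (E w v S) + Cr * T) + ∑ j, m j with hN
  set κ : Fin n → ℕ := fun j => N * (n - 1 - j.val) with hκ
  set G := D (v⁻¹ * Fin.revPerm) (xk κ) with hG
  set F := D w (S * G) with hF
  set b : Fin n →₀ ℕ := m + Finsupp.equivFunOnFinite.symm (fun j => N * j.val) with hb
  set Q : ℕ := ∑ j : Fin n, j.val * j.val with hQ
  have hwtb : N * Q ≤ wt ψ b := by
    unfold wt
    rw [hQ, Finset.mul_sum]
    refine Finset.sum_le_sum fun j _ => ?_
    rw [hb, Finsupp.add_apply, mul_add]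
    have : ψ j * (Finsupp.equivFunOnFinite.symm (fun j : Fin n => N * j.val)) j = N * (j.val * j.val) := by
      rw [hψ]
      simp only [Finsupp.equivFunOnFinite_symm_apply_apply]
      ring
    rw [this]
    omega
  have hrearr : ∀ z : Perm (Fin n), z ≠ Fin.revPerm → ∑ j, ψ (z j) * κ j + N ≤ N * Q :=
    fun z hz => rearr z hz N
  have hmul_small : ∀ (p g : MvPolynomial (Fin n) ℤ), (g = 0 ∨ wd ψ p + wd ψ g < N * Q) →
      coeff b (p * g) = 0 := by
    intro p g h
    rcases h with h | h
    · rw [h, mul_zero, coeff_zero]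
    · apply coeff_zero_of_wd ψ
      have := wd_mul_le ψ p g
      omega
  -- the terms with v1 different from v vanish
  have hne : ∀ v1, v1 ≠ v → coeff b (E w v1 S * D v1 G * Δ) = 0 := by
    intro v1 hv1
    have e1 : E w v1 S * D v1 G * Δ = (E w v1 S * Δ) * D v1 G := by ring
    rw [e1]
    apply hmul_small
    rw [hG, D_comp D h1 h2]
    split_ifs with hc
    · set x := v1 * (v⁻¹ * Fin.revPerm) with hx
      have hxne : x ≠ Fin.revPerm := by
        intro hxr
        apply hv1
        rw [hx, ← mul_assoc] at hxr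
        have h5 : v1 * v⁻¹ = 1 := mul_eq_right.mp hxr
        exact mul_inv_eq_one.mp h5
      have hxlt : iv x < iv (Fin.revPerm : Perm (Fin n)) :=
        lt_of_le_of_ne (iv_le_rev x) (fun h => hxne (eq_rev_of_iv x h))
      rcases D_Bd D h1 h2 κ x ψ with h | ⟨z, hz, h⟩
      · exact Or.inl h
      · right
        have hzr : z ≠ Fin.revPerm := by
          rintro rfl
          omega
        have h6 := hrearr z hzr
        have h7 : wd ψ (E w v1 S * Δ) ≤ ∑ v1, wd ψ (E w v1 S * Δ) :=
          Finset.single_le_sum (f := fun v1 => wd ψ (E w v1 S * Δ)) (fun _ _ => Nat.zero_le _)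
            (Finset.mem_univ v1)
        omega
    · exact Or.inl rfl
  -- the main term
  have hmain : coeff b (E w v S * D v G * Δ) = coeff m (E w v S) := by
    have e0 : D v G = D Fin.revPerm (xk κ) := by
      rw [hG, D_comp D h1 h2]
      have : v * (v⁻¹ * Fin.revPerm) = Fin.revPerm := by
        rw [← mul_assoc, mul_inv_cancel, one_mul]
      rw [this, if_pos (iv_complement v).symm]
    set R := Δ * D Fin.revPerm (xk κ) - rename (Fin.revPerm : Perm (Fin n)) (xk κ) with hR
    have e1 : E w v S * D v G * Δ = E w v S * rename (Fin.revPerm : Perm (Fin n)) (xk κ) +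
        E w v S * R := by
      rw [e0, hR]; ring
    have e2 : coeff b (E w v S * R) = 0 := by
      apply hmul_small
      rcases hCr κ ψ with h | ⟨z, hz, h⟩
      · exact Or.inl h
      · right
        have hzr : z ≠ Fin.revPerm := by
          rintro rfl
          omega
        have h6 := hrearr z hzr
        have h8 : wd ψ R ≤ Cr * T + ∑ j, ψ (z j) * κ j := h
        omega
    have e3 : rename (Fin.revPerm : Perm (Fin n)) (xk κ) =
        monomial (Finsupp.equivFunOnFinite.symm (fun j : Fin n => N * j.val)) (1 : ℤ) := by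
      rw [← xk_eq]
      unfold xk
      rw [map_prod]
      rw [← Equiv.prod_comp (Fin.revPerm : Perm (Fin n)) (fun j : Fin n => (X j : MvPolynomial (Fin n) ℤ) ^ (N * j.val))]
      refine Finset.prod_congr rfl fun j _ => ?_
      rw [map_pow, rename_X, hκ]
      simp only [Fin.revPerm_apply, Fin.val_rev]
      congr 2
      omega
    rw [e1, coeff_add, e2, add_zero, e3, hb, coeff_mul_monomial, mul_one]
  have hA : coeff b (F * Δ) = coeff m (E w v S) := by
    rw [hF, h3, Finset.sum_mul, coeff_sum, Finset.sum_eq_single v]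
    · exact hmain
    · intro v1 _ hv1
      exact hne v1 hv1
    · intro h; exact absurd (Finset.mem_univ _) h
  rw [← hA]
  -- positivity
  set M : ℕ := N * n + (∑ j, m j) + n + 1 with hM
  have hnM : n < M := by omega
  have hSN : io S ∈ NN M := by
    rw [hS]
    apply D_NN D h1 h2 hnM.le
    have : io (∏ i : Fin n, X i ^ (n - 1 - (i : ℕ)) : MvPolynomial (Fin n) ℤ) =
        ∏ i ∈ Finset.range n, (X i : MvPolynomial ℕ ℤ) ^ (n - 1 - i) :=
      io_xk (fun i : Fin n => n - 1 - i.val) (fun i => n - 1 - i) (fun _ => rfl)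
    rw [this]
    exact dom_NN n hnM _ (fun i j hij hj => by omega)
  have hGN : io G ∈ NN M := by
    rw [hG]
    apply D_NN D h1 h2 hnM.le
    rw [io_xk κ (fun i => N * (n - 1 - i)) (fun _ => rfl)]
    exact dom_NN n hnM _ (fun i j hij hj => Nat.mul_le_mul_left _ (by omega))
  have hFN : io F ∈ NN M := by
    rw [hF]
    apply D_NN D h1 h2 hnM.le
    rw [map_mul]
    exact NN_mul hSN hGN
  set b' : ℕ → ℕ := fun i => (if h : i < n then m ⟨i, h⟩ else 0) + N * i with hb'
  have hmle : ∀ j : Fin n, m j ≤ ∑ j, m j := fun j =>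
    Finset.single_le_sum (f := fun j => m j) (fun _ _ => Nat.zero_le _) (Finset.mem_univ j)
  have hpos := coeff_nonneg (M := M) n hnM (io F) hFN (io_mem F) b'
    (by
      intro i j hij hj
      rcases hij.eq_or_lt with rfl | hlt
      · exact le_rfl
      · rw [hb']
        simp only
        rw [dif_pos (hlt.trans hj), dif_pos hj]
        have h5 := hmle ⟨i, hlt.trans hj⟩
        have h6 : N * (i + 1) ≤ N * j := Nat.mul_le_mul_left _ hlt
        have h7 : N * (i + 1) = N * i + N := by ring
        omega)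
    (by
      intro i hi
      rw [hb']
      simp only
      rw [dif_pos hi]
      have h5 := hmle ⟨i, hi⟩
      have h6 : N * i ≤ N * n := Nat.mul_le_mul_left _ hi.le
      omega)
  have hmu : mu n b' = Finsupp.mapDomain Fin.val b := by
    ext i
    rw [mu_apply]
    split_ifs with h
    · have h5 : i = Fin.val (⟨i, h⟩ : Fin n) := rfl
      conv_rhs => rw [h5]
      rw [Finsupp.mapDomain_apply Fin.val_injective, hb, Finsupp.add_apply, hb']
      simp only [Finsupp.equivFunOnFinite_symm_apply_apply]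
      rw [dif_pos h]
    · rw [Finsupp.mapDomain_of_notMem_range]
      rintro ⟨x, rfl⟩
      exact h x.2
  rw [hmu, ← io_Dw, ← map_mul] at hpos
  unfold io at hpos
  rw [coeff_rename_mapDomain _ Fin.val_injective] at hpos
  exact hpos

end D

end

end Pool.Agent.E8helper44
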