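import Pool.Agent.E8helper44.Push

set_option autoImplicit false

namespace Pool.Agent.E8helper44

noncomputable section

variable {M : ℕ}

theorem Bas.add {x y : Lam M} (hx : Bas x) (hy : Bas y) : Bas (x + y) :=
  ⟨fun k => by rw [map_add, hx.h, hy.h, add_zero], fun k => by rw [map_add, hx.l, hy.l, add_zero]⟩

theorem Bas.neg {x : Lam M} (hx : Bas x) : Bas (-x) :=
  ⟨fun k => by rw [map_neg, hx.h, neg_zero], fun k => by rw [map_neg, hx.l, neg_zero]⟩

theorem Bas.sub {x y : Lam M} (hx : Bas x) (hy : Bas y) : Bas (x - y) := by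
  rw [sub_eq_add_neg]; exact hx.add hy.neg

theorem bas_zero : Bas (0 : Lam M) := ⟨fun _ => map_zero _, fun _ => map_zero _⟩

theorem bas_one : Bas (1 : Lam M) := ⟨fun k => ct_one k k, fun k => (isDer_lie k k).one⟩

theorem Bas.mul {x y : Lam M} (hx : Bas x) (hy : Bas y) : Bas (x * y) :=
  ⟨fun k => by rw [ct_mul, hx.h, hy.h, zero_mul, mul_zero, add_zero],
    fun k => by rw [isDer_lie, hx.l, hy.l, zero_mul, mul_zero, add_zero]⟩

/-- closed even basic elements -/
structure Cl (x : Lam M) : Prop where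
  e : sg x = x
  c : dd x = 0
  b : Bas x

theorem Cl.add {x y : Lam M} (hx : Cl x) (hy : Cl y) : Cl (x + y) :=
  ⟨by rw [map_add, hx.e, hy.e], by rw [map_add, hx.c, hy.c, add_zero], hx.b.add hy.b⟩

theorem Cl.neg {x : Lam M} (hx : Cl x) : Cl (-x) :=
  ⟨by rw [map_neg, hx.e], by rw [map_neg, hx.c, neg_zero], hx.b.neg⟩

theorem cl_zero : Cl (0 : Lam M) := ⟨map_zero _, map_zero _, bas_zero⟩

theorem cl_one : Cl (1 : Lam M) := ⟨map_one _, isADer_dd.one, bas_one⟩

theorem Cl.mul {x y : Lam M} (hx : Cl x) (hy : Cl y) : Cl (x * y) :=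
  ⟨by rw [map_mul, hx.e, hy.e], by rw [isADer_dd.mul, hx.c, hy.c, zero_mul, mul_zero, add_zero],
    hx.b.mul hy.b⟩

theorem cl_dth (k : Fin M) : Cl (dth k k) := by
  refine ⟨sg_dth k k, dd_dth k k, ⟨fun j => ?_, fun j => ?_⟩⟩
  · rw [ct_dth]
    split_ifs with h
    · rw [h, sub_self]
    · rw [sub_self]
  · rw [← dd_th, lie_dd, lie_th]
    split_ifs with h
    · rw [h, sub_self, map_zero]
    · rw [sub_self, map_zero]

/-- evaluation of the variables in the centre -/
def xc (M : ℕ) (k : ℕ) : Subalgebra.center ℝ (Lam M) :=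
  if h : k < M then ⟨dth ⟨k, h⟩ ⟨k, h⟩, by
    rw [Subalgebra.mem_center_iff]
    intro b
    exact (even_comm (sg_dth _ _) b).symm⟩ else 0

/-- evaluation of polynomials in the centre -/
def evc (M : ℕ) : MvPolynomial ℕ ℤ →+* Subalgebra.center ℝ (Lam M) :=
  MvPolynomial.eval₂Hom (Int.castRingHom _) (xc M)

/-- evaluation of polynomials -/
def ev (M : ℕ) : MvPolynomial ℕ ℤ →+* Lam M :=
  (Subalgebra.val (Subalgebra.center ℝ (Lam M)) : _ →+* Lam M).comp (evc M)

theorem ev_apply (f : MvPolynomial ℕ ℤ) : ev M f = (evc M f : Lam M) := rfl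

theorem ev_X (k : ℕ) (h : k < M) : ev M (MvPolynomial.X k) = dth ⟨k, h⟩ ⟨k, h⟩ := by
  rw [ev_apply]
  unfold evc
  rw [MvPolynomial.eval₂Hom_X', xc, dif_pos h]

theorem ev_X_ge (k : ℕ) (h : ¬ k < M) : ev M (MvPolynomial.X k) = 0 := by
  rw [ev_apply]
  unfold evc
  rw [MvPolynomial.eval₂Hom_X', xc, dif_neg h]
  rfl

theorem ev_int (k : ℤ) : ev M (MvPolynomial.C k) = (k : Lam M) := by
  have : (MvPolynomial.C k : MvPolynomial ℕ ℤ) = (k : MvPolynomial ℕ ℤ) := by simp
  rw [this, map_intCast]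

theorem cl_natCast (n : ℕ) : Cl (n : Lam M) := by
  induction n with
  | zero => rw [Nat.cast_zero]; exact cl_zero
  | succ n ih => rw [Nat.cast_succ]; exact ih.add cl_one

theorem cl_intCast (n : ℤ) : Cl (n : Lam M) := by
  obtain ⟨k, rfl | rfl⟩ := n.eq_nat_or_neg
  · rw [Int.cast_natCast]; exact cl_natCast k
  · rw [Int.cast_neg, Int.cast_natCast]; exact (cl_natCast k).neg

theorem cl_ev (f : MvPolynomial ℕ ℤ) : Cl (ev M f) := by
  induction f using MvPolynomial.induction_on with
  | C a => rw [ev_int]; exact cl_intCast a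
  | add p q hp hq => rw [map_add]; exact hp.add hq
  | mul_X p n hp =>
    rw [map_mul]
    refine hp.mul ?_
    by_cases h : n < M
    · rw [ev_X n h]; exact cl_dth _
    · rw [ev_X_ge n h]; exact cl_zero

theorem eps_dth (a b : Fin M) : eps (dth a b) = 0 := by
  unfold dth
  rw [map_neg, map_sum, Finset.sum_eq_zero, neg_zero]
  intro c _
  rw [map_mul, eps_th, zero_mul]

theorem eps_dd (x : Lam M) : eps (dd x) = 0 := by
  rw [dd_apply, map_sum]
  refine Finset.sum_eq_zero fun a _ => ?_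
  rw [map_sum]
  refine Finset.sum_eq_zero fun b _ => ?_
  rw [map_mul, eps_dth, zero_mul]

theorem eps_ev (f : MvPolynomial ℕ ℤ) : eps (ev M f) = (MvPolynomial.constantCoeff f : ℤ) := by
  induction f using MvPolynomial.induction_on with
  | C a => rw [ev_int, MvPolynomial.constantCoeff_C, map_intCast]
  | add p q hp hq => rw [map_add, map_add, hp, hq, map_add]; push_cast; rfl
  | mul_X p n hp =>
    rw [map_mul, map_mul, map_mul, MvPolynomial.constantCoeff_X, mul_zero]
    by_cases h : n < M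
    · rw [ev_X n h, eps_dth]; simp
    · rw [ev_X_ge n h, map_zero]; simp

/-- the set of positively representable polynomials -/
def NN (M : ℕ) : Set (MvPolynomial ℕ ℤ) :=
  {f | ∃ w ∈ PS M, Bas w ∧ ∃ y, Bas y ∧ w = ev M f + dd y}

theorem NN_mul {f g : MvPolynomial ℕ ℤ} (hf : f ∈ NN M) (hg : g ∈ NN M) : f * g ∈ NN M := by
  obtain ⟨w, hw, bw, y, hy, e⟩ := hf
  obtain ⟨w', hw', bw', y', hy', e'⟩ := hg
  have c' : dd w' = 0 := by rw [e', map_add, dd_dd, (cl_ev g).c, add_zero]
  refine ⟨w * w', PS_mul hw hw', bw.mul bw', ev M f * y' + y * w',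
    ((cl_ev f).b.mul hy').add (hy.mul bw'), ?_⟩
  rw [map_add, isADer_dd.mul, isADer_dd.mul, (cl_ev f).c, (cl_ev f).e, c', map_mul]
  conv_lhs => rw [e, add_mul]
  conv_lhs =>
    enter [1]
    rw [e']
  noncomm_ring

theorem NN_const {f : MvPolynomial ℕ ℤ} (hf : f ∈ NN M) : 0 ≤ MvPolynomial.constantCoeff f := by
  obtain ⟨w, hw, bw, y, hy, e⟩ := hf
  have h1 := PS_eps hw
  rw [e, map_add, eps_dd, add_zero, eps_ev] at h1
  exact_mod_cast h1

theorem NN_one : (1 : MvPolynomial ℕ ℤ) ∈ NN M :=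
  ⟨1, PS_one, bas_one, 0, bas_zero, by rw [map_one, map_zero, add_zero]⟩

/-- curvature-type elements -/
def Cu (a b p q : Fin M) : Lam M := dth p q + th p a * th a q + th p b * th b q

theorem sg_Cu (a b p q : Fin M) : sg (Cu a b p q) = Cu a b p q := by
  unfold Cu
  rw [map_add, map_add, map_mul, map_mul, sg_dth, sg_th, sg_th, sg_th, sg_th]
  noncomm_ring

theorem th_th_th (a b c d : Fin M) : th a b * th c d * th a b = 0 := by
  rw [th_mul_th a b c d, neg_mul, mul_assoc, th_mul_self, mul_zero, neg_zero]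

theorem Cu_diag (a b : Fin M) : Cu a b a a = dth a a + th a b * th b a := by
  unfold Cu
  rw [th_mul_self, add_zero]

theorem Cu_diag' (a b : Fin M) : Cu a b b b = dth b b + th b a * th a b := by
  unfold Cu
  rw [th_mul_self, add_zero]

theorem dd_Cu (a b : Fin M) : dd (Cu a b a b) =
    Cu a b a a * th a b - th a a * Cu a b a b + Cu a b a b * th b b - th a b * Cu a b b b := by
  have h1 : dd (Cu a b a b) = dth a a * th a b - th a a * dth a b + dth a b * th b b
      - th a b * dth b b := by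
    unfold Cu
    rw [map_add, map_add, dd_dth, isADer_dd.mul, isADer_dd.mul, sg_th, sg_th, dd_th, dd_th, dd_th]
    noncomm_ring
  rw [h1, Cu_diag, Cu_diag']
  have h2 : (dth a a + th a b * th b a) * th a b - th a a * Cu a b a b + Cu a b a b * th b b -
      th a b * (dth b b + th b a * th a b) =
      dth a a * th a b - th a a * dth a b + dth a b * th b b - th a b * dth b b
        - (th a a * th a a) * th a b + th a b * (th b b * th b b) := by
    unfold Cu
    noncomm_ring
  rw [h2, th_mul_self, th_mul_self]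
  noncomm_ring

/-- the determinant element -/
def C2 (a b : Fin M) : Lam M := Cu a b a a * Cu a b b b - Cu a b a b * Cu a b b a

theorem C2_eq (a b : Fin M) :
    dth a a * dth b b = C2 a b + dd (th b a * Cu a b a b) := by
  have cA := fun x => even_comm (sg_Cu a b a a) x
  have cB := fun x => even_comm (sg_Cu a b b b) x
  have cC := fun x => even_comm (sg_Cu a b a b) x
  have cD := fun x => even_comm (sg_Cu a b b a) x
  have hba : dth b a = Cu a b b a - th b a * th a a - th b b * th b a := by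
    unfold Cu; abel
  have haa : dth a a = Cu a b a a - th a b * th b a := by
    rw [Cu_diag]; abel
  have hbb : dth b b = Cu a b b b - th b a * th a b := by
    rw [Cu_diag']; abel
  rw [isADer_dd.mul, dd_th, sg_th, dd_Cu, hba, haa, hbb]
  unfold C2
  set A := Cu a b a a
  set B := Cu a b b b
  set C := Cu a b a b
  set D := Cu a b b a
  have e1 : (A - th a b * th b a) * (B - th b a * th a b) = A * B - A * th b a * th a b
      - th a b * th b a * B + th a b * (th b a * th b a) * th a b := by noncomm_ring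
  have e2 : A * B - C * D + ((D - th b a * th a a - th b b * th b a) * C +
      -th b a * (A * th a b - th a a * C + C * th b b - th a b * B)) =
      A * B - C * D + D * C - th b b * th b a * C - th b a * A * th a b - th b a * C * th b b
        + th b a * th a b * B := by noncomm_ring
  rw [e1, e2, th_mul_self]
  have e3 : th b a * C * th b b = - (th b b * th b a * C) := by
    rw [mul_assoc, cC (th b b), ← mul_assoc, th_mul_th b a b b, neg_mul]
  have e4 : th b a * A * th a b = A * th b a * th a b := by rw [cA (th b a)]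
  have e5 : th b a * th a b * B = - (th a b * th b a * B) := by
    rw [th_mul_th b a a b, neg_mul]
  rw [e3, e4, e5, cC D]
  noncomm_ring

theorem ct_Cu {a b : Fin M} (hab : a ≠ b) (p q : Fin M) (hp : p = a ∨ p = b) (hq : q = a ∨ q = b)
    (r s : Fin M) (hrs : (r = s) ∨ (r = a ∧ s = b) ∨ (r = b ∧ s = a)) :
    ct r s (Cu a b p q) = 0 := by
  have hba := hab.symm
  unfold Cu
  rw [map_add, map_add, ct_dth, ct_mul, ct_mul, ct_th, ct_th, ct_th, ct_th, sg_th, sg_th]
  rcases hrs with rfl | ⟨rfl, rfl⟩ | ⟨rfl, rfl⟩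
  · by_cases h1 : r = a
    · subst h1
      rcases hp with rfl | rfl <;> rcases hq with rfl | rfl <;> simp [hab, hba]
    · by_cases h2 : r = b
      · subst h2
        rcases hp with rfl | rfl <;> rcases hq with rfl | rfl <;> simp [hab, hba]
      · rcases hp with rfl | rfl <;> rcases hq with rfl | rfl <;> simp [h1, h2]
  · rcases hp with rfl | rfl <;> rcases hq with rfl | rfl <;> simp [hab, hba] <;> abel
  · rcases hp with rfl | rfl <;> rcases hq with rfl | rfl <;> simp [hab, hba] <;> abel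

theorem ct_C2 {a b : Fin M} (hab : a ≠ b)
    (r s : Fin M) (hrs : (r = s) ∨ (r = a ∧ s = b) ∨ (r = b ∧ s = a)) :
    ct r s (C2 a b) = 0 := by
  unfold C2
  rw [map_sub, ct_mul, ct_mul, ct_Cu hab _ _ (Or.inl rfl) (Or.inl rfl) _ _ hrs,
    ct_Cu hab _ _ (Or.inr rfl) (Or.inr rfl) _ _ hrs, ct_Cu hab _ _ (Or.inl rfl) (Or.inr rfl) _ _ hrs,
    ct_Cu hab _ _ (Or.inr rfl) (Or.inl rfl) _ _ hrs]
  simp

theorem bc_C2 {a b : Fin M} (hab : a ≠ b) : Bc a b (C2 a b) := by
  refine ⟨?_, ?_, fun k => ct_C2 hab _ _ (Or.inl rfl), ct_C2 hab _ _ (Or.inr (Or.inl ⟨rfl, rfl⟩)),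
    ct_C2 hab _ _ (Or.inr (Or.inr ⟨rfl, rfl⟩))⟩
  · unfold C2
    rw [map_sub, map_mul, map_mul, sg_Cu, sg_Cu, sg_Cu, sg_Cu]
  · have h : C2 a b = dth a a * dth b b - dd (th b a * Cu a b a b) := by
      rw [C2_eq a b]; abel
    rw [h, map_sub, dd_dd, isADer_dd.mul, dd_dth, dd_dth]
    simp

theorem lie_kk_th (k p q : Fin M) : lie k k (th p q) =
    (if k = q then th p q else 0) - (if k = p then th p q else 0) := by
  rw [lie_th]
  congr 1
  · split_ifs with h
    · rw [h]
    · rfl
  · split_ifs with h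
    · rw [h]
    · rfl

theorem lie_kk_dth (k p q : Fin M) : lie k k (dth p q) =
    (if k = q then dth p q else 0) - (if k = p then dth p q else 0) := by
  rw [← dd_th, lie_dd, lie_kk_th, map_sub]
  congr 1
  · split_ifs with h
    · rfl
    · rw [map_zero]
  · split_ifs with h
    · rfl
    · rw [map_zero]

theorem bas_prim {a b : Fin M} (hab : a ≠ b) : Bas (th b a * Cu a b a b) := by
  have hba := hab.symm
  refine ⟨fun k => ?_, fun k => ?_⟩
  · rw [ct_mul, ct_Cu hab _ _ (Or.inl rfl) (Or.inr rfl) _ _ (Or.inl rfl), ct_th, if_neg]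
    · simp
    · rintro ⟨rfl, h⟩; exact hba h
  · unfold Cu
    rw [isDer_lie, map_add, map_add, isDer_lie, isDer_lie, lie_kk_th, lie_kk_th, lie_kk_th,
      lie_kk_th, lie_kk_dth]
    by_cases h1 : k = a
    · subst h1
      simp [hab] <;> noncomm_ring
    · by_cases h2 : k = b
      · subst h2
        simp [hba] <;> noncomm_ring
      · simp [h1, h2]

theorem bc_zero (a b : Fin M) : Bc a b (0 : Lam M) :=
  ⟨map_zero _, map_zero _, fun _ => map_zero _, map_zero _, map_zero _⟩

theorem Bc.add {a b : Fin M} {x y : Lam M} (hx : Bc a b x) (hy : Bc a b y) : Bc a b (x + y) :=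
  ⟨by rw [map_add, hx.e, hy.e], by rw [map_add, hx.c, hy.c, add_zero],
    fun k => by rw [map_add, hx.h, hy.h, add_zero], by rw [map_add, hx.h1, hy.h1, add_zero],
    by rw [map_add, hx.h2, hy.h2, add_zero]⟩

theorem Bc.mul {a b : Fin M} {x y : Lam M} (hx : Bc a b x) (hy : Bc a b y) : Bc a b (x * y) :=
  ⟨by rw [map_mul, hx.e, hy.e], by rw [isADer_dd.mul, hx.c, hy.c, zero_mul, mul_zero, add_zero],
    fun k => by rw [ct_mul, hx.h, hy.h, zero_mul, mul_zero, add_zero],
    by rw [ct_mul, hx.h1, hy.h1, zero_mul, mul_zero, add_zero],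
    by rw [ct_mul, hx.h2, hy.h2, zero_mul, mul_zero, add_zero]⟩

theorem Bc.neg {a b : Fin M} {x : Lam M} (hx : Bc a b x) : Bc a b (-x) :=
  ⟨by rw [map_neg, hx.e], by rw [map_neg, hx.c, neg_zero],
    fun k => by rw [map_neg, hx.h, neg_zero], by rw [map_neg, hx.h1, neg_zero],
    by rw [map_neg, hx.h2, neg_zero]⟩

theorem bc_one (a b : Fin M) : Bc a b (1 : Lam M) :=
  ⟨map_one _, isADer_dd.one, fun k => ct_one k k, ct_one _ _, ct_one _ _⟩

theorem bc_intCast (a b : Fin M) (n : ℤ) : Bc a b (n : Lam M) := by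
  have h : ∀ n : ℕ, Bc a b (n : Lam M) := by
    intro n
    induction n with
    | zero => rw [Nat.cast_zero]; exact bc_zero a b
    | succ n ih => rw [Nat.cast_succ]; exact ih.add (bc_one a b)
  obtain ⟨k, rfl | rfl⟩ := n.eq_nat_or_neg
  · rw [Int.cast_natCast]; exact h k
  · rw [Int.cast_neg, Int.cast_natCast]; exact (h k).neg

theorem bc_dth {a b k : Fin M} (h1 : k ≠ a) (h2 : k ≠ b) : Bc a b (dth k k) := by
  refine ⟨sg_dth k k, dd_dth k k, (cl_dth k).b.h, ?_, ?_⟩
  · rw [ct_dth, if_neg h2.symm, if_neg h1.symm, sub_zero]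
  · rw [ct_dth, if_neg h1.symm, if_neg h2.symm, sub_zero]

theorem bc_dth_add {a b : Fin M} (hab : a ≠ b) : Bc a b (dth a a + dth b b) := by
  have hba := hab.symm
  refine ⟨by rw [map_add, sg_dth, sg_dth], by rw [map_add, dd_dth, dd_dth, add_zero],
    fun k => by rw [map_add, (cl_dth a).b.h, (cl_dth b).b.h, add_zero], ?_, ?_⟩
  · rw [map_add, ct_dth, ct_dth]
    simp [hab, hba]
  · rw [map_add, ct_dth, ct_dth]
    simp [hab, hba]

end

end Pool.Agent.E8helper44
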