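import Pool.Agent.E8helper44.NN

set_option autoImplicit false

namespace Pool.Agent.E8helper44

open MvPolynomial

noncomputable section

variable {M : ℕ}

/-- generators of the polynomials symmetric in two adjacent variables -/
def symGen (i : ℕ) : Set (MvPolynomial ℕ ℤ) :=
  {p | (∃ j, j ≠ i ∧ j ≠ i + 1 ∧ p = X j) ∨ p = X i + X (i + 1) ∨ p = X i * X (i + 1)}

theorem decomp_poly (i : ℕ) (f : MvPolynomial ℕ ℤ) :
    ∃ a ∈ Algebra.adjoin ℤ (symGen i), ∃ b ∈ Algebra.adjoin ℤ (symGen i), f = a + X i * b := by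
  have e1 : (X i + X (i + 1) : MvPolynomial ℕ ℤ) ∈ Algebra.adjoin ℤ (symGen i) :=
    Algebra.subset_adjoin (Or.inr (Or.inl rfl))
  have e2 : (X i * X (i + 1) : MvPolynomial ℕ ℤ) ∈ Algebra.adjoin ℤ (symGen i) :=
    Algebra.subset_adjoin (Or.inr (Or.inr rfl))
  induction f using MvPolynomial.induction_on with
  | C a =>
    refine ⟨C a, ?_, 0, zero_mem _, by ring⟩
    have : (C a : MvPolynomial ℕ ℤ) = algebraMap ℤ _ a := rfl
    rw [this]
    exact Subalgebra.algebraMap_mem _ a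
  | add p q hp hq =>
    obtain ⟨a, ha, b, hb, rfl⟩ := hp
    obtain ⟨a', ha', b', hb', rfl⟩ := hq
    exact ⟨a + a', add_mem ha ha', b + b', add_mem hb hb', by ring⟩
  | mul_X p n hp =>
    obtain ⟨a, ha, b, hb, rfl⟩ := hp
    by_cases h1 : n = i
    · subst h1
      refine ⟨- (X n * X (n + 1)) * b, mul_mem (neg_mem e2) hb, a + (X n + X (n + 1)) * b,
        add_mem ha (mul_mem e1 hb), by ring⟩
    · by_cases h2 : n = i + 1
      · subst h2
        refine ⟨a * (X i + X (i + 1)) + (X i * X (i + 1)) * b,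
          add_mem (mul_mem ha e1) (mul_mem e2 hb), -a, neg_mem ha, by ring⟩
      · have e3 : (X n : MvPolynomial ℕ ℤ) ∈ Algebra.adjoin ℤ (symGen i) :=
          Algebra.subset_adjoin (Or.inl ⟨n, h1, h2, rfl⟩)
        exact ⟨a * X n, mul_mem ha e3, b * X n, mul_mem hb e3, by ring⟩

theorem swap_sym (i : ℕ) (f : MvPolynomial ℕ ℤ) (hf : f ∈ Algebra.adjoin ℤ (symGen i)) :
    rename (Equiv.swap i (i + 1)) f = f := by
  induction hf using Algebra.adjoin_induction with
  | mem x hx =>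
    rcases hx with ⟨j, h1, h2, rfl⟩ | rfl | rfl
    · rw [rename_X, Equiv.swap_apply_of_ne_of_ne h1 h2]
    · rw [map_add, rename_X, rename_X, Equiv.swap_apply_left, Equiv.swap_apply_right, add_comm]
    · rw [map_mul, rename_X, rename_X, Equiv.swap_apply_left, Equiv.swap_apply_right, mul_comm]
  | algebraMap r => exact AlgHom.commutes _ r
  | add x y _ _ hx hy => rw [map_add, hx, hy]
  | mul x y _ _ hx hy => rw [map_mul, hx, hy]

theorem ev_sym (i : ℕ) (hi : i + 1 < M) (f : MvPolynomial ℕ ℤ)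
    (hf : f ∈ Algebra.adjoin ℤ (symGen i)) :
    ∃ β, Bc (⟨i, by omega⟩ : Fin M) ⟨i + 1, hi⟩ β ∧ ∃ y, Bas y ∧ ev M f = β + dd y := by
  set a : Fin M := ⟨i, by omega⟩ with ha
  set b : Fin M := ⟨i + 1, hi⟩ with hb
  have hab : a ≠ b := by
    intro h
    have := congrArg Fin.val h
    simp [ha, hb] at this
  induction hf using Algebra.adjoin_induction with
  | mem x hx =>
    rcases hx with ⟨j, h1, h2, rfl⟩ | rfl | rfl
    · refine ⟨ev M (X j), ?_, 0, bas_zero, by rw [map_zero, add_zero]⟩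
      by_cases h : j < M
      · rw [ev_X j h]
        apply bc_dth
        · intro h'; exact h1 (congrArg Fin.val h')
        · intro h'; exact h2 (congrArg Fin.val h')
      · rw [ev_X_ge j h]
        exact bc_zero _ _
    · refine ⟨_, bc_dth_add hab, 0, bas_zero, ?_⟩
      rw [map_zero, add_zero, map_add, ev_X i (by omega), ev_X (i + 1) hi]
    · refine ⟨_, bc_C2 hab, _, bas_prim hab, ?_⟩
      rw [map_mul, ev_X i (by omega), ev_X (i + 1) hi]
      exact C2_eq a b
  | algebraMap r =>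
    refine ⟨_, bc_intCast a b r, 0, bas_zero, ?_⟩
    rw [map_zero, add_zero]
    exact ev_int r
  | add x y _ _ hx hy =>
    obtain ⟨β, hβ, z, hz, e⟩ := hx
    obtain ⟨β', hβ', z', hz', e'⟩ := hy
    refine ⟨β + β', hβ.add hβ', z + z', hz.add hz', ?_⟩
    rw [map_add, e, e', map_add]
    abel
  | mul x y _ _ hx hy =>
    obtain ⟨β, hβ, z, hz, e⟩ := hx
    obtain ⟨β', hβ', z', hz', e'⟩ := hy
    refine ⟨β * β', hβ.mul hβ', β * z' + z * β' + z * dd z', ?_, ?_⟩
    · exact ((hβ.bas.mul hz').add (hz.mul hβ'.bas)).add (hz.mul hz'.dd)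
    · rw [map_mul, e, e', map_add, map_add, isADer_dd.mul, isADer_dd.mul, isADer_dd.mul, hβ.c, hβ'.c,
        dd_dd, hβ.e]
      noncomm_ring

theorem NN_dd (i : ℕ) (hi : i + 1 < M) (f g : MvPolynomial ℕ ℤ) (hf : f ∈ NN M)
    (hg : (X i - X (i + 1)) * g = f - rename (Equiv.swap i (i + 1)) f) : g ∈ NN M := by
  obtain ⟨a, ha, b, hb, hab⟩ := decomp_poly i f
  have hne : (X i - X (i + 1) : MvPolynomial ℕ ℤ) ≠ 0 := by
    intro h
    have := sub_eq_zero.mp h
    have := MvPolynomial.X_injective this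
    omega
  have hgb : g = b := by
    apply mul_left_cancel₀ hne
    rw [hg, hab, map_add, map_mul, swap_sym i a ha, swap_sym i b hb, rename_X,
      Equiv.swap_apply_left]
    ring
  obtain ⟨w, hw, bw, y, hy, e⟩ := hf
  obtain ⟨β0, h0, y0, hy0, e0⟩ := ev_sym i hi a ha
  obtain ⟨β1, h1, y1, hy1, e1⟩ := ev_sym i hi b hb
  set p : Fin M := ⟨i, by omega⟩ with hp
  set q : Fin M := ⟨i + 1, hi⟩ with hq
  obtain ⟨w', hw', bw', y', hy', e'⟩ := push (a := p) (b := q) rfl w hw bw β0 β1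
    (y0 + dth p p * y1 + y) h0 h1 ((hy0.add ((cl_dth p).b.mul hy1)).add hy) (by
      rw [e, hab, map_add, map_mul, ev_X i (by omega), e0, e1, map_add, map_add, isADer_dd.mul,
        dd_dth, sg_dth]
      noncomm_ring)
  refine ⟨w', hw', bw', y' - y1, hy'.sub hy1, ?_⟩
  rw [e', hgb, e1, map_sub]
  abel

section N3

variable {R : Type*} [CommRing R]

theorem pow_succ_card {ι : Type*} [DecidableEq ι] (s : Finset ι) (f : ι → R)
    (hf : ∀ i, f i * f i = 0) : (∑ i ∈ s, f i) ^ (s.card + 1) = 0 := by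
  induction s using Finset.induction_on with
  | empty => simp
  | insert i s hi ih =>
    rw [Finset.sum_insert hi, Finset.card_insert_of_notMem hi]
    refine Commute.add_pow_eq_zero_of_add_le_succ_of_pow_eq_zero (m := 2) (n := s.card + 1)
      (Commute.all _ _) ?_ ih ?_
    · rw [pow_two]; exact hf i
    · omega

theorem pow_mul_aux (x y : R) (hx : x * x = 0) (n : ℕ) : (x + y) ^ n * x = y ^ n * x := by
  induction n with
  | zero => simp
  | succ n ih =>
    rw [pow_succ, mul_assoc, add_mul, hx, zero_add, mul_left_comm, ih, pow_succ]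
    ring

theorem pow_card_mul {ι : Type*} [DecidableEq ι] (s : Finset ι) (f : ι → R)
    (hf : ∀ i, f i * f i = 0) (k : ι) (hk : k ∈ s) : (∑ i ∈ s, f i) ^ s.card * f k = 0 := by
  have h := pow_succ_card (s.erase k) f hf
  rw [Finset.card_erase_add_one hk] at h
  rw [← Finset.add_sum_erase s f hk, pow_mul_aux _ _ (hf k), h, zero_mul]

theorem prod_top (M : ℕ) (om : ℕ → ℕ → R) (hom : ∀ i j, om i j * om i j = 0) (m : ℕ) (hm : m ≤ M) :
    ∏ k ∈ Finset.range m, (∑ c ∈ Finset.Ico (k + 1) M, om k c - ∑ c ∈ Finset.range k, om c k) ^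
      (M - 1 - k) = ∏ k ∈ Finset.range m, (∑ c ∈ Finset.Ico (k + 1) M, om k c) ^ (M - 1 - k) := by
  induction m with
  | zero => simp
  | succ m ih =>
    rw [Finset.prod_range_succ, Finset.prod_range_succ, ih (by omega)]
    set T := ∏ k ∈ Finset.range m, (∑ c ∈ Finset.Ico (k + 1) M, om k c) ^ (M - 1 - k) with hT
    set Z := ∑ c ∈ Finset.Ico (m + 1) M, om m c with hZ
    have hz : T * ∑ c ∈ Finset.range m, om c m = 0 := by
      rw [Finset.mul_sum]
      refine Finset.sum_eq_zero fun c hc => ?_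
      rw [hT, ← Finset.mul_prod_erase _ _ hc, mul_comm, ← mul_assoc]
      have h1 : om c m * (∑ c_1 ∈ Finset.Ico (c + 1) M, om c c_1) ^ (M - 1 - c) = 0 := by
        have h2 := pow_card_mul (Finset.Ico (c + 1) M) (om c) (hom c) m
          (by rw [Finset.mem_Ico]; rw [Finset.mem_range] at hc; omega)
        rw [Nat.card_Ico, show M - (c + 1) = M - 1 - c by omega] at h2
        rw [mul_comm]; exact h2
      rw [h1, zero_mul]
    have key : ∀ e : ℕ, T * (Z - ∑ c ∈ Finset.range m, om c m) ^ e = T * Z ^ e := by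
      intro e
      induction e with
      | zero => simp
      | succ e ihe =>
        calc T * (Z - ∑ c ∈ Finset.range m, om c m) ^ (e + 1)
            = (T * (Z - ∑ c ∈ Finset.range m, om c m) ^ e) *
              (Z - ∑ c ∈ Finset.range m, om c m) := by ring
          _ = T * Z ^ e * (Z - ∑ c ∈ Finset.range m, om c m) := by rw [ihe]
          _ = T * Z ^ (e + 1) - Z ^ e * (T * ∑ c ∈ Finset.range m, om c m) := by ring
          _ = _ := by rw [hz]; ring
    exact key _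

end N3

/-- The elementary positive elements as central elements. -/
def omc (M : ℕ) (i j : ℕ) : Subalgebra.center ℝ (Lam M) :=
  if h : i < M ∧ j < M then ⟨-(th ⟨i, h.1⟩ ⟨j, h.2⟩ * th ⟨j, h.2⟩ ⟨i, h.1⟩), by
    rw [Subalgebra.mem_center_iff]
    intro b
    refine (even_comm ?_ b).symm
    rw [map_neg, map_mul, sg_th, sg_th]
    noncomm_ring⟩ else 0

theorem omc_sq (i j : ℕ) : omc M i j * omc M i j = 0 := by
  unfold omc
  split_ifs with h
  · apply Subtype.ext
    show -(th (⟨i, h.1⟩ : Fin M) ⟨j, h.2⟩ * th ⟨j, h.2⟩ ⟨i, h.1⟩) *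
      -(th ⟨i, h.1⟩ ⟨j, h.2⟩ * th ⟨j, h.2⟩ ⟨i, h.1⟩) = 0
    rw [neg_mul_neg, ← mul_assoc, th_th_th, zero_mul]
  · rw [zero_mul]

theorem xc_eq (k : ℕ) (hk : k < M) : xc M k =
    ∑ c ∈ Finset.Ico (k + 1) M, omc M k c - ∑ c ∈ Finset.range k, omc M c k := by
  have h1 : ((xc M k : Subalgebra.center ℝ (Lam M)) : Lam M) =
      ∑ c ∈ Finset.range M, (omc M k c : Lam M) := by
    rw [xc, dif_pos hk]
    show dth (⟨k, hk⟩ : Fin M) ⟨k, hk⟩ = _
    rw [Finset.sum_range]
    unfold dth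
    rw [← Finset.sum_neg_distrib]
    refine Finset.sum_congr rfl fun c _ => ?_
    rw [omc, dif_pos ⟨hk, c.2⟩]
  have h2 : ∀ c, c < M → c < k → (omc M k c : Lam M) = - (omc M c k : Lam M) := by
    intro c hc _
    rw [omc, dif_pos ⟨hk, hc⟩, omc, dif_pos ⟨hc, hk⟩]
    show -(th (⟨k, hk⟩ : Fin M) ⟨c, hc⟩ * th ⟨c, hc⟩ ⟨k, hk⟩) =
      - -(th (⟨c, hc⟩ : Fin M) ⟨k, hk⟩ * th ⟨k, hk⟩ ⟨c, hc⟩)
    rw [th_mul_th]
  have h3 : (omc M k k : Lam M) = 0 := by
    rw [omc, dif_pos ⟨hk, hk⟩]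
    show -(th (⟨k, hk⟩ : Fin M) ⟨k, hk⟩ * th ⟨k, hk⟩ ⟨k, hk⟩) = 0
    rw [th_mul_self, neg_zero]
  apply Subtype.ext
  rw [h1]
  push_cast
  rw [Finset.range_eq_Ico, ← Finset.sum_Ico_consecutive _ (Nat.zero_le k) hk.le,
    Finset.sum_eq_sum_Ico_succ_bot hk, h3, zero_add, ← Finset.range_eq_Ico]
  have h4 : ∑ i ∈ Finset.range k, (omc M k i : Lam M) = - ∑ i ∈ Finset.range k, (omc M i k : Lam M) := by
    rw [← Finset.sum_neg_distrib]
    refine Finset.sum_congr rfl fun c hc => ?_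
    rw [Finset.mem_range] at hc
    exact h2 c (hc.trans hk) hc
  rw [h4]
  abel

theorem omc_PS (i j : ℕ) (hij : i < j) : (omc M i j : Lam M) ∈ PS M := by
  unfold omc
  split_ifs with h
  · exact PS_om (a := ⟨i, h.1⟩) (b := ⟨j, h.2⟩) hij
  · exact zero_mem _

theorem NN_top (M : ℕ) : ∏ k ∈ Finset.range M, (X k : MvPolynomial ℕ ℤ) ^ (M - 1 - k) ∈ NN M := by
  have h1 : evc M (∏ k ∈ Finset.range M, (X k : MvPolynomial ℕ ℤ) ^ (M - 1 - k)) =
      ∏ k ∈ Finset.range M, (∑ c ∈ Finset.Ico (k + 1) M, omc M k c) ^ (M - 1 - k) := by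
    rw [← prod_top M (omc M) omc_sq M le_rfl, map_prod]
    refine Finset.prod_congr rfl fun k hk => ?_
    rw [map_pow]
    exact congrArg (fun z => z ^ (M - 1 - k))
      ((MvPolynomial.eval₂Hom_X' _ _ _).trans (xc_eq k (Finset.mem_range.mp hk)))
  have h2 : ev M (∏ k ∈ Finset.range M, (X k : MvPolynomial ℕ ℤ) ^ (M - 1 - k)) ∈ PS M := by
    rw [ev_apply, h1]
    have gz : ∀ k, ((∑ c ∈ Finset.Ico (k + 1) M, omc M k c : Subalgebra.center ℝ (Lam M)) : Lam M) ∈ PS M := by
      intro k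
      push_cast
      refine sum_mem fun c hc => ?_
      rw [Finset.mem_Ico] at hc
      exact omc_PS k c (by omega)
    have gp : ∀ (z : Subalgebra.center ℝ (Lam M)) (n : ℕ), (z : Lam M) ∈ PS M → ((z ^ n : Subalgebra.center ℝ (Lam M)) : Lam M) ∈ PS M := by
      intro z n hz
      induction n with
      | zero => rw [pow_zero]; exact PS_one
      | succ n ih =>
        rw [pow_succ]
        exact PS_mul ih hz
    have gf : ∀ m : ℕ, ((∏ k ∈ Finset.range m, (∑ c ∈ Finset.Ico (k + 1) M, omc M k c) ^ (M - 1 - k) :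
        Subalgebra.center ℝ (Lam M)) : Lam M) ∈ PS M := by
      intro m
      induction m with
      | zero => rw [Finset.prod_range_zero]; exact PS_one
      | succ m ih =>
        rw [Finset.prod_range_succ]
        exact PS_mul ih (gp _ _ (gz m))
    exact gf M
  exact ⟨_, h2, (cl_ev _).b, 0, bas_zero, by rw [map_zero, add_zero]⟩

end

end Pool.Agent.E8helper44
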