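import Mathlib

set_option autoImplicit false

namespace Pool.Agent.E8helper44

open Equiv

variable {n : ℕ}

theorem aiv (w : Perm (Fin n)) (x : Fin n) : w (w⁻¹ x) = x := w.apply_symm_apply x

theorem iav (w : Perm (Fin n)) (x : Fin n) : w⁻¹ (w x) = x := w.symm_apply_apply x

/-- inversion set -/
def Is (w : Perm (Fin n)) : Finset (Fin n × Fin n) :=
  Finset.univ.filter (fun p : Fin n × Fin n => p.1 < p.2 ∧ w p.2 < w p.1)

/-- inversion number -/
def iv (w : Perm (Fin n)) : ℕ := (Is w).card

theorem mem_Is (w : Perm (Fin n)) (p : Fin n × Fin n) : p ∈ Is w ↔ p.1 < p.2 ∧ w p.2 < w p.1 := by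
  unfold Is; rw [Finset.mem_filter]; simp

theorem swap_lt (i j x y : Fin n) (hij : j.val = i.val + 1)
    (h1 : ¬ (x = i ∧ y = j)) (h2 : ¬ (x = j ∧ y = i)) : swap i j x < swap i j y ↔ x < y := by
  rw [swap_apply_def, swap_apply_def]
  simp only [Fin.lt_def, Fin.ext_iff] at *
  split_ifs <;> simp_all <;> omega

theorem Is_swap (w : Perm (Fin n)) (i j : Fin n) (hij : j.val = i.val + 1)
    (h : w⁻¹ i < w⁻¹ j) : Is (swap i j * w) = insert (w⁻¹ i, w⁻¹ j) (Is w) ∧
      (w⁻¹ i, w⁻¹ j) ∉ Is w := by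
  have hij' : i < j := by rw [Fin.lt_def]; omega
  constructor
  · ext ⟨p, q⟩
    rw [Finset.mem_insert, mem_Is, mem_Is, Prod.mk.injEq]
    simp only [Perm.mul_apply]
    have ep : p = w⁻¹ i ↔ w p = i := by
      rw [Perm.eq_inv_iff_eq]
    have eq : q = w⁻¹ j ↔ w q = j := by
      rw [Perm.eq_inv_iff_eq]
    rw [ep, eq]
    by_cases h1 : w p = i ∧ w q = j
    · have : p < q := by
        rw [ep.mpr h1.1, eq.mpr h1.2]; exact h
      simp [h1.1, h1.2, this, hij']
    · by_cases h2 : w p = j ∧ w q = i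
      · have hp : p = w⁻¹ j := by rw [Perm.eq_inv_iff_eq]; exact h2.1
        have hq : q = w⁻¹ i := by rw [Perm.eq_inv_iff_eq]; exact h2.2
        have : ¬ p < q := by rw [hp, hq]; exact not_lt.mpr h.le
        simp [this, h2.1, h2.2, hij'.ne, hij'.ne']
      · by_cases hpq : p = q
        · subst hpq
          simp only [lt_irrefl, false_and, or_false]
          constructor
          · exact fun h => h.elim
          · exact fun h => h1 h
        · have hne : w q ≠ w p := fun h => hpq (w.injective h.symm)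
          rw [swap_lt i j (w q) (w p) hij (fun h => h2 ⟨h.2, h.1⟩) (fun h => h1 ⟨h.2, h.1⟩)]
          constructor
          · exact fun h => Or.inr h
          · rintro (h | h)
            · exact absurd h h1
            · exact h
  · rw [mem_Is]
    simp only [aiv]
    intro h'
    exact absurd hij' (not_lt.mpr h'.2.le)

theorem iv_swap_of_lt (w : Perm (Fin n)) (i j : Fin n) (hij : j.val = i.val + 1)
    (h : w⁻¹ i < w⁻¹ j) : iv (swap i j * w) = iv w + 1 := by
  obtain ⟨h1, h2⟩ := Is_swap w i j hij h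
  unfold iv
  rw [h1, Finset.card_insert_of_notMem h2]

theorem iv_swap_of_gt (w : Perm (Fin n)) (i j : Fin n) (hij : j.val = i.val + 1)
    (h : w⁻¹ j < w⁻¹ i) : iv w = iv (swap i j * w) + 1 := by
  have h3 := iv_swap_of_lt (swap i j * w) i j hij (by
    rw [mul_inv_rev, swap_inv, Perm.mul_apply, Perm.mul_apply, swap_apply_left, swap_apply_right]
    exact h)
  rw [← mul_assoc, swap_mul_self, one_mul] at h3
  exact h3

theorem lt_or_gt_inv (w : Perm (Fin n)) (i j : Fin n) (hij : j.val = i.val + 1) :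
    w⁻¹ i < w⁻¹ j ∨ w⁻¹ j < w⁻¹ i := by
  have : w⁻¹ i ≠ w⁻¹ j := by
    intro h
    have := w⁻¹.injective h
    rw [this] at hij
    omega
  exact lt_or_gt_of_ne this

theorem iv_swap_cases (w : Perm (Fin n)) (i j : Fin n) (hij : j.val = i.val + 1) :
    (iv (swap i j * w) = iv w + 1 ∧ w⁻¹ i < w⁻¹ j) ∨ (iv w = iv (swap i j * w) + 1 ∧ w⁻¹ j < w⁻¹ i) := by
  rcases lt_or_gt_inv w i j hij with h | h
  · exact Or.inl ⟨iv_swap_of_lt w i j hij h, h⟩
  · exact Or.inr ⟨iv_swap_of_gt w i j hij h, h⟩

theorem perm_eq_one_of_mono (w : Perm (Fin n))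
    (h : ∀ i j : Fin n, j.val = i.val + 1 → w i < w j) : w = 1 := by
  rcases n with _ | n
  · ext x; exact x.elim0
  · have hm : StrictMono w := by
      rw [Fin.strictMono_iff_lt_succ]
      intro i
      exact h _ _ (by simp)
    let e : Fin (n + 1) ≃o Fin (n + 1) := StrictMono.orderIsoOfSurjective w hm w.surjective
    have : e = OrderIso.refl _ := Subsingleton.elim _ _
    ext x
    have h2 : e x = x := by rw [this]; rfl
    have h3 : e x = w x := rfl
    rw [← h3, h2]; rfl

theorem exists_descent (w : Perm (Fin n)) (hw : w ≠ 1) :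
    ∃ i j : Fin n, j.val = i.val + 1 ∧ iv w = iv (swap i j * w) + 1 ∧ w⁻¹ j < w⁻¹ i := by
  by_contra hcon
  push Not at hcon
  apply hw
  have : w⁻¹ = 1 := by
    apply perm_eq_one_of_mono
    intro i j hij
    rcases iv_swap_cases w i j hij with h | h
    · exact h.2
    · exact absurd h.2 (not_lt.mpr (hcon i j hij h.1))
  rw [← inv_inv w, this, inv_one]

theorem iv_one : iv (1 : Perm (Fin n)) = 0 := by
  unfold iv
  rw [Finset.card_eq_zero]
  ext p
  rw [mem_Is]
  simp only [Perm.one_apply, Finset.notMem_empty, iff_false, not_and, not_lt]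
  exact fun h => h.le

theorem iv_mul_le (a b : Perm (Fin n)) : iv (a * b) ≤ iv a + iv b := by
  induction h : iv a using Nat.strong_induction_on generalizing a with
  | _ k ih =>
    by_cases ha : a = 1
    · subst ha; rw [one_mul]; omega
    · obtain ⟨i, j, hij, h1, _⟩ := exists_descent a ha
      have h2 := ih (iv (swap i j * a)) (by omega) (swap i j * a) rfl
      rcases iv_swap_cases (a * b) i j hij with h3 | h3
      · rw [← mul_assoc] at h3; omega
      · rw [← mul_assoc] at h3; omega

/-- all pairs -/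
def Pairs (n : ℕ) : Finset (Fin n × Fin n) := Finset.univ.filter (fun p => p.1 < p.2)

theorem Is_subset (w : Perm (Fin n)) : Is w ⊆ Pairs n := by
  intro p hp
  rw [mem_Is] at hp
  unfold Pairs
  rw [Finset.mem_filter]
  exact ⟨Finset.mem_univ _, hp.1⟩

theorem Is_rev : Is (Fin.revPerm : Perm (Fin n)) = Pairs n := by
  ext p
  rw [mem_Is]
  unfold Pairs
  rw [Finset.mem_filter]
  simp only [Fin.revPerm_apply, Fin.rev_lt_rev, Finset.mem_univ, true_and, and_self]

theorem iv_le_rev (w : Perm (Fin n)) : iv w ≤ iv (Fin.revPerm : Perm (Fin n)) := by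
  unfold iv
  rw [Is_rev]
  exact Finset.card_le_card (Is_subset w)

theorem eq_rev_of_iv (w : Perm (Fin n)) (h : iv w = iv (Fin.revPerm : Perm (Fin n))) :
    w = Fin.revPerm := by
  have h1 : Is w = Pairs n := by
    apply Finset.eq_of_subset_of_card_le (Is_subset w)
    unfold iv at h
    rw [h, Is_rev]
  have h2 : w * Fin.revPerm = 1 := by
    apply perm_eq_one_of_mono
    intro i j hij
    have hlt : (Fin.rev j, Fin.rev i) ∈ Pairs n := by
      unfold Pairs
      rw [Finset.mem_filter]
      refine ⟨Finset.mem_univ _, ?_⟩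
      simp only [Fin.rev_lt_rev]
      rw [Fin.lt_def]; omega
    rw [← h1, mem_Is] at hlt
    exact hlt.2
  rw [mul_eq_one_iff_eq_inv] at h2
  rw [h2]
  ext x
  have : (Fin.revPerm : Perm (Fin n))⁻¹ = Fin.revPerm := by
    rw [inv_eq_iff_mul_eq_one]
    ext y
    simp
  rw [this]

theorem iv_complement (v : Perm (Fin n)) :
    iv v + iv (v⁻¹ * Fin.revPerm) = iv (Fin.revPerm : Perm (Fin n)) := by
  have h1 : iv (v⁻¹ * Fin.revPerm) = ((Pairs n).filter (fun p => v p.1 < v p.2)).card := by
    unfold iv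
    refine Finset.card_bij (fun p _ => (v⁻¹ (Fin.rev p.2), v⁻¹ (Fin.rev p.1))) ?_ ?_ ?_
    · intro p hp
      rw [mem_Is] at hp
      rw [Finset.mem_filter]
      unfold Pairs
      rw [Finset.mem_filter]
      simp only [aiv, Fin.rev_lt_rev]
      exact ⟨⟨Finset.mem_univ _, hp.2⟩, hp.1⟩
    · intro p _ q _ h
      rw [Prod.mk.injEq] at h
      have e1 := Fin.rev_injective (v⁻¹.injective h.1)
      have e2 := Fin.rev_injective (v⁻¹.injective h.2)
      exact Prod.ext e2 e1
    · rintro ⟨a, b⟩ hab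
      rw [Finset.mem_filter] at hab
      unfold Pairs at hab
      rw [Finset.mem_filter] at hab
      refine ⟨(Fin.rev (v b), Fin.rev (v a)), ?_, ?_⟩
      · rw [mem_Is]
        simp only [Perm.mul_apply, Fin.revPerm_apply, Fin.rev_rev, iav,
          Fin.rev_lt_rev]
        exact ⟨hab.2, hab.1.2⟩
      · simp
  have h2 : iv v = ((Pairs n).filter (fun p => ¬ v p.1 < v p.2)).card := by
    unfold iv
    congr 1
    ext p
    rw [mem_Is, Finset.mem_filter]
    unfold Pairs
    rw [Finset.mem_filter]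
    constructor
    · exact fun h => ⟨⟨Finset.mem_univ _, h.1⟩, not_lt.mpr h.2.le⟩
    · rintro ⟨⟨_, h1⟩, h2⟩
      refine ⟨h1, lt_of_le_of_ne (not_lt.mp h2) ?_⟩
      intro h3
      have := v.injective h3
      rw [this] at h1
      exact lt_irrefl _ h1
  rw [h1, h2, add_comm, Finset.card_filter_add_card_filter_not]
  unfold iv
  rw [Is_rev]

end Pool.Agent.E8helper44
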