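import Pool.Agent.E8helper44.Cone

set_option autoImplicit false

namespace Pool.Agent.E8helper44

noncomputable section

variable {M : ℕ}

/-- upper elements -/
def Up (x : Lam M) : Prop := ∀ r s, s ≤ r → ct r s x = 0

/-- definite parity -/
def Hg (x : Lam M) : Prop := sg x = x ∨ sg x = -x

/-- the positive cone -/
def PS (M : ℕ) : AddSubmonoid (Lam M) :=
  AddSubmonoid.closure {z | ∃ x, Up x ∧ Hg x ∧ z = x * tau x}

/-- torus-basic elements -/
structure Bas (x : Lam M) : Prop where
  h : ∀ k, ct k k x = 0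
  l : ∀ k, lie k k x = 0

theorem Up.mul {x y : Lam M} (hx : Up x) (hy : Up y) : Up (x * y) := by
  intro r s h
  rw [ct_mul, hx r s h, hy r s h, zero_mul, mul_zero, add_zero]

theorem up_one : Up (1 : Lam M) := fun r s _ => ct_one r s

theorem up_th {a b : Fin M} (h : a < b) : Up (th a b) := by
  intro r s hrs
  rw [ct_th, if_neg]
  rintro ⟨rfl, rfl⟩
  exact absurd h (not_lt.mpr hrs)

theorem Hg.mul {x y : Lam M} (hx : Hg x) (hy : Hg y) : Hg (x * y) := by
  unfold Hg
  rw [map_mul]
  rcases hx with hx | hx <;> rcases hy with hy | hy <;> rw [hx, hy]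
  · exact Or.inl rfl
  · exact Or.inr (by noncomm_ring)
  · exact Or.inr (by noncomm_ring)
  · exact Or.inl (by noncomm_ring)

theorem hg_one : Hg (1 : Lam M) := Or.inl (map_one _)

theorem hg_th (a b : Fin M) : Hg (th a b) := Or.inr (sg_th a b)

theorem sg_gen {x : Lam M} (hx : Hg x) : sg (x * tau x) = x * tau x := by
  rw [map_mul, ← tau_sg]
  rcases hx with hx | hx <;> rw [hx]
  rw [map_neg, neg_mul_neg]

theorem PS_sg {z : Lam M} (hz : z ∈ PS M) : sg z = z := by
  unfold PS at hz
  induction hz using AddSubmonoid.closure_induction with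
  | mem z hz =>
    obtain ⟨x, _, hx, rfl⟩ := hz
    exact sg_gen hx
  | zero => exact map_zero _
  | add x y _ _ hx hy => rw [map_add, hx, hy]

theorem PS_eps {z : Lam M} (hz : z ∈ PS M) : 0 ≤ eps z := by
  unfold PS at hz
  induction hz using AddSubmonoid.closure_induction with
  | mem z hz =>
    obtain ⟨x, _, hx, rfl⟩ := hz
    rw [map_mul, eps_tau]
    exact mul_self_nonneg _
  | zero => rw [map_zero]
  | add x y _ _ hx hy => rw [map_add]; exact add_nonneg hx hy

theorem PS_ct {z : Lam M} (hz : z ∈ PS M) (k : Fin M) : ct k k z = 0 := by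
  unfold PS at hz
  induction hz using AddSubmonoid.closure_induction with
  | mem z hz =>
    obtain ⟨x, hu, hx, rfl⟩ := hz
    rw [ct_mul, ct_tau, hu k k le_rfl, map_zero, map_zero, neg_zero, zero_mul, mul_zero, add_zero]
  | zero => exact map_zero _
  | add x y _ _ hx hy => rw [map_add, hx, hy, add_zero]

theorem PS_mul {y z : Lam M} (hy : y ∈ PS M) (hz : z ∈ PS M) : y * z ∈ PS M := by
  unfold PS at hy
  induction hy using AddSubmonoid.closure_induction with
  | mem y hy' =>
    obtain ⟨x, hu, hx, rfl⟩ := hy'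
    unfold PS at hz
    induction hz using AddSubmonoid.closure_induction with
    | mem z hz' =>
      obtain ⟨w, hw, hw', rfl⟩ := hz'
      apply AddSubmonoid.subset_closure
      refine ⟨x * w, hu.mul hw, hx.mul hw', ?_⟩
      rw [tau_mul, mul_assoc, ← even_comm (sg_gen hw') (tau x)]
      noncomm_ring
    | zero => rw [mul_zero]; exact zero_mem _
    | add z z' _ _ hz hz' => rw [mul_add]; exact add_mem hz hz'
  | zero => rw [zero_mul]; exact zero_mem _
  | add x y _ _ hx hy => rw [add_mul]; exact add_mem hx hy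

theorem PS_one : (1 : Lam M) ∈ PS M :=
  AddSubmonoid.subset_closure ⟨1, up_one, hg_one, by rw [tau_one, mul_one]⟩

theorem PS_om {a b : Fin M} (h : a < b) : - (th a b * th b a) ∈ PS M :=
  AddSubmonoid.subset_closure ⟨th a b, up_th h, hg_th a b, by rw [tau_th, mul_neg]⟩

/-- the submodule of upper elements of parity `c` killed by `ct a b` -/
def Uab (a b : Fin M) (c : ℝ) : Submodule ℝ (Lam M) where
  carrier := {x | (∀ r s, s ≤ r → ct r s x = 0) ∧ ct a b x = 0 ∧ sg x = c • x}
  add_mem' := by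
    rintro x y ⟨h1, h2, h3⟩ ⟨h1', h2', h3'⟩
    refine ⟨fun r s h => ?_, ?_, ?_⟩
    · rw [map_add, h1 r s h, h1' r s h, add_zero]
    · rw [map_add, h2, h2', add_zero]
    · rw [map_add, h3, h3', smul_add]
  zero_mem' := ⟨fun r s _ => map_zero _, map_zero _, by rw [map_zero, smul_zero]⟩
  smul_mem' := by
    rintro t x ⟨h1, h2, h3⟩
    refine ⟨fun r s h => ?_, ?_, ?_⟩
    · rw [map_smul, h1 r s h, smul_zero]
    · rw [map_smul, h2, smul_zero]
    · rw [map_smul, h3, smul_comm]

theorem ct_lie (p q r s : Fin M) (x : Lam M) :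
    ct r s (lie p q x) = lie p q (ct r s x) - (if r = q then ct p s x else 0)
      + (if s = p then ct r q x else 0) := by
  rw [lie_ct p q r s x]; abel

theorem Uab_lie {a b : Fin M} (hab : a.val + 1 = b.val) (c : ℝ) (x : Lam M) (hx : x ∈ Uab a b c) :
    lie a b x ∈ Uab a b c := by
  obtain ⟨h1, h2, h3⟩ := hx
  have hlt : a < b := by rw [Fin.lt_def]; omega
  refine ⟨fun r s h => ?_, ?_, ?_⟩
  · rw [ct_lie, h1 r s h, map_zero]
    have e1 : (if r = b then ct a s x else 0) = 0 := by
      split_ifs with hr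
      · by_cases hs : s = b
        · rw [hs, h2]
        · apply h1
          rw [Fin.le_def] at h ⊢
          rw [hr] at h
          have : s.val ≠ b.val := fun t => hs (Fin.ext t)
          omega
      · rfl
    have e2 : (if s = a then ct r b x else 0) = 0 := by
      split_ifs with hs
      · by_cases hr : r = a
        · rw [hr, h2]
        · apply h1
          rw [Fin.le_def] at h ⊢
          rw [hs] at h
          have : r.val ≠ a.val := fun t => hr (Fin.ext t)
          omega
      · rfl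
    rw [e1, e2]; simp
  · rw [ct_lie, h2, map_zero, if_neg hlt.ne, if_neg hlt.ne']; simp
  · rw [sg_lie, h3, map_smul]

theorem Uab_lie' {a b : Fin M} (hab : a.val + 1 = b.val) (c : ℝ) (x : Lam M) (hx : x ∈ Uab a b c) :
    lie b a x ∈ Uab a b c := by
  obtain ⟨h1, h2, h3⟩ := hx
  have hlt : a < b := by rw [Fin.lt_def]; omega
  refine ⟨fun r s h => ?_, ?_, ?_⟩
  · rw [ct_lie, h1 r s h, map_zero]
    have e1 : (if r = a then ct b s x else 0) = 0 := by
      split_ifs with hr
      · apply h1
        rw [hr] at h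
        exact h.trans hlt.le
      · rfl
    have e2 : (if s = b then ct r a x else 0) = 0 := by
      split_ifs with hs
      · apply h1
        rw [hs] at h
        exact hlt.le.trans h
      · rfl
    rw [e1, e2]; simp
  · rw [ct_lie, h2, map_zero, if_pos rfl, if_pos rfl, h1 b b le_rfl, h1 a a le_rfl]; simp
  · rw [sg_lie, h3, map_smul]

/-- double contraction -/
def Jab (a b : Fin M) (x : Lam M) : Lam M := ct a b (ct b a x)

theorem Jab_add (a b : Fin M) (x y : Lam M) : Jab a b (x + y) = Jab a b x + Jab a b y := by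
  unfold Jab; rw [map_add, map_add]

theorem Jab_gen {a b : Fin M} (h : a < b) (x : Lam M) (hx : Up x) :
    Jab a b (x * tau x) = sg (ct a b x) * tau (sg (ct a b x)) := by
  unfold Jab
  have h1 : ct b a (ct a b x) = 0 := by rw [ct_ct, hx b a h.le, map_zero, neg_zero]
  have h2 : ct b a (x * tau x) = - (sg x * tau (sg (ct a b x))) := by
    rw [ct_mul, hx b a h.le, zero_mul, zero_add, ct_tau, mul_neg]
  rw [h2, map_neg, ct_mul, sg_sg, ct_tau]
  have h3 : ct b a (sg (ct a b x)) = 0 := by
    have := sg_ct b a (ct a b x)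
    rw [h1, map_zero] at this
    rw [eq_comm, neg_eq_zero] at this
    exact this
  have h4 : ct a b (sg x) = - sg (ct a b x) := by rw [sg_ct, neg_neg]
  rw [h3, h4, map_zero, map_zero, neg_zero, mul_zero, add_zero, neg_mul, neg_neg]

theorem Jab_PS {a b : Fin M} (h : a < b) (z : Lam M) (hz : z ∈ PS M) :
    ∃ z1 ∈ coneOf (Uab a b 1), ∃ z2 ∈ coneOf (Uab a b (-1)), Jab a b z = z1 + z2 := by
  unfold PS at hz
  induction hz using AddSubmonoid.closure_induction with
  | mem z hz =>
    obtain ⟨x, hu, hx, rfl⟩ := hz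
    have k1 : ∀ r s, s ≤ r → ct r s (sg (ct a b x)) = 0 := by
      intro r s hrs
      have : ct r s (ct a b x) = 0 := by rw [ct_ct, hu r s hrs, map_zero, neg_zero]
      have e := sg_ct r s (ct a b x)
      rw [this, map_zero, eq_comm, neg_eq_zero] at e
      exact e
    have k2 : ct a b (sg (ct a b x)) = 0 := by
      have e := sg_ct a b (ct a b x)
      rw [ct_ct_self, map_zero, eq_comm, neg_eq_zero] at e
      exact e
    rw [Jab_gen h x hu]
    rcases hx with hx | hx
    · refine ⟨0, zero_mem _, _, ?_, (zero_add _).symm⟩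
      refine AddSubmonoid.subset_closure ⟨_, ⟨k1, k2, ?_⟩, rfl⟩
      rw [sg_ct, hx, map_neg, sg_ct, hx]
      simp
    · refine ⟨_, ?_, 0, zero_mem _, (add_zero _).symm⟩
      refine AddSubmonoid.subset_closure ⟨_, ⟨k1, k2, ?_⟩, rfl⟩
      rw [one_smul, sg_sg, sg_ct, hx, map_neg, neg_neg]
  | zero => exact ⟨0, zero_mem _, 0, zero_mem _, by unfold Jab; simp⟩
  | add x y _ _ hx hy =>
    obtain ⟨x1, hx1, x2, hx2, ex⟩ := hx
    obtain ⟨y1, hy1, y2, hy2, ey⟩ := hy
    refine ⟨x1 + y1, add_mem hx1 hy1, x2 + y2, add_mem hx2 hy2, ?_⟩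
    rw [Jab_add, ex, ey]; abel

theorem coneOf_le_PS {a b : Fin M} {c : ℝ} (hc : c = 1 ∨ c = -1) : coneOf (Uab a b c) ≤ PS M := by
  unfold coneOf
  rw [AddSubmonoid.closure_le]
  rintro z ⟨x, ⟨h1, h2, h3⟩, rfl⟩
  apply AddSubmonoid.subset_closure
  refine ⟨x, h1, ?_, rfl⟩
  rcases hc with rfl | rfl
  · left; rw [h3, one_smul]
  · right; rw [h3, neg_one_smul]

theorem ce_PS {a b : Fin M} (hab : a.val + 1 = b.val) (z : Lam M) (hz : z ∈ PS M) :
    ∃ z' ∈ PS M, lie a b z' = 0 ∧ lie b a z' = 0 ∧ ∃ u v, Jab a b z = z' + lie a b u + lie b a v := by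
  have hlt : a < b := by rw [Fin.lt_def]; omega
  obtain ⟨z1, hz1, z2, hz2, e⟩ := Jab_PS hlt z hz
  obtain ⟨y1, hy1, p1, q1, u1, v1, e1⟩ := ce_apply (Uab a b 1) a b (Uab_lie hab 1) (Uab_lie' hab 1) z1 hz1
  obtain ⟨y2, hy2, p2, q2, u2, v2, e2⟩ :=
    ce_apply (Uab a b (-1)) a b (Uab_lie hab (-1)) (Uab_lie' hab (-1)) z2 hz2
  refine ⟨y1 + y2, add_mem (coneOf_le_PS (Or.inl rfl) hy1) (coneOf_le_PS (Or.inr rfl) hy2), ?_, ?_,
    u1 + u2, v1 + v2, ?_⟩
  · rw [map_add, p1, p2, add_zero]
  · rw [map_add, q1, q2, add_zero]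
  · rw [e, e1, e2, map_add, map_add]; abel

theorem tri {a b : Fin M} (x u v : Lam M) (hx : x = lie a b u + lie b a v)
    (h1 : lie a b x = 0) (h2 : lie b a x = 0) : x = 0 :=
  trivial_inter (ipB : LinearMap.BilinForm ℝ (Lam M)) ip_symm eq_zero_of_ip_self (lie a b) (lie b a)
    (fun x y => ip_lie a b x y) x u v hx h1 h2

theorem lie_kk_lie (k a b : Fin M) (x : Lam M) : lie k k (lie a b x) =
    lie a b (lie k k x + (if a = k then x else 0) - (if b = k then x else 0)) := by
  rw [lie_lie, map_sub, map_add]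
  congr 1
  · congr 1
    split_ifs with h
    · rw [h]
    · rw [map_zero]
  · split_ifs with h
    · rw [h]
    · rw [map_zero]

theorem wt_zero {a b : Fin M} (k : Fin M) (x y u v : Lam M) (hx : x = y + lie a b u + lie b a v)
    (hk : lie k k x = 0) (h1 : lie a b y = 0) (h2 : lie b a y = 0) : lie k k y = 0 := by
  have e : lie k k y = lie a b (-(lie k k u + (if a = k then u else 0) - (if b = k then u else 0))) +
      lie b a (-(lie k k v + (if b = k then v else 0) - (if a = k then v else 0))) := by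
    have : y = x - lie a b u - lie b a v := by rw [hx]; abel
    rw [this, map_sub, map_sub, hk, lie_kk_lie, lie_kk_lie, map_neg, map_neg]
    abel
  refine tri _ _ _ e ?_ ?_
  · have := lie_kk_lie k a b y
    rw [h1, map_zero, map_sub, map_add] at this
    have e1 : lie a b (if a = k then y else 0) = 0 := by
      split_ifs
      · exact h1
      · exact map_zero _
    have e2 : lie a b (if b = k then y else 0) = 0 := by
      split_ifs
      · exact h1
      · exact map_zero _
    rw [e1, e2, add_zero, sub_zero] at this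
    exact this.symm
  · have := lie_kk_lie k b a y
    rw [h2, map_zero, map_sub, map_add] at this
    have e1 : lie b a (if b = k then y else 0) = 0 := by
      split_ifs
      · exact h2
      · exact map_zero _
    have e2 : lie b a (if a = k then y else 0) = 0 := by
      split_ifs
      · exact h2
      · exact map_zero _
    rw [e1, e2, add_zero, sub_zero] at this
    exact this.symm

theorem lie_kk_ct (k a b : Fin M) (x : Lam M) : lie k k (ct a b x) =
    ct a b (lie k k x + (if a = k then x else 0) - (if b = k then x else 0)) := by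
  rw [lie_ct, map_sub, map_add]
  congr 1
  · congr 1
    split_ifs with h
    · rw [h]
    · rw [map_zero]
  · split_ifs with h
    · rw [h]
    · rw [map_zero]

theorem lie_kk_Jab (k a b : Fin M) (x : Lam M) (hx : lie k k x = 0) : lie k k (Jab a b x) = 0 := by
  unfold Jab
  rw [lie_kk_ct, lie_kk_ct, hx]
  have : (ct b a) (0 + (if b = k then x else 0) - if a = k then x else 0) +
      (if a = k then (ct b a) x else 0) - (if b = k then (ct b a) x else 0) = 0 := by
    split_ifs <;> simp
  rw [this, map_zero]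

/-- submodule of horizontal elements -/
def Wab (a b : Fin M) : Submodule ℝ (Lam M) where
  carrier := {x | (∀ k, ct k k x = 0) ∧ ct a b x = 0 ∧ ct b a x = 0}
  add_mem' := by
    rintro x y ⟨h1, h2, h3⟩ ⟨h1', h2', h3'⟩
    refine ⟨fun r => ?_, ?_, ?_⟩
    · rw [map_add, h1 r, h1' r, add_zero]
    · rw [map_add, h2, h2', add_zero]
    · rw [map_add, h3, h3', add_zero]
  zero_mem' := ⟨fun r => map_zero _, map_zero _, map_zero _⟩
  smul_mem' := by
    rintro t x ⟨h1, h2, h3⟩
    refine ⟨fun r => ?_, ?_, ?_⟩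
    · rw [map_smul, h1 r, smul_zero]
    · rw [map_smul, h2, smul_zero]
    · rw [map_smul, h3, smul_zero]

theorem Wab_symm {a b : Fin M} {x : Lam M} (hx : x ∈ Wab a b) : x ∈ Wab b a :=
  ⟨hx.1, hx.2.2, hx.2.1⟩

theorem Wab_lie {a b : Fin M} (hab : a ≠ b) (x : Lam M) (hx : x ∈ Wab a b) :
    lie a b x ∈ Wab a b := by
  obtain ⟨h1, h2, h3⟩ := hx
  refine ⟨fun k => ?_, ?_, ?_⟩
  · rw [ct_lie, h1, map_zero]
    have e1 : (if k = b then ct a k x else 0) = 0 := by
      split_ifs with h
      · rw [h, h2]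
      · rfl
    have e2 : (if k = a then ct k b x else 0) = 0 := by
      split_ifs with h
      · rw [h, h2]
      · rfl
    rw [e1, e2]; simp
  · rw [ct_lie, h2, map_zero, if_neg hab, if_neg hab.symm]; simp
  · rw [ct_lie, h3, map_zero, if_pos rfl, if_pos rfl, h1, h1]; simp

theorem Jab_Wab {a b : Fin M} (x : Lam M) (hx : ∀ k, ct k k x = 0) : Jab a b x ∈ Wab a b := by
  refine ⟨fun k => ?_, ?_, ?_⟩
  · unfold Jab
    rw [ct_ct, ct_ct k k b a, hx]; simp
  · unfold Jab
    rw [ct_ct_self]
  · unfold Jab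
    rw [ct_ct, ct_ct_self]; simp

/-- closed basic elements for the pair `a b` -/
structure Bc (a b : Fin M) (x : Lam M) : Prop where
  e : sg x = x
  c : dd x = 0
  h : ∀ k, ct k k x = 0
  h1 : ct a b x = 0
  h2 : ct b a x = 0

theorem Bc.lie1 {a b : Fin M} {x : Lam M} (hx : Bc a b x) : lie a b x = 0 := by
  rw [lie_apply, hx.h1, hx.c, map_zero, map_zero, add_zero]

theorem Bc.lie2 {a b : Fin M} {x : Lam M} (hx : Bc a b x) : lie b a x = 0 := by
  rw [lie_apply, hx.h2, hx.c, map_zero, map_zero, add_zero]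

theorem Bc.bas {a b : Fin M} {x : Lam M} (hx : Bc a b x) : Bas x := by
  refine ⟨hx.h, fun k => ?_⟩
  rw [lie_apply, hx.h, hx.c, map_zero, map_zero, add_zero]

theorem ct_dth (p q a b : Fin M) :
    ct p q (dth a b) = (if q = b then th a p else 0) - (if p = a then th q b else 0) := by
  have h := lie_th p q a b
  rw [lie_apply, dd_th, ct_th] at h
  have h0 : dd (if p = a ∧ q = b then (1 : Lam M) else 0) = 0 := by
    split_ifs
    · exact isADer_dd.one
    · exact map_zero _
  rwa [h0, zero_add] at h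

theorem Jab_X {a b : Fin M} (hab : a ≠ b) (x : Lam M) (hx : Bc a b x) :
    Jab a b (dth a a * x) = x := by
  unfold Jab
  rw [ct_mul, hx.h2, mul_zero, add_zero, ct_dth, if_pos rfl, if_neg hab.symm, sub_zero, ct_th_mul,
    if_pos ⟨rfl, rfl⟩, hx.h1, mul_zero, sub_zero]

theorem Jab_dd {a b : Fin M} (x : Lam M) (hx : Bas x) :
    Jab a b (dd x) = dd (Jab a b x) + lie b a (ct a b x) - lie a b (ct b a x) := by
  unfold Jab
  have h1 : ct b a (dd x) = lie b a x - dd (ct b a x) := by rw [lie_apply]; abel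
  have h2 : ct a b (dd (ct b a x)) = lie a b (ct b a x) - dd (ct a b (ct b a x)) := by
    rw [lie_apply a b (ct b a x)]; abel
  rw [h1, map_sub, h2, ct_lie, if_pos rfl, if_pos rfl, hx.h, hx.h]
  abel

theorem Bas.dd {x : Lam M} (hx : Bas x) : Bas (dd x) := by
  refine ⟨fun k => ?_, fun k => ?_⟩
  · have h := lie_apply k k x
    rw [hx.l, hx.h, map_zero, zero_add] at h
    exact h.symm
  · rw [lie_dd, hx.l, map_zero]

theorem push {a b : Fin M} (hab : a.val + 1 = b.val) (w : Lam M) (hw : w ∈ PS M) (hwb : Bas w)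
    (b0 b1 y : Lam M) (h0 : Bc a b b0) (h1 : Bc a b b1) (hy : Bas y)
    (e : w = b0 + dth a a * b1 + dd y) :
    ∃ w' ∈ PS M, Bas w' ∧ ∃ y', Bas y' ∧ w' = b1 + dd y' := by
  have hne : a ≠ b := by
    intro h
    rw [h] at hab
    omega
  obtain ⟨w', hw', l1, l2, u, v, huv⟩ := ce_PS hab w hw
  have wb : Bas w' := ⟨PS_ct hw', fun k => wt_zero k _ w' u v huv (lie_kk_Jab k a b w (hwb.l k)) l1 l2⟩
  obtain ⟨z, hz, lz1, lz2, s, _, t, _, hst⟩ := decomp (ipB : LinearMap.BilinForm ℝ (Lam M)) ip_symm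
    eq_zero_of_ip_self (lie a b) (lie b a) (fun x y => ip_lie a b x y) (Wab a b)
    (fun x hx => Wab_lie hne x hx) (fun x hx => Wab_symm (Wab_lie hne.symm x (Wab_symm hx)))
    (Jab a b y) (Jab_Wab y hy.h)
  have zb : Bas z := ⟨hz.1, fun k => wt_zero k _ z s t hst (lie_kk_Jab k a b y (hy.l k)) lz1 lz2⟩
  refine ⟨w', hw', wb, z, zb, ?_⟩
  have hJ : Jab a b w = b1 + dd (Jab a b y) + lie b a (ct a b y) - lie a b (ct b a y) := by
    have hJ0 : Jab a b b0 = 0 := by
      unfold Jab
      rw [h0.h2, map_zero]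
    rw [e, Jab_add, Jab_add, hJ0, Jab_X hne _ h1, Jab_dd y hy]
    abel
  have key : w' - b1 - dd z = lie a b (dd s - ct b a y - u) + lie b a (dd t + ct a b y - v) := by
    have e1 : w' = Jab a b w - lie a b u - lie b a v := by rw [huv]; abel
    rw [e1, hJ, hst, map_add, map_add, map_sub, map_sub, map_sub, map_add, lie_dd, lie_dd]
    abel
  have := tri (w' - b1 - dd z) _ _ key
    (by rw [map_sub, map_sub, l1, h1.lie1, lie_dd, lz1, map_zero]; simp)
    (by rw [map_sub, map_sub, l2, h1.lie2, lie_dd, lz2, map_zero]; simp)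
  rw [sub_sub, sub_eq_zero] at this
  exact this

end

end Pool.Agent.E8helper44
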