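import Pool.Agent.E8helper44.Pm

set_option autoImplicit false

namespace Pool.Agent.E8helper44

open MvPolynomial Equiv

noncomputable section

variable {n : ℕ}

/-- weight of an exponent -/
def wt (ψ : Fin n → ℕ) (b : Fin n →₀ ℕ) : ℕ := ∑ j, ψ j * b j

/-- weighted substitution -/
def ph (ψ : Fin n → ℕ) : MvPolynomial (Fin n) ℤ →+* Polynomial (MvPolynomial (Fin n) ℤ) :=
  eval₂Hom (Polynomial.C.comp C) (fun j => Polynomial.C (X j) * Polynomial.X ^ (ψ j))

theorem ph_monomial (ψ : Fin n → ℕ) (b : Fin n →₀ ℕ) (c : ℤ) :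
    ph ψ (monomial b c) = Polynomial.C (monomial b c) * Polynomial.X ^ (wt ψ b) := by
  unfold ph
  rw [coe_eval₂Hom, eval₂_monomial, Finsupp.prod_fintype _ _ (fun i => by rw [pow_zero])]
  have h : ∀ i ∈ Finset.univ, ((Polynomial.C (X i : MvPolynomial (Fin n) ℤ) * Polynomial.X ^ (ψ i)) ^ b i :
      Polynomial (MvPolynomial (Fin n) ℤ)) =
      Polynomial.C (X i ^ b i) * Polynomial.X ^ (ψ i * b i) := by
    intro i _
    rw [mul_pow, ← pow_mul, ← Polynomial.C_pow]
  rw [Finset.prod_congr rfl h, Finset.prod_mul_distrib, Finset.prod_pow_eq_pow_sum, ← mul_assoc]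
  unfold wt
  congr 1
  rw [monomial_eq, Finsupp.prod_fintype _ _ (fun i => by rw [pow_zero]), Polynomial.C_mul, map_prod]
  rfl

theorem ph_coeff (ψ : Fin n → ℕ) (f : MvPolynomial (Fin n) ℤ) (k : ℕ) (b : Fin n →₀ ℕ) :
    coeff b ((ph ψ f).coeff k) = if wt ψ b = k then coeff b f else 0 := by
  induction f using MvPolynomial.induction_on' with
  | monomial u a =>
    rw [ph_monomial, Polynomial.coeff_C_mul, Polynomial.coeff_X_pow]
    by_cases h1 : k = wt ψ u
    · rw [if_pos h1, mul_one, coeff_monomial]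
      by_cases h2 : u = b
      · subst h2
        rw [if_pos rfl, if_pos h1.symm]
      · rw [if_neg h2, ite_self]
    · rw [if_neg h1, mul_zero, coeff_zero, coeff_monomial]
      split_ifs with h2 h3
      · subst h3
        exact absurd h2.symm h1
      · rfl
      · rfl
  | add p q hp hq =>
    rw [map_add, Polynomial.coeff_add, coeff_add, hp, hq, coeff_add]
    split_ifs <;> simp

/-- weighted degree -/
def wd (ψ : Fin n → ℕ) (f : MvPolynomial (Fin n) ℤ) : ℕ := (ph ψ f).natDegree

theorem wd_le_iff (ψ : Fin n → ℕ) (f : MvPolynomial (Fin n) ℤ) (K : ℕ) :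
    wd ψ f ≤ K ↔ ∀ b, coeff b f ≠ 0 → wt ψ b ≤ K := by
  unfold wd
  rw [Polynomial.natDegree_le_iff_coeff_eq_zero]
  constructor
  · intro h b hb
    by_contra hlt
    push Not at hlt
    have h1 := h _ hlt
    have h2 := ph_coeff ψ f (wt ψ b) b
    rw [h1, coeff_zero, if_pos rfl] at h2
    exact hb h2.symm
  · intro h N hN
    ext b
    rw [ph_coeff, coeff_zero]
    split_ifs with h1
    · by_contra h2
      have := h b h2
      omega
    · rfl

theorem coeff_zero_of_wd (ψ : Fin n → ℕ) (f : MvPolynomial (Fin n) ℤ) (b : Fin n →₀ ℕ)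
    (h : wd ψ f < wt ψ b) : coeff b f = 0 := by
  by_contra hb
  have := (wd_le_iff ψ f _).mp le_rfl b hb
  omega

theorem ph_ne_zero (ψ : Fin n → ℕ) (f : MvPolynomial (Fin n) ℤ) (hf : f ≠ 0) : ph ψ f ≠ 0 := by
  intro h
  apply hf
  ext b
  have := ph_coeff ψ f (wt ψ b) b
  rw [h, Polynomial.coeff_zero, coeff_zero, if_pos rfl] at this
  rw [← this, coeff_zero]

theorem wd_mul (ψ : Fin n → ℕ) (f g : MvPolynomial (Fin n) ℤ) (hf : f ≠ 0) (hg : g ≠ 0) :
    wd ψ (f * g) = wd ψ f + wd ψ g := by
  unfold wd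
  rw [map_mul, Polynomial.natDegree_mul (ph_ne_zero ψ f hf) (ph_ne_zero ψ g hg)]

theorem wd_mul_le (ψ : Fin n → ℕ) (f g : MvPolynomial (Fin n) ℤ) :
    wd ψ (f * g) ≤ wd ψ f + wd ψ g := by
  unfold wd
  rw [map_mul]
  exact Polynomial.natDegree_mul_le

theorem wd_sub_le (ψ : Fin n → ℕ) (f g : MvPolynomial (Fin n) ℤ) :
    wd ψ (f - g) ≤ max (wd ψ f) (wd ψ g) := by
  unfold wd
  rw [map_sub]
  exact Polynomial.natDegree_sub_le _ _

theorem wd_rename (ψ : Fin n → ℕ) (s : Perm (Fin n)) (f : MvPolynomial (Fin n) ℤ) :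
    wd ψ (rename s f) ≤ wd (fun j => ψ (s j)) f := by
  rw [wd_le_iff]
  intro b hb
  obtain ⟨u, rfl, hu⟩ := coeff_rename_ne_zero _ _ _ hb
  have h1 := (wd_le_iff (fun j => ψ (s j)) f _).mp le_rfl u hu
  refine le_trans (le_of_eq ?_) h1
  unfold wt
  rw [← Equiv.sum_comp s]
  refine Finset.sum_congr rfl fun j _ => ?_
  rw [Finsupp.mapDomain_apply s.injective]

theorem wd_total (ψ : Fin n → ℕ) (f : MvPolynomial (Fin n) ℤ) :
    wd ψ f ≤ f.totalDegree * ∑ j, ψ j := by
  rw [wd_le_iff]
  intro b hb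
  have h1 := le_totalDegree (mem_support_iff.mpr hb)
  rw [Finsupp.sum_fintype _ _ (fun _ => rfl)] at h1
  unfold wt
  rw [Finset.mul_sum]
  refine Finset.sum_le_sum fun j _ => ?_
  rw [mul_comm]
  refine Nat.mul_le_mul_right _ (le_trans ?_ h1)
  exact Finset.single_le_sum (f := fun i => b i) (fun _ _ => Nat.zero_le _) (Finset.mem_univ j)

/-- bound for the weighted degree -/
def Bd (κ : Fin n → ℕ) (k C : ℕ) (g : MvPolynomial (Fin n) ℤ) : Prop :=
  ∀ ψ : Fin n → ℕ, g = 0 ∨ ∃ z : Perm (Fin n), iv z < k ∧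
    wd ψ g ≤ C * (∑ j, ψ j) + ∑ j, ψ (z j) * κ j

theorem Bd.mono {κ : Fin n → ℕ} {k k' C C' : ℕ} {g : MvPolynomial (Fin n) ℤ} (h : Bd κ k C g)
    (hk : k ≤ k') (hC : C ≤ C') : Bd κ k' C' g := by
  intro ψ
  rcases h ψ with h | ⟨z, hz, h⟩
  · exact Or.inl h
  · exact Or.inr ⟨z, by omega, h.trans (Nat.add_le_add_right (Nat.mul_le_mul_right _ hC) _)⟩

theorem Bd.sub {κ : Fin n → ℕ} {k C : ℕ} {g g' : MvPolynomial (Fin n) ℤ} (h : Bd κ k C g)
    (h' : Bd κ k C g') : Bd κ k C (g - g') := by
  intro ψ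
  rcases h ψ with h | ⟨z, hz, h⟩
  · rcases h' ψ with h' | ⟨z', hz', h'⟩
    · left; rw [h, h', sub_self]
    · right
      refine ⟨z', hz', ?_⟩
      have := wd_sub_le ψ g g'
      have e0 : wd ψ g = 0 := by rw [h]; unfold wd; simp
      rw [e0] at this
      exact this.trans (max_le (Nat.zero_le _) h')
  · right
    rcases h' ψ with h' | ⟨z', hz', h'⟩
    · refine ⟨z, hz, ?_⟩
      rw [h', sub_zero]; exact h
    · have := wd_sub_le ψ g g'
      rcases le_total (wd ψ g) (wd ψ g') with hle | hle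
      · exact ⟨z', hz', this.trans (max_le (hle.trans h') h')⟩
      · exact ⟨z, hz, this.trans (max_le h (hle.trans h))⟩

theorem Bd.mul {κ : Fin n → ℕ} {k C : ℕ} {g : MvPolynomial (Fin n) ℤ} (h : Bd κ k C g)
    (p : MvPolynomial (Fin n) ℤ) : Bd κ k (C + p.totalDegree) (p * g) := by
  intro ψ
  rcases h ψ with h | ⟨z, hz, h⟩
  · left; rw [h, mul_zero]
  · right
    refine ⟨z, hz, ?_⟩
    have h1 := wd_mul_le ψ p g
    have h2 := wd_total ψ p
    rw [add_mul]
    omega

theorem Bd.swap {κ : Fin n → ℕ} {k C : ℕ} {g : MvPolynomial (Fin n) ℤ} (h : Bd κ k C g)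
    (i j : Fin n) (hij : j.val = i.val + 1) : Bd κ (k + 1) C (rename (swap i j) g) := by
  intro ψ
  rcases h (fun x => ψ (Equiv.swap i j x)) with h | ⟨z, hz, h⟩
  · left; rw [h, map_zero]
  · right
    refine ⟨Equiv.swap i j * z, ?_, ?_⟩
    · rcases iv_swap_cases z i j hij with h1 | h1 <;> omega
    · refine (wd_rename ψ (Equiv.swap i j) g).trans (h.trans ?_)
      rw [Equiv.sum_comp (Equiv.swap i j) ψ]
      rfl

theorem X_sub_ne' (i j : Fin n) (hij : j.val = i.val + 1) :
    (X i - X j : MvPolynomial (Fin n) ℤ) ≠ 0 := by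
  intro h
  have := sub_eq_zero.mp h
  have := MvPolynomial.X_injective this
  rw [this] at hij
  omega

theorem Bd.dd {κ : Fin n → ℕ} {k C : ℕ} {g g' : MvPolynomial (Fin n) ℤ} (h : Bd κ k C g)
    (i j : Fin n) (hij : j.val = i.val + 1)
    (e : (X i - X j) * g' = g - rename (Equiv.swap i j) g) : Bd κ (k + 1) C g' := by
  have h1 : Bd κ (k + 1) C (g - rename (Equiv.swap i j) g) :=
    (h.mono (Nat.le_succ k) le_rfl).sub (h.swap i j hij)
  intro ψ
  by_cases hg : g' = 0
  · exact Or.inl hg
  · right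
    rcases h1 ψ with h2 | ⟨z, hz, h2⟩
    · exfalso
      rw [← e] at h2
      rcases mul_eq_zero.mp h2 with h3 | h3
      · exact X_sub_ne' i j hij h3
      · exact hg h3
    · refine ⟨z, hz, ?_⟩
      rw [← e, wd_mul ψ _ _ (X_sub_ne' i j hij) hg] at h2
      omega

/-- monomial -/
def xk (κ : Fin n → ℕ) : MvPolynomial (Fin n) ℤ := ∏ j, X j ^ κ j

theorem xk_eq (κ : Fin n → ℕ) : xk κ = monomial (Finsupp.equivFunOnFinite.symm κ) 1 := by
  unfold xk
  rw [monomial_eq, Finsupp.prod_fintype _ _ (fun i => by rw [pow_zero])]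
  simp

theorem Bd_xk (κ : Fin n → ℕ) : Bd κ 1 0 (xk κ) := by
  intro ψ
  right
  refine ⟨1, by rw [iv_one]; omega, ?_⟩
  rw [wd_le_iff]
  intro b hb
  rw [xk_eq, coeff_monomial] at hb
  split_ifs at hb with h
  · subst h
    unfold wt
    simp
  · exact absurd rfl hb

section D

variable (D : Perm (Fin n) → MvPolynomial (Fin n) ℤ → MvPolynomial (Fin n) ℤ)
  (h1 : ∀ f, D 1 f = f)
  (h2 : ∀ (w : Perm (Fin n)) (i j : Fin n), j.val = i.val + 1 → iv (Equiv.swap i j * w) < iv w →
    ∀ f, (X i - X j) * D w f = D (Equiv.swap i j * w) f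
            - rename (⇑(Equiv.swap i j)) (D (Equiv.swap i j * w) f))

include h1 h2 in
theorem D_Bd (κ : Fin n → ℕ) (w : Perm (Fin n)) : Bd κ (iv w + 1) 0 (D w (xk κ)) := by
  induction h : iv w using Nat.strong_induction_on generalizing w with
  | _ k ih =>
    by_cases hw : w = 1
    · subst hw
      rw [h1]
      exact (Bd_xk κ).mono (by omega) le_rfl
    · obtain ⟨i, j, hij, hd, _⟩ := exists_descent w hw
      have h3 := ih (iv (Equiv.swap i j * w)) (by omega) (Equiv.swap i j * w) rfl
      have h4 := h3.dd i j hij (h2 w i j hij (by omega) (xk κ))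
      exact h4.mono (by omega) le_rfl

/-- product over inversions -/
def Dw (w : Perm (Fin n)) : MvPolynomial (Fin n) ℤ := ∏ p ∈ Is w, (X (w p.1) - X (w p.2))

include h1 h2 in
theorem lead (w : Perm (Fin n)) : ∃ C, ∀ κ : Fin n → ℕ,
    Bd κ (iv w) C (Dw w * D w (xk κ) - rename w (xk κ)) := by
  induction h : iv w using Nat.strong_induction_on generalizing w with
  | _ k ih =>
    by_cases hw : w = 1
    · subst hw
      refine ⟨0, fun κ ψ => Or.inl ?_⟩
      have : Dw (1 : Perm (Fin n)) = 1 := by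
        unfold Dw
        have : Is (1 : Perm (Fin n)) = ∅ := by
          rw [← Finset.card_eq_zero]; exact iv_one
        rw [this, Finset.prod_empty]
      rw [this, h1, one_mul, Perm.coe_one, rename_id_apply, sub_self]
    · obtain ⟨i, j, hij, hd, hlt⟩ := exists_descent w hw
      obtain ⟨C, hC⟩ := ih (iv (Equiv.swap i j * w)) (by omega) (Equiv.swap i j * w) rfl
      set w' := Equiv.swap i j * w with hw'
      have hww : w = Equiv.swap i j * w' := by
        rw [hw', ← mul_assoc, Equiv.swap_mul_self, one_mul]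
      have hlt' : w'⁻¹ i < w'⁻¹ j := by
        rw [hw', mul_inv_rev, Equiv.swap_inv, Perm.mul_apply, Perm.mul_apply,
          Equiv.swap_apply_left, Equiv.swap_apply_right]
        exact hlt
      obtain ⟨hI1, hI2⟩ := Is_swap w' i j hij hlt'
      have hD : Dw w = (X j - X i) * rename (Equiv.swap i j) (Dw w') := by
        unfold Dw
        conv_lhs => rw [hww]
        rw [hI1, Finset.prod_insert hI2, map_prod]
        simp only [Perm.mul_apply, aiv, Equiv.swap_apply_left, Equiv.swap_apply_right, map_sub,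
          rename_X]
      refine ⟨C + (rename (Equiv.swap i j) (Dw w')).totalDegree, fun κ => ?_⟩
      have e := h2 w i j hij (by rw [← hw']; omega) (xk κ)
      rw [← hw'] at e
      have e2 : Dw w * D w (xk κ) - rename w (xk κ) =
          rename (Equiv.swap i j) (Dw w' * D w' (xk κ) - rename w' (xk κ)) -
            rename (Equiv.swap i j) (Dw w') * D w' (xk κ) := by
        have e3 : rename w (xk κ) = rename (Equiv.swap i j) (rename w' (xk κ)) := by
          rw [rename_rename]
          congr 1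
          rw [hww]
          rfl
        rw [hD, e3, map_sub, map_mul]
        linear_combination (-rename (Equiv.swap i j) (Dw w')) * e
      rw [e2]
      have b1 := (hC κ).swap i j hij
      have b2 := (D_Bd D h1 h2 κ w').mul (rename (Equiv.swap i j) (Dw w'))
      exact (b1.mono (by omega) (by omega)).sub (b2.mono (by omega) (by omega))

include h2 in
theorem D_sym (w : Perm (Fin n)) (i j : Fin n) (hij : j.val = i.val + 1)
    (h : iv (Equiv.swap i j * w) < iv w) (f : MvPolynomial (Fin n) ℤ) :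
    rename (Equiv.swap i j) (D w f) = D w f := by
  have e := h2 w i j hij h f
  have e2 := congrArg (rename (Equiv.swap i j)) e
  rw [map_mul, map_sub, map_sub, rename_X, rename_X, rename_rename, Equiv.swap_apply_left,
    Equiv.swap_apply_right] at e2
  have hss : (⇑(Equiv.swap i j) ∘ ⇑(Equiv.swap i j)) = id := by
    ext x
    simp
  rw [hss, rename_id_apply] at e2
  apply mul_left_cancel₀ (X_sub_ne' i j hij)
  linear_combination -e2 - e

include h1 h2 in
theorem D_comp (a b : Perm (Fin n)) (f : MvPolynomial (Fin n) ℤ) :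
    D a (D b f) = if iv (a * b) = iv a + iv b then D (a * b) f else 0 := by
  induction h : iv a using Nat.strong_induction_on generalizing a with
  | _ k ih =>
    by_cases ha : a = 1
    · subst ha
      rw [iv_one] at h
      subst h
      rw [h1, one_mul, zero_add, if_pos rfl]
    · obtain ⟨i, j, hij, hd, _⟩ := exists_descent a ha
      have ih' := ih (iv (Equiv.swap i j * a)) (by omega) (Equiv.swap i j * a) rfl
      have e := h2 a i j hij (by omega) (D b f)
      rw [ih'] at e
      have hcase := iv_swap_cases (a * b) i j hij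
      rw [← mul_assoc] at hcase
      have hle := iv_mul_le (Equiv.swap i j * a) b
      apply mul_left_cancel₀ (X_sub_ne' i j hij)
      rw [e]
      by_cases c1 : iv (Equiv.swap i j * a * b) = iv (Equiv.swap i j * a) + iv b
      · rw [if_pos c1]
        by_cases c2 : iv (a * b) = k + iv b
        · rw [if_pos c2]
          have e3 := h2 (a * b) i j hij (by rw [← mul_assoc]; omega) f
          rw [← mul_assoc] at e3
          exact e3.symm
        · rw [if_neg c2, mul_zero]
          rw [D_sym D h2 (Equiv.swap i j * a * b) i j hij _ f, sub_self]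
          have : Equiv.swap i j * (Equiv.swap i j * a * b) = a * b := by
            rw [← mul_assoc, ← mul_assoc, Equiv.swap_mul_self, one_mul]
          rw [this]
          omega
      · rw [if_neg c1, map_zero, sub_zero, if_neg (by omega), mul_zero]

end D

end

end Pool.Agent.E8helper44
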